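import Mathlib

set_option autoImplicit false

/-! Overlaps of a function on a finite abelian group with its Weyl-Heisenberg orbit. -/

namespace Pool.Agent.helper391_PS

open Finset
open scoped ComplexConjugate

variable {A : Type} [AddCommGroup A] [Fintype A] [DecidableEq A]

/-- overlap -/
noncomputable def ov (ψ : A → ℂ) (a : A) (χ : AddChar A ℂ) : ℂ :=
  ∑ x, ψ x * conj (ψ (x + a)) * χ x

structure Fid (ψ : A → ℂ) : Prop where
  unit : ∑ x, ‖ψ x‖ ^ 2 = 1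
  ang : ∀ a χ, (a, χ) ≠ ((0 : A), (0 : AddChar A ℂ)) →
    ‖ov ψ a χ‖ ^ 2 = 1 / ((Fintype.card A : ℝ) + 1)

def Par (ψ : A → ℂ) (l : ℂ) : Prop := ∀ x, ψ (-x) = l * ψ x

theorem char_conj (χ : AddChar A ℂ) (x : A) : conj (χ x) = χ (-x) :=
  (AddChar.map_neg_eq_conj χ x).symm

theorem ov_zero {ψ : A → ℂ} (h : Fid ψ) : ov ψ 0 0 = 1 := by
  unfold ov
  have : ∀ x, ψ x * conj (ψ (x + 0)) * (0 : AddChar A ℂ) x = ((‖ψ x‖ ^ 2 : ℝ) : ℂ) := by
    intro x
    rw [add_zero, AddChar.zero_apply, mul_one, Complex.mul_conj, Complex.normSq_eq_norm_sq]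
  rw [Finset.sum_congr rfl fun x _ => this x, ← Complex.ofReal_sum, h.unit, Complex.ofReal_one]

theorem exists_ne {ψ : A → ℂ} (h : Fid ψ) : ∃ x, ψ x ≠ 0 := by
  by_contra hc
  push Not at hc
  have := h.unit
  simp [hc] at this

theorem inv (ψ : A → ℂ) (a x : A) :
    (Fintype.card A : ℂ) * (ψ x * conj (ψ (x + a))) = ∑ χ, ov ψ a χ * χ (-x) := by
  unfold ov
  have h1 : ∀ χ : AddChar A ℂ, (∑ y, ψ y * conj (ψ (y + a)) * χ y) * χ (-x) =
      ∑ y, ψ y * conj (ψ (y + a)) * χ (y - x) := by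
    intro χ
    rw [Finset.sum_mul]
    refine Finset.sum_congr rfl fun y _ => ?_
    rw [mul_assoc, ← AddChar.map_add_eq_mul, sub_eq_add_neg]
  rw [Finset.sum_congr rfl fun χ _ => h1 χ, Finset.sum_comm]
  have h2 : ∀ y, ∑ χ : AddChar A ℂ, ψ y * conj (ψ (y + a)) * χ (y - x) =
      if y = x then (Fintype.card A : ℂ) * (ψ x * conj (ψ (x + a))) else 0 := by
    intro y
    rw [← Finset.mul_sum, AddChar.sum_apply_eq_ite]
    by_cases hy : y = x
    · subst hy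
      simp [mul_comm]
    · rw [if_neg (by rwa [sub_eq_zero]), if_neg hy, mul_zero]
  rw [Finset.sum_congr rfl fun y _ => h2 y]
  simp

theorem conj_ov (ψ : A → ℂ) (a : A) (χ : AddChar A ℂ) :
    conj (ov ψ a χ) = χ a * ov ψ (-a) (-χ) := by
  unfold ov
  rw [map_sum, Finset.mul_sum, ← Equiv.sum_comp (Equiv.addRight a)
    (fun y => χ a * (ψ y * conj (ψ (y + -a)) * (-χ) y))]
  refine Finset.sum_congr rfl fun x _ => ?_
  simp only [Equiv.coe_addRight, map_mul, Complex.conj_conj]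
  rw [AddChar.neg_apply, char_conj, show x + a + -a = x by abel,
    show -(x + a) = -x + -a by abel, AddChar.map_add_eq_mul]
  have h1 : χ a * χ (-a) = 1 := by
    rw [← AddChar.map_add_eq_mul, add_neg_cancel, AddChar.map_zero_eq_one]
  linear_combination (-(conj (ψ x) * ψ (x + a) * χ (-x))) * h1

theorem par_sq {ψ : A → ℂ} (h : Fid ψ) {l : ℂ} (hp : Par ψ l) : l = 1 ∨ l = -1 := by
  obtain ⟨x, hx⟩ := exists_ne h
  have h1 : l * l * ψ x = 1 * ψ x := by
    rw [one_mul, mul_assoc, ← hp, ← hp, neg_neg]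
  exact mul_self_eq_one_iff.1 (mul_right_cancel₀ hx h1)

theorem ov_neg {ψ : A → ℂ} (h : Fid ψ) {l : ℂ} (hp : Par ψ l) (a : A) (χ : AddChar A ℂ) :
    ov ψ (-a) (-χ) = ov ψ a χ := by
  unfold ov
  rw [← Equiv.sum_comp (Equiv.neg A)]
  refine Finset.sum_congr rfl fun x _ => ?_
  simp only [Equiv.neg_apply]
  rw [show -x + -a = -(x + a) by abel, hp, hp, AddChar.neg_apply, neg_neg]
  rcases par_sq h hp with rfl | rfl
  · simp
  · simp

theorem ov_sq {ψ : A → ℂ} (h : Fid ψ) {l : ℂ} (hp : Par ψ l) (a : A) (χ : AddChar A ℂ)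
    (hne : (a, χ) ≠ ((0 : A), (0 : AddChar A ℂ))) :
    ov ψ a χ ^ 2 * χ a * ((Fintype.card A : ℂ) + 1) = 1 := by
  have h1 := conj_ov ψ a χ
  rw [ov_neg h hp] at h1
  have h2 : ov ψ a χ * conj (ov ψ a χ) = ((‖ov ψ a χ‖ ^ 2 : ℝ) : ℂ) := by
    rw [Complex.mul_conj, Complex.normSq_eq_norm_sq]
  rw [h.ang a χ hne, h1] at h2
  have h3 : ((Fintype.card A : ℂ) + 1) ≠ 0 := by
    have : ((Fintype.card A : ℝ) + 1) ≠ 0 := by positivity
    exact_mod_cast this
  have h4 : ov ψ a χ * (χ a * ov ψ a χ) = 1 / ((Fintype.card A : ℂ) + 1) := by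
    rw [h2]; push_cast; ring
  calc ov ψ a χ ^ 2 * χ a * ((Fintype.card A : ℂ) + 1) =
      (ov ψ a χ * (χ a * ov ψ a χ)) * ((Fintype.card A : ℂ) + 1) := by ring
    _ = 1 := by rw [h4]; field_simp

theorem star {ψ : A → ℂ} {l : ℂ} (hp : Par ψ l) (a : A) (χ : AddChar A ℂ) :
    l * (Fintype.card A : ℂ) * ov ψ a χ =
      ∑ x, ∑ η : AddChar A ℂ, ov ψ (x + x + a) η * η x * χ x := by
  unfold ov
  rw [Finset.mul_sum]
  refine Finset.sum_congr rfl fun x _ => ?_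
  have h1 := inv ψ (x + x + a) (-x)
  rw [neg_neg, show -x + (x + x + a) = x + a by abel, hp] at h1
  rw [← Finset.sum_mul]
  unfold ov at h1
  rw [← h1]
  ring

end Pool.Agent.helper391_PS
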