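import Mathlib
import Pool.Agent.helper391_PS.Basic

set_option autoImplicit false

/-! Existence of parity-symmetric fiducials for the groups of order 1, 2, 3 and for the elementary
abelian group of order 8. -/

namespace Pool.Agent.helper391_PS

open Finset
open scoped ComplexConjugate Classical

variable {A : Type} [AddCommGroup A] [Fintype A]

/-- unnormalised vector -/
noncomputable def vv (A : Type) [AddCommGroup A] (c : ℂ) (x : A) : ℂ := 1 + if x = 0 then c else 0

theorem ov_vv (c : ℂ) (a : A) (χ : AddChar A ℂ) :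
    ov (vv A c) a χ = (if χ = 0 then (Fintype.card A : ℂ) else 0) + c + conj c * χ (-a) +
      (if a = 0 then c * conj c else 0) := by
  unfold ov vv
  have h1 : ∀ x : A, (1 + if x = 0 then c else 0) * conj (1 + if x + a = 0 then c else 0) * χ x =
      χ x + (if x = 0 then c else 0) + (if x = -a then conj c * χ (-a) else 0) +
        (if x = 0 then (if a = 0 then c * conj c else 0) else 0) := by
    intro x
    by_cases hx : x = 0
    · subst hx
      rw [if_pos rfl, if_pos rfl, zero_add, AddChar.map_zero_eq_one, mul_one]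
      by_cases ha : a = 0
      · subst ha
        simp
        ring
      · rw [if_neg ha, if_neg ha, if_neg (by
          intro hc
          apply ha
          rw [← neg_neg a, ← hc, neg_zero])]
        simp
    · rw [if_neg hx, if_neg hx]
      by_cases ha : x = -a
      · rw [if_pos ha, if_pos (by rw [ha]; simp), ha]
        simp
        ring
      · rw [if_neg ha, if_neg (fun hc => ha (eq_neg_of_add_eq_zero_left hc))]
        simp
  rw [Finset.sum_congr rfl fun x _ => h1 x]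
  simp only [Finset.sum_add_distrib]
  rw [AddChar.sum_eq_ite]
  simp

theorem exist_of (c : ℂ) (N : ℝ) (hN0 : 0 < N)
    (hN : N = (Fintype.card A : ℝ) + 2 * c.re + ‖c‖ ^ 2)
    (H1 : ∀ χ : AddChar A ℂ, χ ≠ 0 →
      (2 * c.re + ‖c‖ ^ 2) ^ 2 * ((Fintype.card A : ℝ) + 1) = N ^ 2)
    (H2 : ∀ a : A, a ≠ 0 → ((Fintype.card A : ℝ) + 2 * c.re) ^ 2 * ((Fintype.card A : ℝ) + 1) =
      N ^ 2)
    (H3 : ∀ (a : A) (χ : AddChar A ℂ), a ≠ 0 → χ ≠ 0 →
      ‖c + conj c * χ (-a)‖ ^ 2 * ((Fintype.card A : ℝ) + 1) = N ^ 2) :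
    ∃ ψ : A → ℂ, Fid ψ ∧ Par ψ 1 := by
  have hs : (Real.sqrt N) ^ 2 = N := Real.sq_sqrt hN0.le
  have hs0 : 0 < Real.sqrt N := Real.sqrt_pos.2 hN0
  have hre : c + conj c = ((2 * c.re : ℝ) : ℂ) := Complex.add_conj c
  have hcc : c * conj c = ((‖c‖ ^ 2 : ℝ) : ℂ) := by
    rw [Complex.mul_conj, Complex.normSq_eq_norm_sq]
  have hov : ∀ (a : A) (χ : AddChar A ℂ), ov (fun x => vv A c x / (Real.sqrt N : ℂ)) a χ =
      ov (vv A c) a χ / (N : ℂ) := by
    intro a χ
    unfold ov
    rw [Finset.sum_div]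
    refine Finset.sum_congr rfl fun x _ => ?_
    have h1 : ((Real.sqrt N : ℝ) : ℂ) ^ 2 = N := by exact_mod_cast hs
    rw [map_div₀, Complex.conj_ofReal, ← h1]
    have h2 : ((Real.sqrt N : ℝ) : ℂ) ≠ 0 := by exact_mod_cast hs0.ne'
    field_simp
  have hd1 : (0 : ℝ) < (Fintype.card A : ℝ) + 1 := by positivity
  refine ⟨fun x => vv A c x / (Real.sqrt N : ℂ), ⟨?_, ?_⟩, ?_⟩
  · have h1 : (((∑ x, ‖vv A c x / (Real.sqrt N : ℂ)‖ ^ 2 : ℝ)) : ℂ) =
        ov (fun x => vv A c x / (Real.sqrt N : ℂ)) 0 0 := by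
      unfold ov
      rw [Complex.ofReal_sum]
      refine Finset.sum_congr rfl fun x _ => ?_
      rw [add_zero, AddChar.zero_apply, mul_one, Complex.mul_conj, Complex.normSq_eq_norm_sq]
    rw [hov, ov_vv, if_pos rfl, if_pos rfl, neg_zero, AddChar.map_zero_eq_one, mul_one,
      hcc, add_assoc (Fintype.card A : ℂ), hre] at h1
    have h2 : ∑ x, ‖vv A c x / (Real.sqrt N : ℂ)‖ ^ 2 =
        ((Fintype.card A : ℝ) + 2 * c.re + ‖c‖ ^ 2) / N := by
      have : (((∑ x, ‖vv A c x / (Real.sqrt N : ℂ)‖ ^ 2 : ℝ)) : ℂ) =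
        ((((Fintype.card A : ℝ) + 2 * c.re + ‖c‖ ^ 2) / N : ℝ) : ℂ) := by
        rw [h1]; push_cast; ring
      exact_mod_cast this
    rw [h2, ← hN, div_self hN0.ne']
  · intro a χ hne
    rw [hov, norm_div, Complex.norm_real, Real.norm_eq_abs, abs_of_pos hN0, div_pow, ov_vv,
      div_eq_div_iff (by positivity) hd1.ne', one_mul]
    by_cases ha : a = 0
    · have hχ : χ ≠ 0 := fun hc => hne (by rw [ha, hc])
      rw [if_neg hχ, if_pos ha, ha, neg_zero, AddChar.map_zero_eq_one, mul_one, zero_add, hre,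
        hcc, ← Complex.ofReal_add, Complex.norm_real, Real.norm_eq_abs, sq_abs]
      exact H1 χ hχ
    · rw [if_neg ha, add_zero]
      by_cases hχ : χ = 0
      · rw [if_pos hχ, hχ, AddChar.zero_apply, mul_one, add_assoc, hre]
        have h1 : (Fintype.card A : ℂ) + ((2 * c.re : ℝ) : ℂ) =
            (((Fintype.card A : ℝ) + 2 * c.re : ℝ) : ℂ) := by push_cast; ring
        rw [h1, Complex.norm_real, Real.norm_eq_abs, sq_abs]
        exact H2 a ha
      · rw [if_neg hχ, zero_add]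
        exact H3 a χ ha hχ
  · intro x
    show vv A c (-x) / (Real.sqrt N : ℂ) = 1 * (vv A c x / (Real.sqrt N : ℂ))
    unfold vv
    rw [one_mul]
    simp only [neg_eq_zero]

theorem exist_one (hA : Fintype.card A = 1) : ∃ ψ : A → ℂ, Fid ψ ∧ Par ψ 1 := by
  have hsub : Subsingleton A := (Fintype.card_le_one_iff_subsingleton.1 hA.le)
  refine exist_of 0 1 one_pos (by rw [hA]; simp) ?_ ?_ ?_
  · intro χ hχ
    exfalso
    apply hχ
    ext x
    rw [Subsingleton.elim x 0, AddChar.map_zero_eq_one, AddChar.map_zero_eq_one]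
  · intro a ha
    exact absurd (Subsingleton.elim a 0) ha
  · intro a χ ha
    exact absurd (Subsingleton.elim a 0) ha

theorem char_ne_one {p : ℕ} [Fact p.Prime] (hA : Fintype.card A = p) {a : A} {χ : AddChar A ℂ}
    (ha : a ≠ 0) (hχ : χ ≠ 0) : χ a ≠ 1 := by
  intro hc
  apply hχ
  ext x
  have h1 : AddSubgroup.zmultiples a = ⊤ := by
    apply zmultiples_eq_top_of_prime_card (p := p) _ ha
    rw [Nat.card_eq_fintype_card, hA]
  have h2 : x ∈ AddSubgroup.zmultiples a := by rw [h1]; trivial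
  obtain ⟨n, rfl⟩ := AddSubgroup.mem_zmultiples_iff.1 h2
  rw [AddChar.map_zsmul_eq_zpow, hc, one_zpow, AddChar.zero_apply]

theorem exist_two (hA : Fintype.card A = 2) : ∃ ψ : A → ℂ, Fid ψ ∧ Par ψ 1 := by
  have h3 : Real.sqrt 3 ^ 2 = 3 := Real.sq_sqrt (by norm_num)
  have h30 : 0 < Real.sqrt 3 := Real.sqrt_pos.2 (by norm_num)
  have hn : ‖(⟨(Real.sqrt 3 - 1) / 2, (Real.sqrt 3 + 1) / 2⟩ : ℂ)‖ ^ 2 = 2 := by
    rw [← Complex.normSq_eq_norm_sq, Complex.normSq_apply]
    simp only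
    linear_combination (1 / 2) * h3
  refine exist_of ⟨(Real.sqrt 3 - 1) / 2, (Real.sqrt 3 + 1) / 2⟩ (3 + Real.sqrt 3) (by positivity)
    ?_ ?_ ?_ ?_
  · rw [hn, hA]; push_cast; ring
  · intro χ _
    rw [hn, hA]
    push_cast
    linear_combination 2 * h3
  · intro a _
    rw [hA]
    push_cast
    linear_combination 2 * h3
  · intro a χ ha hχ
    have : Fact (Nat.Prime 2) := ⟨Nat.prime_two⟩
    have h1 : χ a ≠ 1 := char_ne_one hA ha hχ
    have h2 : χ a * χ a = 1 := by
      rw [← AddChar.map_add_eq_mul, ← two_nsmul, ← hA, card_nsmul_eq_zero,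
        AddChar.map_zero_eq_one]
    have h4 : χ a = -1 := (mul_self_eq_one_iff.1 h2).resolve_left h1
    have h5 : χ (-a) = -1 := by
      rw [AddChar.map_neg_eq_inv, h4]; norm_num
    rw [h5, ← Complex.normSq_eq_norm_sq, Complex.normSq_apply, hA]
    simp only [Complex.add_re, Complex.mul_re, Complex.conj_re, Complex.conj_im, Complex.neg_re,
      Complex.neg_im, Complex.one_re, Complex.one_im, Complex.add_im, Complex.mul_im]
    push_cast
    linear_combination 2 * h3

theorem exist_three (hA : Fintype.card A = 3) : ∃ ψ : A → ℂ, Fid ψ ∧ Par ψ 1 := by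
  refine exist_of (-1) 2 (by norm_num) ?_ ?_ ?_ ?_
  · rw [hA]; simp; norm_num
  · intro χ _
    rw [hA]; simp; norm_num
  · intro a _
    rw [hA]; simp; norm_num
  · intro a χ ha hχ
    have : Fact (Nat.Prime 3) := ⟨Nat.prime_three⟩
    have h1 : χ (-a) ≠ 1 := char_ne_one hA (neg_ne_zero.2 ha) hχ
    have h2 : χ (-a) ^ 3 = 1 := by
      rw [← AddChar.map_nsmul_eq_pow, ← hA, card_nsmul_eq_zero, AddChar.map_zero_eq_one]
    have h3 : (χ (-a) - 1) * (χ (-a) ^ 2 + χ (-a) + 1) = 0 := by linear_combination h2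
    have h4 := (mul_eq_zero.1 h3).resolve_left (sub_ne_zero.2 h1)
    have h5 : (-1 : ℂ) + conj (-1 : ℂ) * χ (-a) = χ (-a) ^ 2 := by
      rw [map_neg, map_one]
      linear_combination -h4
    rw [h5, norm_pow, AddChar.norm_apply, hA]
    norm_num

theorem exist_eight (hA : Fintype.card A = 8) (h2 : ∀ x : A, x + x = 0) :
    ∃ ψ : A → ℂ, Fid ψ ∧ Par ψ 1 := by
  have hn : ‖(⟨-2, 2⟩ : ℂ)‖ ^ 2 = 8 := by
    rw [← Complex.normSq_eq_norm_sq, Complex.normSq_apply]
    norm_num
  refine exist_of ⟨-2, 2⟩ 12 (by norm_num) ?_ ?_ ?_ ?_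
  · rw [hn, hA]; norm_num
  · intro χ _
    rw [hn, hA]; norm_num
  · intro a _
    rw [hA]; norm_num
  · intro a χ _ _
    have h1 : χ (-a) * χ (-a) = 1 := by
      rw [← AddChar.map_add_eq_mul, h2, AddChar.map_zero_eq_one]
    rcases mul_self_eq_one_iff.1 h1 with h3 | h3
    · rw [h3, ← Complex.normSq_eq_norm_sq, Complex.normSq_apply, hA]
      simp only [Complex.add_re, Complex.mul_re, Complex.conj_re, Complex.conj_im, Complex.neg_re,
        Complex.neg_im, Complex.one_re, Complex.one_im, Complex.add_im, Complex.mul_im]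
      norm_num
    · rw [h3, ← Complex.normSq_eq_norm_sq, Complex.normSq_apply, hA]
      simp only [Complex.add_re, Complex.mul_re, Complex.conj_re, Complex.conj_im, Complex.neg_re,
        Complex.neg_im, Complex.one_re, Complex.one_im, Complex.add_im, Complex.mul_im]
      norm_num

end Pool.Agent.helper391_PS
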