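import Mathlib

set_option autoImplicit false

/-! Integer relations between roots of unity are preserved by taking powers with an exponent prime
to their orders; and two small lemmas on integrality. -/

namespace Pool.Agent.helper391_PS

open Finset Polynomial

theorem galois {ι : Type} (s : Finset ι) (n : ι → ℤ) (z : ι → ℂ) (N u : ℕ) (hN : 0 < N)
    (hu : Nat.Coprime u N) (hz : ∀ i ∈ s, z i ^ N = 1)
    (h : ∑ i ∈ s, (n i : ℂ) * z i = 0) : ∑ i ∈ s, (n i : ℂ) * z i ^ u = 0 := by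
  classical
  have hne : NeZero N := ⟨hN.ne'⟩
  set ζ : ℂ := Complex.exp (2 * Real.pi * Complex.I / N) with hζdef
  have hζ : IsPrimitiveRoot ζ N := Complex.isPrimitiveRoot_exp N hN.ne'
  have hex : ∀ i, ∃ e : ℕ, i ∈ s → ζ ^ e = z i := by
    intro i
    by_cases hi : i ∈ s
    · obtain ⟨e, -, he⟩ := hζ.eq_pow_of_pow_eq_one (hz i hi)
      exact ⟨e, fun _ => he⟩
    · exact ⟨0, fun h => absurd h hi⟩
  choose e he using hex
  set P : ℤ[X] := ∑ i ∈ s, C (n i) * X ^ e i with hP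
  have hint : IsIntegral ℤ ζ := hζ.isIntegral hN
  have h0 : aeval ζ P = 0 := by
    rw [hP, map_sum, ← h]
    refine Finset.sum_congr rfl fun i hi => ?_
    rw [map_mul, aeval_C, map_pow, aeval_X, he i hi]
    simp
  have hdvd : minpoly ℤ ζ ∣ P := minpoly.isIntegrallyClosed_dvd hint h0
  rw [hζ.minpoly_eq_pow_coprime hu] at hdvd
  have h1 : aeval (ζ ^ u) P = 0 := by
    obtain ⟨Q, hQ⟩ := hdvd
    rw [hQ, map_mul, minpoly.aeval, zero_mul]
  rw [hP, map_sum] at h1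
  rw [← h1]
  refine Finset.sum_congr rfl fun i hi => ?_
  rw [map_mul, aeval_C, map_pow, aeval_X, ← he i hi, ← pow_mul, ← pow_mul, mul_comm (e i) u]
  simp

/-- twice an algebraic integer is not an odd integer -/
theorem two_dvd_of {z : ℂ} (hz : IsIntegral ℤ z) {b : ℤ} (h : (b : ℂ) = 2 * z) : 2 ∣ b := by
  have h1 : z = algebraMap ℚ ℂ ((b : ℚ) / 2) := by
    rw [map_div₀]
    simp only [eq_ratCast, Rat.cast_intCast, Rat.cast_ofNat]
    rw [h]
    field_simp
  rw [h1] at hz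
  have h2 : IsIntegral ℤ ((b : ℚ) / 2) :=
    (isIntegral_algebraMap_iff (algebraMap ℚ ℂ).injective).1 hz
  obtain ⟨y, hy⟩ := IsIntegrallyClosed.isIntegral_iff.1 h2
  refine ⟨y, ?_⟩
  have h3 : (b : ℚ) = 2 * y := by
    have : (y : ℚ) = b / 2 := hy
    rw [this]; ring
  exact_mod_cast h3

theorem isSquare_of_mul_sq {a : ℕ} {z k : ℤ} (hz : z ≠ 0) (h : (a : ℤ) * z ^ 2 = k ^ 2) :
    ∃ m : ℕ, m ^ 2 = a := by
  have h1 : z ^ 2 ∣ k ^ 2 := ⟨a, by rw [← h]; ring⟩
  have h2 : z ∣ k := (Int.pow_dvd_pow_iff (by norm_num)).1 h1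
  obtain ⟨j, rfl⟩ := h2
  have h3 : (a : ℤ) = j ^ 2 := by
    have h4 : z ^ 2 * ((a : ℤ) - j ^ 2) = 0 := by linear_combination h
    rcases mul_eq_zero.1 h4 with h5 | h5
    · exact absurd (pow_eq_zero_iff (by norm_num) |>.1 h5) hz
    · linarith
  refine ⟨j.natAbs, ?_⟩
  have : ((j.natAbs ^ 2 : ℕ) : ℤ) = (a : ℤ) := by
    rw [h3]; push_cast; exact sq_abs j
  exact_mod_cast this

end Pool.Agent.helper391_PS
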