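import Mathlib
import Pool.Agent.helper391_PS.Basic
import Pool.Agent.helper391_PS.Galois

set_option autoImplicit false

/-! Invariance of the overlaps under certain multiplications. -/

namespace Pool.Agent.helper391_PS

open Finset
open scoped ComplexConjugate Classical

variable {A : Type} [AddCommGroup A] [Fintype A]

/-- integer part of the scaled overlap -/
noncomputable def nn (m : ℕ) (a : A) (χ : AddChar A ℂ) : ℤ :=
  if (a, χ) = ((0 : A), (0 : AddChar A ℂ)) then (m : ℤ) else 1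

/-- the phase of the overlap -/
noncomputable def W (m : ℕ) (ψ : A → ℂ) (a : A) (χ : AddChar A ℂ) : ℂ :=
  if (a, χ) = ((0 : A), (0 : AddChar A ℂ)) then 1 else (m : ℂ) * ov ψ a χ

theorem nn_W {ψ : A → ℂ} (h : Fid ψ) (m : ℕ) (a : A) (χ : AddChar A ℂ) :
    (m : ℂ) * ov ψ a χ = nn m a χ * W m ψ a χ := by
  unfold nn W
  by_cases hq : (a, χ) = ((0 : A), (0 : AddChar A ℂ))
  · rw [if_pos hq, if_pos hq]
    obtain ⟨rfl, rfl⟩ := Prod.mk.inj hq
    rw [ov_zero h]
    push_cast; rfl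
  · rw [if_neg hq, if_neg hq]
    push_cast; ring

theorem W_sq {ψ : A → ℂ} (h : Fid ψ) {l : ℂ} (hp : Par ψ l) {m : ℕ}
    (hm : m ^ 2 = Fintype.card A + 1) (a : A) (χ : AddChar A ℂ) :
    W m ψ a χ ^ 2 = χ (-a) := by
  have key : W m ψ a χ ^ 2 * χ a = 1 := by
    unfold W
    by_cases hq : (a, χ) = ((0 : A), (0 : AddChar A ℂ))
    · rw [if_pos hq]
      obtain ⟨rfl, rfl⟩ := Prod.mk.inj hq
      simp
    · rw [if_neg hq]
      have h1 := ov_sq h hp a χ hq
      have h2 : (m : ℂ) ^ 2 = (Fintype.card A : ℂ) + 1 := by exact_mod_cast hm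
      rw [mul_pow, h2]
      linear_combination h1
  have h3 : χ a * χ (-a) = 1 := by
    rw [← AddChar.map_add_eq_mul, add_neg_cancel, AddChar.map_zero_eq_one]
  calc W m ψ a χ ^ 2 = W m ψ a χ ^ 2 * (χ a * χ (-a)) := by rw [h3, mul_one]
    _ = (W m ψ a χ ^ 2 * χ a) * χ (-a) := by ring
    _ = χ (-a) := by rw [key, one_mul]

theorem char_pow_card (χ : AddChar A ℂ) (x : A) : χ x ^ Fintype.card A = 1 := by
  rw [← AddChar.map_nsmul_eq_pow, card_nsmul_eq_zero, AddChar.map_zero_eq_one]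

theorem W_pow {ψ : A → ℂ} (h : Fid ψ) {l : ℂ} (hp : Par ψ l) {m : ℕ}
    (hm : m ^ 2 = Fintype.card A + 1) (t : ℕ) (a : A) (χ : AddChar A ℂ) :
    W m ψ a χ ^ (1 + 2 * t) = W m ψ a χ * χ (-(t • a)) := by
  rw [pow_add, pow_one, pow_mul, W_sq h hp hm, ← AddChar.map_nsmul_eq_pow, smul_neg]

theorem star' {ψ : A → ℂ} (h : Fid ψ) {l : ℂ} (hp : Par ψ l) (m : ℕ) (a : A)
    (χ : AddChar A ℂ) :
    l * (Fintype.card A : ℂ) * (nn m a χ * W m ψ a χ) =
      ∑ x, ∑ η : AddChar A ℂ, (nn m (x + x + a) η : ℂ) * (W m ψ (x + x + a) η * η x * χ x) := by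
  have h1 := star hp a χ
  rw [← nn_W h]
  calc l * (Fintype.card A : ℂ) * ((m : ℂ) * ov ψ a χ) =
      (m : ℂ) * (l * (Fintype.card A : ℂ) * ov ψ a χ) := by ring
    _ = _ := by
      rw [h1, Finset.mul_sum]
      refine Finset.sum_congr rfl fun x _ => ?_
      rw [Finset.mul_sum]
      refine Finset.sum_congr rfl fun η _ => ?_
      have h2 := nn_W h m (x + x + a) η
      linear_combination (η x * χ x) * h2

theorem star_pow {ψ : A → ℂ} (h : Fid ψ) {l : ℂ} (hp : Par ψ l) {m : ℕ}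
    (hm : m ^ 2 = Fintype.card A + 1) (u : ℕ) (hu : Nat.Coprime u (2 * Fintype.card A))
    (a : A) (χ : AddChar A ℂ) :
    l * (Fintype.card A : ℂ) * (nn m a χ * W m ψ a χ ^ u) =
      ∑ x, ∑ η : AddChar A ℂ,
        (nn m (x + x + a) η : ℂ) * (W m ψ (x + x + a) η * η x * χ x) ^ u := by
  have hd : 0 < Fintype.card A := Fintype.card_pos
  obtain ⟨l', hl'⟩ : ∃ l' : ℤ, l = l' := by
    rcases par_sq h hp with h1 | h1
    · exact ⟨1, by rw [h1]; simp⟩
    · exact ⟨-1, by rw [h1]; simp⟩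
  have hWN : ∀ (b : A) (η : AddChar A ℂ), W m ψ b η ^ (2 * Fintype.card A) = 1 := by
    intro b η
    rw [pow_mul, W_sq h hp hm, char_pow_card]
  have hcN : ∀ (x : A) (η : AddChar A ℂ), η x ^ (2 * Fintype.card A) = 1 := by
    intro x η
    rw [mul_comm, pow_mul, char_pow_card, one_pow]
  have h1 := star' h hp m a χ
  have key := galois (ι := Option (A × AddChar A ℂ)) Finset.univ
    (fun o => Option.casesOn o (-(l' * (Fintype.card A : ℤ) * nn m a χ))
      (fun q => nn m (q.1 + q.1 + a) q.2))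
    (fun o => Option.casesOn o (W m ψ a χ)
      (fun q => W m ψ (q.1 + q.1 + a) q.2 * q.2 q.1 * χ q.1))
    (2 * Fintype.card A) u (by positivity) hu
    (by
      intro o _
      cases o with
      | none => exact hWN a χ
      | some q =>
        show (W m ψ (q.1 + q.1 + a) q.2 * q.2 q.1 * χ q.1) ^ (2 * Fintype.card A) = 1
        rw [mul_pow, mul_pow, hWN, hcN, hcN, one_mul, one_mul])
    (by
      rw [Fintype.sum_option, Fintype.sum_prod_type]
      simp only
      rw [← h1, hl']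
      push_cast
      ring)
  rw [Fintype.sum_option, Fintype.sum_prod_type] at key
  simp only at key
  rw [hl']
  push_cast at key
  linear_combination (-1 : ℂ) * key

theorem ov_inv {ψ : A → ℂ} (h : Fid ψ) {l : ℂ} (hp : Par ψ l) {m : ℕ}
    (hm : m ^ 2 = Fintype.card A + 1) (t : ℕ)
    (hu : Nat.Coprime (1 + 2 * t) (2 * Fintype.card A))
    (hd : Fintype.card A ∣ t * (2 + 2 * t)) (a : A) (χ : AddChar A ℂ) :
    ov ψ ((1 + 2 * t) • a) ((1 + 2 * t) • χ) = ov ψ a χ := by
  have hd0 : (Fintype.card A : ℂ) ≠ 0 := by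
    have : 0 < Fintype.card A := Fintype.card_pos
    exact_mod_cast this.ne'
  have hm0 : (m : ℂ) ≠ 0 := by
    intro hc
    have : m = 0 := by exact_mod_cast hc
    subst this
    simp at hm
  have hl0 : l ≠ 0 := by
    rcases par_sq h hp with h1 | h1 <;> rw [h1] <;> norm_num
  have h1 := star_pow h hp hm (1 + 2 * t) hu a χ
  have h2 := star' h hp m ((1 + 2 * t) • a) ((1 + 2 * t) • χ)
  rw [W_pow h hp hm] at h1
  -- transform the right hand side of h1
  have h3 : ∑ x, ∑ η : AddChar A ℂ,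
        (nn m (x + x + a) η : ℂ) * (W m ψ (x + x + a) η * η x * χ x) ^ (1 + 2 * t) =
      χ ((1 + 2 * t) • (t • a)) * ∑ x, ∑ η : AddChar A ℂ,
        (nn m (x + x + (1 + 2 * t) • a) η : ℂ) *
          (W m ψ (x + x + (1 + 2 * t) • a) η * η x * ((1 + 2 * t) • χ) x) := by
    rw [← Equiv.sum_comp (Equiv.addRight (t • a)), Finset.mul_sum]
    refine Finset.sum_congr rfl fun x _ => ?_
    rw [Finset.mul_sum]
    refine Finset.sum_congr rfl fun η _ => ?_
    simp only [Equiv.coe_addRight]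
    have e1 : x + t • a + (x + t • a) + a = x + x + (1 + 2 * t) • a := by
      rw [add_smul, one_smul, mul_smul, two_smul]
      abel
    rw [e1, mul_pow, mul_pow, W_pow h hp hm]
    have e2 : η (x + t • a) ^ (1 + 2 * t) =
        η x * η (t • (x + x + (1 + 2 * t) • a)) := by
      rw [← AddChar.map_nsmul_eq_pow, ← AddChar.map_add_eq_mul]
      congr 1
      simp only [add_smul, smul_add, one_smul, mul_smul, two_smul]
      abel
    have e3 : χ (x + t • a) ^ (1 + 2 * t) =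
        χ ((1 + 2 * t) • (t • a)) * ((1 + 2 * t) • χ) x := by
      rw [← AddChar.map_nsmul_eq_pow, smul_add, AddChar.map_add_eq_mul, AddChar.nsmul_apply,
        AddChar.map_nsmul_eq_pow χ (1 + 2 * t) x, mul_comm]
    rw [e2, e3]
    have e4 : η (-(t • (x + x + (1 + 2 * t) • a))) * η (t • (x + x + (1 + 2 * t) • a)) = 1 := by
      rw [← AddChar.map_add_eq_mul, neg_add_cancel, AddChar.map_zero_eq_one]
    linear_combination ((nn m (x + x + (1 + 2 * t) • a) η : ℂ) *
      W m ψ (x + x + (1 + 2 * t) • a) η * η x * χ ((1 + 2 * t) • (t • a)) *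
      ((1 + 2 * t) • χ) x) * e4
  rw [h3, ← h2] at h1
  have h4 : χ (-(t • a)) * χ (t • a) = 1 := by
    rw [← AddChar.map_add_eq_mul, neg_add_cancel, AddChar.map_zero_eq_one]
  have h5 : χ ((1 + 2 * t) • (t • a)) * χ (t • a) = 1 := by
    rw [← AddChar.map_add_eq_mul]
    have : (1 + 2 * t) • (t • a) + t • a = (t * (2 + 2 * t)) • a := by
      rw [← mul_smul, ← add_smul]
      congr 1
      ring
    rw [this]
    obtain ⟨q, hq⟩ := hd
    rw [hq, mul_comm, mul_smul, card_nsmul_eq_zero, smul_zero, AddChar.map_zero_eq_one]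
  have h6 : l * (Fintype.card A : ℂ) * (nn m a χ * W m ψ a χ) =
      l * (Fintype.card A : ℂ) * (nn m ((1 + 2 * t) • a) ((1 + 2 * t) • χ) *
        W m ψ ((1 + 2 * t) • a) ((1 + 2 * t) • χ)) := by
    linear_combination χ (t • a) * h1 - l * (Fintype.card A : ℂ) * (nn m a χ * W m ψ a χ) * h4 +
      l * (Fintype.card A : ℂ) * (nn m ((1 + 2 * t) • a) ((1 + 2 * t) • χ) *
        W m ψ ((1 + 2 * t) • a) ((1 + 2 * t) • χ)) * h5
  have h7 := mul_left_cancel₀ (mul_ne_zero hl0 hd0) h6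
  rw [← nn_W h, ← nn_W h] at h7
  exact (mul_left_cancel₀ hm0 h7).symm

end Pool.Agent.helper391_PS
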