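import Mathlib
import Pool.Agent.helper391_PS.Inv

set_option autoImplicit false

/-! Partial parity, and a contradiction from flat sign functions on groups of odd order. -/

namespace Pool.Agent.helper391_PS

open Finset
open scoped ComplexConjugate Classical

section
variable {A : Type} [AddCommGroup A] [Fintype A]

theorem nsmul_char (u : ℕ) (χ : AddChar A ℂ) (x : A) : (u • χ) x = χ (u • x) := by
  rw [AddChar.nsmul_apply, AddChar.map_nsmul_eq_pow]

theorem partial_par {ψ : A → ℂ} (h : Fid ψ) (u : ℕ) (hu2 : ∀ x : A, u • (u • x) = x)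
    (hinv : ∀ (a : A) (χ : AddChar A ℂ), ov ψ (u • a) (u • χ) = ov ψ a χ) :
    ∃ μ : ℂ, (μ = 1 ∨ μ = -1) ∧ ∀ x, ψ (u • x) = μ * ψ x := by
  have hd0 : (Fintype.card A : ℂ) ≠ 0 := by
    have : 0 < Fintype.card A := Fintype.card_pos
    exact_mod_cast this.ne'
  have huχ : ∀ χ : AddChar A ℂ, u • (u • χ) = χ := by
    intro χ
    ext x
    rw [nsmul_char, nsmul_char, hu2]
  have hf : ∀ a x, ψ (u • x) * conj (ψ (u • x + u • a)) = ψ x * conj (ψ (x + a)) := by
    intro a x
    have h1 := inv ψ (u • a) (u • x)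
    have h2 := inv ψ a x
    have h3 : ∑ χ : AddChar A ℂ, ov ψ (u • a) χ * χ (-(u • x)) =
        ∑ χ : AddChar A ℂ, ov ψ a χ * χ (-x) := by
      let e : AddChar A ℂ ≃ AddChar A ℂ :=
        ⟨fun χ => u • χ, fun χ => u • χ, fun χ => huχ χ, fun χ => huχ χ⟩
      rw [← Equiv.sum_comp e]
      refine Finset.sum_congr rfl fun χ _ => ?_
      show ov ψ (u • a) (u • χ) * (u • χ) (-(u • x)) = _
      rw [hinv, nsmul_char, smul_neg, hu2]
    exact mul_left_cancel₀ hd0 (h1.trans (h3.trans h2.symm))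
  obtain ⟨y, hy⟩ := exists_ne h
  have h0 : ψ (u • y) * conj (ψ (u • y)) = ψ y * conj (ψ y) := by
    have := hf 0 y
    simpa using this
  have hy2 : conj (ψ (u • y)) ≠ 0 := by
    intro hc
    rw [hc, mul_zero] at h0
    have : ψ y * conj (ψ y) ≠ 0 := mul_ne_zero hy (by simpa using hy)
    exact this h0.symm
  refine ⟨conj (ψ y) / conj (ψ (u • y)), ?_, ?_⟩
  · have key : ∀ x, ψ (u • x) = conj (ψ y) / conj (ψ (u • y)) * ψ x := by
      intro x
      have := hf (y - x) x
      rw [← smul_add, show x + (y - x) = y by abel] at this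
      field_simp
      linear_combination this
    have h1 := key y
    have h2 := key (u • y)
    rw [hu2] at h2
    set μ := conj (ψ y) / conj (ψ (u • y)) with hμ
    have h3 : μ * μ * ψ y = 1 * ψ y := by
      rw [mul_assoc, ← h1, ← h2, one_mul]
    exact mul_self_eq_one_iff.1 (mul_right_cancel₀ hy h3)
  · intro x
    have := hf (y - x) x
    rw [← smul_add, show x + (y - x) = y by abel] at this
    field_simp
    linear_combination this

end

section
variable {B : Type} [AddCommGroup B] [Fintype B]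

theorem flat (hodd : Odd (Fintype.card B)) (hB : 1 < Fintype.card B) (K : B → B → ℂ) (μ κ : ℂ)
    (hμ : μ = 1 ∨ μ = -1) (hκ : κ ≠ 0) (hpar : ∀ x y, K (-x) y = μ * K x y)
    (hsq : ∀ (a : B) (χ : AddChar B ℂ), (∑ x, K x (x + a) * χ x) ^ 2 * χ a = κ) : False := by
  -- Fourier inversion
  have hinv : ∀ x a : B, (Fintype.card B : ℂ) * K x (x + a) =
      ∑ χ : AddChar B ℂ, (∑ y, K y (y + a) * χ y) * χ (-x) := by
    intro x a
    have h1 : ∀ χ : AddChar B ℂ, (∑ y, K y (y + a) * χ y) * χ (-x) =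
        ∑ y, K y (y + a) * χ (y - x) := by
      intro χ
      rw [Finset.sum_mul]
      refine Finset.sum_congr rfl fun y _ => ?_
      rw [mul_assoc, ← AddChar.map_add_eq_mul, sub_eq_add_neg]
    rw [Finset.sum_congr rfl fun χ _ => h1 χ, Finset.sum_comm]
    have h2 : ∀ y, ∑ χ : AddChar B ℂ, K y (y + a) * χ (y - x) =
        if y = x then (Fintype.card B : ℂ) * K x (x + a) else 0 := by
      intro y
      rw [← Finset.mul_sum, AddChar.sum_apply_eq_ite]
      by_cases hy : y = x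
      · subst hy
        simp [mul_comm]
      · rw [if_neg (by rwa [sub_eq_zero]), if_neg hy, mul_zero]
    rw [Finset.sum_congr rfl fun y _ => h2 y]
    simp
  set g : B → AddChar B ℂ → ℂ := fun a χ => ∑ x, K x (x + a) * χ x with hg
  set k0 := g 0 0 with hk0
  have hk0sq : k0 ^ 2 = κ := by
    have := hsq 0 0
    simpa [hk0, hg] using this
  have hk0ne : k0 ≠ 0 := by
    intro hc
    rw [hc] at hk0sq
    exact hκ (by rw [← hk0sq]; ring)
  -- a nontrivial character
  obtain ⟨b0, hb0⟩ : ∃ b : B, b ≠ 0 := by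
    have := Fintype.one_lt_card_iff_nontrivial.1 hB
    exact _root_.exists_ne (0 : B)
  obtain ⟨η, hη⟩ := (AddChar.exists_apply_ne_zero (a := b0)).2 hb0
  have hη0 : η ≠ 0 := by
    rintro rfl
    exact hη rfl
  have hsum0 : ∑ x, η x = 0 := (AddChar.sum_eq_zero_iff_ne_zero).2 hη0
  -- signs
  have hsgn : ∀ (x : B) (χ : AddChar B ℂ), ∃ e : ℕ, g (x + x) χ * χ x = k0 * (1 - 2 * e) := by
    intro x χ
    have h1 : (g (x + x) χ * χ x) ^ 2 = k0 ^ 2 := by
      rw [hk0sq, ← hsq (x + x) χ, mul_pow, ← AddChar.map_nsmul_eq_pow, two_nsmul]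
    rcases sq_eq_sq_iff_eq_or_eq_neg.1 h1 with h2 | h2
    · exact ⟨0, by rw [h2]; simp⟩
    · exact ⟨1, by rw [h2]; push_cast; ring⟩
  choose e he using hsgn
  have hs : ∃ s : ℤ, (s = 1 ∨ s = -1) ∧ μ * g 0 η = k0 * s := by
    have h1 : (g 0 η) ^ 2 = k0 ^ 2 := by
      have := hsq 0 η
      rw [hk0sq, ← this, AddChar.map_zero_eq_one, mul_one]
    rcases sq_eq_sq_iff_eq_or_eq_neg.1 h1 with h2 | h2 <;> rcases hμ with h3 | h3
    · exact ⟨1, Or.inl rfl, by rw [h2, h3]; simp⟩
    · exact ⟨-1, Or.inr rfl, by rw [h2, h3]; simp⟩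
    · exact ⟨-1, Or.inr rfl, by rw [h2, h3]; simp⟩
    · exact ⟨1, Or.inl rfl, by rw [h2, h3]; simp⟩
  obtain ⟨s, hs1, hs2⟩ := hs
  have hmain : (Fintype.card B : ℂ) * (μ * g 0 η) =
      ∑ x, (∑ χ : AddChar B ℂ, k0 * (1 - 2 * (e x χ : ℂ))) * η x := by
    rw [hg]
    simp only [add_zero]
    rw [Finset.mul_sum, Finset.mul_sum]
    refine Finset.sum_congr rfl fun x _ => ?_
    have h1 := hinv (-x) (x + x)
    rw [show -x + (x + x) = x by abel, hpar, neg_neg] at h1
    have h2 : ∑ χ : AddChar B ℂ, k0 * (1 - 2 * (e x χ : ℂ)) =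
        ∑ χ : AddChar B ℂ, (∑ y, K y (y + (x + x)) * χ y) * χ x :=
      Finset.sum_congr rfl fun χ _ => (he x χ).symm
    rw [h2, ← h1]
    ring
  have hz : ((s * (Fintype.card B : ℤ) : ℤ) : ℂ) =
      2 * (-∑ x, ((∑ χ : AddChar B ℂ, (e x χ : ℤ) : ℤ) : ℂ) * η x) := by
    rw [hs2] at hmain
    have h1 : ∀ x, (∑ χ : AddChar B ℂ, k0 * (1 - 2 * (e x χ : ℂ))) * η x =
        k0 * ((Fintype.card B : ℂ) * η x) +
          k0 * (2 * (-(((∑ χ : AddChar B ℂ, (e x χ : ℤ) : ℤ) : ℂ) * η x))) := by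
      intro x
      rw [← Finset.mul_sum, Finset.sum_sub_distrib, ← Finset.mul_sum]
      have h2 : ∑ _χ : AddChar B ℂ, (1 : ℂ) = Fintype.card B := by
        rw [Finset.sum_const, Finset.card_univ, AddChar.card_eq, nsmul_eq_mul, mul_one]
      rw [h2]
      push_cast
      ring
    rw [Finset.sum_congr rfl fun x _ => h1 x, Finset.sum_add_distrib, ← Finset.mul_sum,
      ← Finset.mul_sum, hsum0, ← Finset.mul_sum, ← Finset.mul_sum, Finset.sum_neg_distrib] at hmain
    apply mul_left_cancel₀ hk0ne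
    push_cast at hmain ⊢
    linear_combination hmain
  have hint : IsIntegral ℤ (-∑ x, ((∑ χ : AddChar B ℂ, (e x χ : ℤ) : ℤ) : ℂ) * η x) := by
    apply IsIntegral.neg
    apply IsIntegral.sum
    intro x _
    apply IsIntegral.mul
    · exact isIntegral_algebraMap (R := ℤ) (A := ℂ)
        (x := (∑ χ : AddChar B ℂ, (e x χ : ℤ) : ℤ))
    · apply IsIntegral.of_pow (n := Fintype.card B) Fintype.card_pos
      rw [char_pow_card]
      exact isIntegral_one
  have h2 := two_dvd_of hint hz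
  obtain ⟨r, hr⟩ := hodd
  rcases hs1 with h | h <;> rw [h, hr] at h2 <;> omega

end

end Pool.Agent.helper391_PS
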