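import Mathlib
import Pool.Agent.helper391_PS.Part

set_option autoImplicit false

/-! The product case. -/

namespace Pool.Agent.helper391_PS

open Finset
open scoped ComplexConjugate Classical

theorem prod_case {C B : Type} [AddCommGroup C] [Fintype C] [AddCommGroup B] [Fintype B]
    (hC : 1 < Fintype.card C) (hB : 1 < Fintype.card B) (hodd : Odd (Fintype.card B))
    (hcop : Nat.Coprime (Fintype.card C) (Fintype.card B)) {m : ℕ}
    (hm : m ^ 2 = Fintype.card C * Fintype.card B + 1) {ψ : C × B → ℂ} (h : Fid ψ) {l : ℂ}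
    (hp : Par ψ l) : False := by
  obtain ⟨t, ht1, ht2⟩ := Nat.chineseRemainder hcop 0 (Fintype.card B - 1)
  have hcard : Fintype.card (C × B) = Fintype.card C * Fintype.card B := Fintype.card_prod C B
  have htc : Fintype.card C ∣ t := (Nat.modEq_zero_iff_dvd).1 ht1
  have htb : Fintype.card B ∣ t + 1 := by
    have h1 : t + 1 ≡ Fintype.card B - 1 + 1 [MOD Fintype.card B] := Nat.ModEq.add_right 1 ht2
    rw [show Fintype.card B - 1 + 1 = Fintype.card B by omega] at h1
    exact (Nat.modEq_zero_iff_dvd).1 (h1.trans (by simp [Nat.ModEq]))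
  have hu : Nat.Coprime (1 + 2 * t) (2 * Fintype.card (C × B)) := by
    rw [hcard]
    apply Nat.Coprime.mul_right
    · exact Nat.coprime_two_right.2 ⟨t, by ring⟩
    · apply Nat.Coprime.mul_right
      · obtain ⟨r, hr⟩ := htc
        rw [hr, show 1 + 2 * (Fintype.card C * r) = 1 + Fintype.card C * (2 * r) by ring]
        simp
      · obtain ⟨r, hr⟩ := htb
        have h1 : (1 + 2 * t) + 1 = Fintype.card B * (2 * r) := by
          rw [show Fintype.card B * (2 * r) = 2 * (Fintype.card B * r) by ring, ← hr]; ring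
        have h2 : Nat.gcd (1 + 2 * t) (Fintype.card B) ∣ 1 := by
          have h3 := Nat.gcd_dvd_left (1 + 2 * t) (Fintype.card B)
          have h4 := Nat.gcd_dvd_right (1 + 2 * t) (Fintype.card B)
          have h5 : Nat.gcd (1 + 2 * t) (Fintype.card B) ∣ (1 + 2 * t) + 1 := by
            rw [h1]; exact Dvd.dvd.mul_right h4 _
          exact (Nat.dvd_add_right h3).1 h5
        exact Nat.dvd_one.1 h2
  have hd : Fintype.card (C × B) ∣ t * (2 + 2 * t) := by
    rw [hcard]
    have h1 : Fintype.card C * Fintype.card B ∣ t * (t + 1) := Nat.mul_dvd_mul htc htb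
    rw [show t * (2 + 2 * t) = t * (t + 1) * 2 by ring]
    exact Dvd.dvd.mul_right h1 2
  have hmm : m ^ 2 = Fintype.card (C × B) + 1 := by rw [hcard, hm]
  have hx1 : ∀ x : C, (1 + 2 * t) • x = x := by
    intro x
    obtain ⟨r, hr⟩ := htc
    rw [add_smul, one_smul, hr, show 2 * (Fintype.card C * r) = Fintype.card C * (2 * r) by ring,
      mul_smul, card_nsmul_eq_zero, add_zero]
  have hx2 : ∀ x : B, (1 + 2 * t) • x = -x := by
    intro x
    obtain ⟨r, hr⟩ := htb
    have h1 : (1 + 2 * t) • x + x = 0 := by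
      have : (1 + 2 * t) • x + x = (1 + 2 * t + 1) • x := by rw [add_smul _ 1, one_smul]
      rw [this, show 1 + 2 * t + 1 = 2 * (t + 1) by ring, hr,
        show 2 * (Fintype.card B * r) = Fintype.card B * (2 * r) by ring, mul_smul,
        card_nsmul_eq_zero]
    exact eq_neg_of_add_eq_zero_left h1
  obtain ⟨μ, hμ, hμ2⟩ := partial_par h (1 + 2 * t)
    (by
      rintro ⟨x, y⟩
      rw [Prod.smul_mk, Prod.smul_mk, hx1, hx1, hx2, hx2, neg_neg])
    (fun a χ => ov_inv h hp hmm t hu hd a χ)
  have hpar : ∀ (x : C) (y : B), ψ (x, -y) = μ * ψ (x, y) := by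
    intro x y
    have := hμ2 (x, y)
    rwa [Prod.smul_mk, hx1, hx2] at this
  obtain ⟨a1, ha1⟩ : ∃ a : C, a ≠ 0 := by
    have := Fintype.one_lt_card_iff_nontrivial.1 hC
    exact _root_.exists_ne (0 : C)
  have hne : ((Fintype.card (C × B) : ℂ) + 1) ≠ 0 := by
    have : ((Fintype.card (C × B) : ℝ) + 1) ≠ 0 := by positivity
    exact_mod_cast this
  refine flat hodd hB (fun x y => ∑ z : C, ψ (z, x) * conj (ψ (z + a1, y))) μ
    (1 / ((Fintype.card (C × B) : ℂ) + 1)) hμ (one_div_ne_zero hne) ?_ ?_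
  · intro x y
    rw [Finset.mul_sum]
    refine Finset.sum_congr rfl fun z _ => ?_
    rw [hpar]; ring
  · intro a χ
    have h1 := ov_sq h hp (a1, a) (χ.compAddMonoidHom (AddMonoidHom.snd C B))
      (by
        intro hc
        exact ha1 (congrArg (fun q => q.1.1) hc))
    have h2 : ov ψ (a1, a) (χ.compAddMonoidHom (AddMonoidHom.snd C B)) =
        ∑ x, (∑ z : C, ψ (z, x) * conj (ψ (z + a1, x + a))) * χ x := by
      unfold ov
      rw [Fintype.sum_prod_type_right]
      refine Finset.sum_congr rfl fun x _ => ?_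
      rw [Finset.sum_mul]
      refine Finset.sum_congr rfl fun z _ => ?_
      simp [AddChar.compAddMonoidHom_apply]
    rw [h2] at h1
    have h3 : (χ.compAddMonoidHom (AddMonoidHom.snd C B)) (a1, a) = χ a := by
      simp [AddChar.compAddMonoidHom_apply]
    rw [h3] at h1
    rw [eq_div_iff hne]
    exact h1

end Pool.Agent.helper391_PS
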