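import Mathlib
import Pool.Agent.helper391_PS.Prd

set_option autoImplicit false

/-! Transport along isomorphisms, and the decomposition of a finite abelian group. -/

namespace Pool.Agent.helper391_PS

open Finset
open scoped ComplexConjugate Classical

theorem ov_trans {A A' : Type} [AddCommGroup A] [Fintype A] [AddCommGroup A'] [Fintype A']
    (e : A ≃+ A') (ψ : A → ℂ) (a : A') (χ : AddChar A' ℂ) :
    ov (fun y => ψ (e.symm y)) a χ =
      ov ψ (e.symm a) (χ.compAddMonoidHom (e : A →+ A')) := by
  unfold ov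
  rw [← Equiv.sum_comp e.toEquiv]
  refine Finset.sum_congr rfl fun x _ => ?_
  simp [AddChar.compAddMonoidHom_apply]

theorem fid_trans {A A' : Type} [AddCommGroup A] [Fintype A] [AddCommGroup A'] [Fintype A']
    (e : A ≃+ A') {ψ : A → ℂ} (h : Fid ψ) : Fid (fun y => ψ (e.symm y)) := by
  have hcard : Fintype.card A' = Fintype.card A := Fintype.card_congr e.symm.toEquiv
  constructor
  · rw [← h.unit, ← Equiv.sum_comp e.toEquiv]
    refine Finset.sum_congr rfl fun x _ => ?_
    simp
  · intro a χ hne
    rw [ov_trans, hcard]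
    apply h.ang
    intro hc
    apply hne
    obtain ⟨h1, h2⟩ := Prod.mk.inj hc
    have h3 : a = 0 := by
      have := congrArg e h1
      simpa using this
    have h4 : χ = 0 := by
      ext y
      have := DFunLike.congr_fun h2 (e.symm y)
      simpa [AddChar.compAddMonoidHom_apply] using this
    rw [h3, h4]

theorem par_trans {A A' : Type} [AddCommGroup A] [Fintype A] [AddCommGroup A'] [Fintype A']
    (e : A ≃+ A') {ψ : A → ℂ} {l : ℂ} (h : Par ψ l) : Par (fun y => ψ (e.symm y)) l := by
  intro y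
  show ψ (e.symm (-y)) = l * ψ (e.symm y)
  rw [map_neg, h]

theorem decomp (A : Type) [AddCommGroup A] [Fintype A] (c b : ℕ) (hcop : Nat.Coprime c b)
    (hcard : Fintype.card A = c * b) :
    ∃ (C B : Type) (_ : AddCommGroup C) (_ : Fintype C) (_ : AddCommGroup B) (_ : Fintype B),
      Fintype.card C = c ∧ Fintype.card B = b ∧ Nonempty (A ≃+ C × B) := by
  let p : Submodule ℤ A := LinearMap.ker (LinearMap.lsmul ℤ A (c : ℤ))
  let q : Submodule ℤ A := LinearMap.ker (LinearMap.lsmul ℤ A (b : ℤ))
  have hpm : ∀ x : A, x ∈ p ↔ (c : ℤ) • x = 0 := fun x => by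
    simp [p, LinearMap.mem_ker]
  have hqm : ∀ x : A, x ∈ q ↔ (b : ℤ) • x = 0 := fun x => by
    simp [q, LinearMap.mem_ker]
  obtain ⟨u, v, huv⟩ : ∃ u v : ℤ, u * c + v * b = 1 :=
    (Nat.isCoprime_iff_coprime.2 hcop)
  have hann : ∀ x : A, ((c : ℤ) * b) • x = 0 := by
    intro x
    have h1 : (Fintype.card A) • x = 0 := card_nsmul_eq_zero
    rw [hcard] at h1
    rw [← h1, ← natCast_zsmul]
    push_cast; rfl
  have hcompl : IsCompl p q := by
    constructor
    · rw [Submodule.disjoint_def]
      intro x hx hy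
      rw [hpm] at hx
      rw [hqm] at hy
      calc x = (u * c + v * b) • x := by rw [huv, one_smul]
        _ = 0 := by rw [add_smul, mul_smul, mul_smul, hx, hy, smul_zero, smul_zero, add_zero]
    · rw [codisjoint_iff, eq_top_iff]
      intro x _
      rw [Submodule.mem_sup]
      refine ⟨(v * b) • x, ?_, (u * c) • x, ?_, ?_⟩
      · rw [hpm, ← mul_smul, show (c : ℤ) * (v * b) = v * (c * b) by ring, mul_smul, hann,
          smul_zero]
      · rw [hqm, ← mul_smul, show (b : ℤ) * (u * c) = u * (c * b) by ring, mul_smul, hann,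
          smul_zero]
      · rw [← add_smul, add_comm, huv, one_smul]
  let e : (p × q) ≃ₗ[ℤ] A := Submodule.prodEquivOfIsCompl p q hcompl
  have hprod : Fintype.card p * Fintype.card q = c * b := by
    rw [← hcard, ← Fintype.card_prod]
    exact Fintype.card_congr e.toEquiv
  have aux : ∀ (r : Submodule ℤ A) (n k : ℕ), Nat.Coprime n k → (∀ x ∈ r, (n : ℤ) • x = 0) →
      Nat.Coprime (Fintype.card r) k := by
    intro r n k hnk hr
    refine Nat.coprime_of_dvd fun s hs hs1 hs2 => ?_
    have : Fact s.Prime := ⟨hs⟩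
    obtain ⟨x, hx⟩ := exists_prime_addOrderOf_dvd_card s hs1
    have h1 : (n : ℤ) • (x : A) = 0 := hr x x.2
    have h2 : n • x = 0 := by
      apply Subtype.ext
      have : ((n • x : r) : A) = n • (x : A) := by simp
      rw [this, ← natCast_zsmul, h1]; rfl
    have h3 : s ∣ n := by
      rw [← hx]
      exact addOrderOf_dvd_of_nsmul_eq_zero h2
    have h4 := Nat.dvd_gcd h3 hs2
    rw [hnk] at h4
    exact hs.one_lt.ne' (Nat.dvd_one.1 h4)
  have hpb : Nat.Coprime (Fintype.card p) b := aux p c b hcop fun x hx => (hpm x).1 hx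
  have hqc : Nat.Coprime (Fintype.card q) c := aux q b c hcop.symm fun x hx => (hqm x).1 hx
  have h1 : Fintype.card p ∣ c := hpb.dvd_of_dvd_mul_right (by rw [← hprod]; exact Dvd.intro _ rfl)
  have h2 : Fintype.card q ∣ b :=
    hqc.dvd_of_dvd_mul_left (by rw [← hprod]; exact Dvd.intro_left _ rfl)
  have hA : 0 < c * b := by rw [← hcard]; exact Fintype.card_pos
  have hc0 : 0 < c := Nat.pos_of_mul_pos_right hA
  have hb0 : 0 < b := Nat.pos_of_mul_pos_left hA
  have h3 := Nat.le_of_dvd hc0 h1
  have h4 := Nat.le_of_dvd hb0 h2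
  have h5 : Fintype.card p = c := by
    by_contra hne
    have h6 : Fintype.card p < c := lt_of_le_of_ne h3 hne
    have : Fintype.card p * Fintype.card q < c * b :=
      lt_of_lt_of_le (Nat.mul_lt_mul_of_pos_right h6 Fintype.card_pos)
        (Nat.mul_le_mul_left c h4)
    omega
  have h6 : Fintype.card q = b := by
    rw [h5] at hprod
    exact Nat.eq_of_mul_eq_mul_left hc0 hprod
  exact ⟨p, q, inferInstance, inferInstance, inferInstance, inferInstance, h5, h6,
    ⟨e.symm.toAddEquiv⟩⟩

end Pool.Agent.helper391_PS
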