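import Mathlib
import Pool.Agent.helper391_PS.Trans

set_option autoImplicit false

/-! The order plus one is a perfect square. -/

namespace Pool.Agent.helper391_PS

open Finset
open scoped ComplexConjugate Classical

variable {A : Type} [AddCommGroup A] [Fintype A]

/-- the modulus of the overlaps -/
noncomputable def rr (A : Type) [Fintype A] : ℝ := 1 / Real.sqrt ((Fintype.card A : ℝ) + 1)

theorem rr_pos (A : Type) [Fintype A] : 0 < rr A := by
  unfold rr; positivity

theorem rr_sq (A : Type) [Fintype A] : rr A ^ 2 * ((Fintype.card A : ℝ) + 1) = 1 := by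
  unfold rr
  rw [div_pow, one_pow, Real.sq_sqrt (by positivity)]
  field_simp

theorem rr_sqC (A : Type) [Fintype A] : (rr A : ℂ) ^ 2 * ((Fintype.card A : ℂ) + 1) = 1 := by
  have := rr_sq A
  exact_mod_cast this

theorem sgn_of {z : ℂ} (h : z ^ 2 * ((Fintype.card A : ℂ) + 1) = 1) :
    z = rr A ∨ z = -(rr A : ℂ) := by
  have hne : ((Fintype.card A : ℂ) + 1) ≠ 0 := by
    intro hc
    rw [hc] at h; simp at h
  have h1 : z ^ 2 = (rr A : ℂ) ^ 2 := mul_right_cancel₀ hne (h.trans (rr_sqC A).symm)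
  exact sq_eq_sq_iff_eq_or_eq_neg.1 h1

/-- case of a group which is not an elementary abelian two-group -/
theorem square_one {ψ : A → ℂ} (h : Fid ψ) {l : ℂ} (hp : Par ψ l)
    (hA : ∃ x : A, x + x ≠ 0) : ∃ m : ℕ, m ^ 2 = Fintype.card A + 1 := by
  have h1 := star hp (0 : A) (0 : AddChar A ℂ)
  rw [ov_zero h, mul_one] at h1
  simp only [add_zero, AddChar.zero_apply, mul_one] at h1
  have hterm : ∀ (x : A) (η : AddChar A ℂ), ∃ k : ℤ,
      ov ψ (x + x) η * η x = (if x + x = 0 ∧ η = 0 then 1 else 0) + (k : ℂ) * rr A := by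
    intro x η
    by_cases hq : x + x = 0 ∧ η = 0
    · refine ⟨0, ?_⟩
      rw [if_pos hq, hq.1, hq.2, ov_zero h]
      simp
    · rw [if_neg hq]
      have h2 := ov_sq h hp (x + x) η (fun hc => hq ⟨congrArg Prod.fst hc, congrArg Prod.snd hc⟩)
      have h3 : (ov ψ (x + x) η * η x) ^ 2 * ((Fintype.card A : ℂ) + 1) = 1 := by
        rw [mul_pow, ← AddChar.map_nsmul_eq_pow, two_nsmul]
        exact h2
      rcases sgn_of h3 with h4 | h4
      · exact ⟨1, by rw [h4]; push_cast; ring⟩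
      · exact ⟨-1, by rw [h4]; push_cast; ring⟩
  choose k hk using hterm
  obtain ⟨K, hK⟩ : ∃ K : ℤ, ∑ x : A, ∑ η : AddChar A ℂ, (k x η : ℂ) * rr A = (K : ℂ) * rr A := by
    refine ⟨∑ x : A, ∑ η : AddChar A ℂ, k x η, ?_⟩
    push_cast
    rw [Finset.sum_mul]
    exact Finset.sum_congr rfl fun x _ => by rw [Finset.sum_mul]
  set N0 : ℕ := (Finset.univ.filter fun x : A => x + x = 0).card with hN0
  have hsum : ∑ x : A, ∑ η : AddChar A ℂ, (if x + x = 0 ∧ η = 0 then (1 : ℂ) else 0) = N0 := by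
    have h2 : ∀ x : A, ∑ η : AddChar A ℂ, (if x + x = 0 ∧ η = 0 then (1 : ℂ) else 0) =
        if x + x = 0 then 1 else 0 := by
      intro x
      by_cases hx : x + x = 0
      · simp [hx]
      · simp [hx]
    rw [Finset.sum_congr rfl fun x _ => h2 x, Finset.sum_boole]
  have h2 : l * (Fintype.card A : ℂ) = N0 + K * rr A := by
    rw [h1, Finset.sum_congr rfl fun x _ => Finset.sum_congr rfl fun η _ => hk x η]
    simp only [Finset.sum_add_distrib]
    rw [hsum, hK]
  have hN0lt : N0 < Fintype.card A := by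
    obtain ⟨x, hx⟩ := hA
    rw [hN0, ← Finset.card_univ]
    apply Finset.card_lt_card
    rw [Finset.ssubset_univ_iff]
    intro hc
    have : x ∈ Finset.univ.filter fun x : A => x + x = 0 := by rw [hc]; exact Finset.mem_univ _
    exact hx (Finset.mem_filter.1 this).2
  obtain ⟨z, hz0, hz⟩ : ∃ z : ℤ, z ≠ 0 ∧ l * (Fintype.card A : ℂ) - N0 = z := by
    rcases par_sq h hp with h3 | h3
    · refine ⟨(Fintype.card A : ℤ) - N0, by omega, by rw [h3]; push_cast; ring⟩
    · refine ⟨-(Fintype.card A : ℤ) - N0, by omega, by rw [h3]; push_cast; ring⟩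
  have h3 : (z : ℂ) = K * rr A := by rw [← hz, h2]; ring
  apply isSquare_of_mul_sq hz0 (k := K)
  have h4 : (((Fintype.card A + 1 : ℕ) : ℤ) : ℂ) * (z : ℂ) ^ 2 = (K : ℂ) ^ 2 := by
    rw [h3]
    push_cast
    linear_combination (K : ℂ) ^ 2 * rr_sqC A
  exact_mod_cast h4

theorem triple {ψ : A → ℂ} (h : Fid ψ) (a : A) (χ : AddChar A ℂ) :
    (Fintype.card A : ℂ) * ov ψ a χ =
      ∑ b, ∑ η : AddChar A ℂ, ov ψ b η * (ov ψ (a - b) (χ - η) * (χ - η) (-b)) := by
  have h1 : ∀ x, ψ x * conj (ψ (x + a)) =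
      ∑ b, (ψ x * conj (ψ (x + b))) * (ψ (x + b) * conj (ψ (x + a))) := by
    intro x
    have h2 : ∑ b, ((‖ψ (x + b)‖ ^ 2 : ℝ) : ℂ) = 1 := by
      have h3 := Equiv.sum_comp (Equiv.addLeft x) (fun y => ((‖ψ y‖ ^ 2 : ℝ) : ℂ))
      simp only [Equiv.coe_addLeft] at h3
      rw [h3, ← Complex.ofReal_sum, h.unit, Complex.ofReal_one]
    calc ψ x * conj (ψ (x + a)) = ψ x * conj (ψ (x + a)) * ∑ b, ((‖ψ (x + b)‖ ^ 2 : ℝ) : ℂ) := by
          rw [h2, mul_one]
      _ = _ := by
          rw [Finset.mul_sum]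
          refine Finset.sum_congr rfl fun b _ => ?_
          rw [← Complex.normSq_eq_norm_sq, ← Complex.mul_conj]
          ring
  calc (Fintype.card A : ℂ) * ov ψ a χ
      = ∑ x, ∑ b, ((Fintype.card A : ℂ) * (ψ x * conj (ψ (x + b)))) *
          (ψ (x + b) * conj (ψ (x + a))) * χ x := by
        unfold ov
        rw [Finset.mul_sum]
        refine Finset.sum_congr rfl fun x _ => ?_
        rw [h1 x, Finset.sum_mul, Finset.mul_sum]
        refine Finset.sum_congr rfl fun b _ => ?_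
        ring
    _ = ∑ b, ∑ x, ∑ η : AddChar A ℂ, ov ψ b η * (η (-x) * (ψ (x + b) * conj (ψ (x + a))) * χ x) := by
        rw [Finset.sum_comm]
        refine Finset.sum_congr rfl fun b _ => Finset.sum_congr rfl fun x _ => ?_
        rw [inv ψ b x, Finset.sum_mul, Finset.sum_mul]
        refine Finset.sum_congr rfl fun η _ => ?_
        ring
    _ = _ := by
        refine Finset.sum_congr rfl fun b _ => ?_
        rw [Finset.sum_comm]
        refine Finset.sum_congr rfl fun η _ => ?_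
        rw [← Finset.mul_sum]
        congr 1
        unfold ov
        rw [Finset.sum_mul, ← Equiv.sum_comp (Equiv.addRight b) (fun y =>
          ψ y * conj (ψ (y + (a - b))) * (χ - η) y * (χ - η) (-b))]
        refine Finset.sum_congr rfl fun x _ => ?_
        simp only [Equiv.coe_addRight]
        rw [show x + b + (a - b) = x + a by abel, mul_assoc (ψ (x + b) * conj (ψ (x + a))),
          ← AddChar.map_add_eq_mul, show x + b + -b = x by abel, sub_eq_add_neg χ η,
          AddChar.add_apply, AddChar.neg_apply]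
        ring

/-- case of an elementary abelian two-group -/
theorem square_two {ψ : A → ℂ} (h : Fid ψ) {l : ℂ} (hp : Par ψ l)
    (hA : ∀ x : A, x + x = 0) (hd : 2 < Fintype.card A) : ∃ m : ℕ, m ^ 2 = Fintype.card A + 1 := by
  obtain ⟨b0, hb0⟩ : ∃ b : A, b ≠ 0 := by
    have := Fintype.one_lt_card_iff_nontrivial.1 (by omega : 1 < Fintype.card A)
    exact _root_.exists_ne (0 : A)
  obtain ⟨χ, hχ⟩ := (AddChar.exists_apply_ne_zero (a := b0)).2 hb0
  have hχ0 : χ ≠ 0 := by
    rintro rfl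
    exact hχ rfl
  have hchar : ∀ (η : AddChar A ℂ) (x : A), η x = 1 ∨ η x = -1 := by
    intro η x
    have h1 : η x * η x = 1 := by
      rw [← AddChar.map_add_eq_mul, hA, AddChar.map_zero_eq_one]
    exact mul_self_eq_one_iff.1 h1
  have hneg : ∀ x : A, -x = x := fun x => neg_eq_of_add_eq_zero_left (hA x)
  have h1 := triple h (0 : A) χ
  have hterm : ∀ (b : A) (η : AddChar A ℂ), ∃ p q : ℤ,
      ov ψ b η * (ov ψ (0 - b) (χ - η) * (χ - η) (-b)) =
        (if b = 0 ∧ η = 0 then ov ψ 0 χ else 0) + (if b = 0 ∧ η = χ then ov ψ 0 χ else 0) +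
          (rr A : ℂ) ^ 2 * (p + q * Complex.I) := by
    intro b η
    by_cases hq1 : b = 0 ∧ η = 0
    · refine ⟨0, 0, ?_⟩
      obtain ⟨rfl, rfl⟩ := hq1
      rw [if_pos ⟨rfl, rfl⟩, if_neg (fun hc => hχ0 hc.2.symm), ov_zero h]
      simp
    by_cases hq2 : b = 0 ∧ η = χ
    · refine ⟨0, 0, ?_⟩
      obtain ⟨rfl, rfl⟩ := hq2
      rw [if_neg (fun hc => hχ0 hc.2), if_pos ⟨rfl, rfl⟩, sub_self, sub_self, ov_zero h]
      simp
    rw [if_neg hq1, if_neg hq2]
    have h2 := ov_sq h hp b η (fun hc => hq1 ⟨congrArg Prod.fst hc, congrArg Prod.snd hc⟩)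
    have h3 := ov_sq h hp (0 - b) (χ - η) (fun hc => hq2
      ⟨by simpa using congrArg Prod.fst hc, (sub_eq_zero.1 (congrArg Prod.snd hc)).symm⟩)
    rw [zero_sub, hneg] at h3 ⊢
    set T := ov ψ b η * (ov ψ b (χ - η) * (χ - η) b) with hT
    have hc1 : (χ - η) b * (χ - η) b = 1 := by
      rw [← AddChar.map_add_eq_mul, hA, AddChar.map_zero_eq_one]
    have hc2 : η b * (χ - η) b = χ b := by
      rw [← AddChar.add_apply, add_sub_cancel]
    have hc3 : χ b * χ b = 1 := by
      rw [← AddChar.map_add_eq_mul, hA, AddChar.map_zero_eq_one]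
    have hT2 : T ^ 2 * ((Fintype.card A : ℂ) + 1) ^ 2 = χ b := by
      have e1 : T ^ 2 * ((Fintype.card A : ℂ) + 1) ^ 2 * χ b =
          (ov ψ b η ^ 2 * η b * ((Fintype.card A : ℂ) + 1)) *
            (ov ψ b (χ - η) ^ 2 * (χ - η) b * ((Fintype.card A : ℂ) + 1)) *
              ((χ - η) b * (χ - η) b) := by
        rw [hT, ← hc2]; ring
      rw [h2, h3, hc1] at e1
      calc T ^ 2 * ((Fintype.card A : ℂ) + 1) ^ 2 =
          (T ^ 2 * ((Fintype.card A : ℂ) + 1) ^ 2 * χ b) * χ b := by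
            rw [mul_assoc _ (χ b), hc3, mul_one]
        _ = χ b := by rw [e1]; ring
    have hne : ((Fintype.card A : ℂ) + 1) ≠ 0 := by
      intro hc
      rw [hc] at h2; simp at h2
    have hr : (rr A : ℂ) ^ 2 * ((Fintype.card A : ℂ) + 1) = 1 := rr_sqC A
    rcases hchar χ b with h4 | h4
    · have h5 : (T * ((Fintype.card A : ℂ) + 1)) ^ 2 = 1 := by rw [mul_pow, hT2, h4]
      rcases mul_self_eq_one_iff.1 ((sq _).symm.trans h5) with h6 | h6
      · refine ⟨1, 0, ?_⟩
        apply mul_right_cancel₀ hne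
        rw [h6]; push_cast; linear_combination -hr
      · refine ⟨-1, 0, ?_⟩
        apply mul_right_cancel₀ hne
        rw [h6]; push_cast; linear_combination hr
    · have h5 : (T * ((Fintype.card A : ℂ) + 1)) ^ 2 = Complex.I ^ 2 := by
        rw [mul_pow, hT2, h4, Complex.I_sq]
      rcases sq_eq_sq_iff_eq_or_eq_neg.1 h5 with h6 | h6
      · refine ⟨0, 1, ?_⟩
        apply mul_right_cancel₀ hne
        rw [h6]; push_cast; linear_combination -Complex.I * hr
      · refine ⟨0, -1, ?_⟩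
        apply mul_right_cancel₀ hne
        rw [h6]; push_cast; linear_combination Complex.I * hr
  choose p q hpq using hterm
  have hsum1 : ∑ b : A, ∑ η : AddChar A ℂ, (if b = 0 ∧ η = 0 then ov ψ 0 χ else 0) = ov ψ 0 χ := by
    have : ∀ b : A, ∑ η : AddChar A ℂ, (if b = 0 ∧ η = 0 then ov ψ 0 χ else 0) =
        if b = 0 then ov ψ 0 χ else 0 := by
      intro b
      by_cases hb : b = 0
      · simp [hb]
      · simp [hb]
    rw [Finset.sum_congr rfl fun b _ => this b]
    simp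
  have hsum2 : ∑ b : A, ∑ η : AddChar A ℂ, (if b = 0 ∧ η = χ then ov ψ 0 χ else 0) = ov ψ 0 χ := by
    have : ∀ b : A, ∑ η : AddChar A ℂ, (if b = 0 ∧ η = χ then ov ψ 0 χ else 0) =
        if b = 0 then ov ψ 0 χ else 0 := by
      intro b
      by_cases hb : b = 0
      · simp [hb]
      · simp [hb]
    rw [Finset.sum_congr rfl fun b _ => this b]
    simp
  obtain ⟨P, Q, hPQ⟩ : ∃ P Q : ℤ, ∑ b : A, ∑ η : AddChar A ℂ,
      (rr A : ℂ) ^ 2 * ((p b η : ℂ) + q b η * Complex.I) =
        (rr A : ℂ) ^ 2 * (P + Q * Complex.I) := by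
    refine ⟨∑ b : A, ∑ η : AddChar A ℂ, p b η, ∑ b : A, ∑ η : AddChar A ℂ, q b η, ?_⟩
    push_cast
    rw [Finset.sum_mul, ← Finset.sum_add_distrib, Finset.mul_sum]
    refine Finset.sum_congr rfl fun b _ => ?_
    rw [Finset.sum_mul, ← Finset.sum_add_distrib, Finset.mul_sum]
  rw [Finset.sum_congr rfl fun b _ => Finset.sum_congr rfl fun η _ => hpq b η] at h1
  simp only [Finset.sum_add_distrib] at h1
  rw [hsum1, hsum2, hPQ] at h1
  have h2 := ov_sq h hp (0 : A) χ (fun hc => hχ0 (congrArg Prod.snd hc))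
  rw [AddChar.map_zero_eq_one, mul_one] at h2
  have hrne : (rr A : ℂ) ≠ 0 := by
    have := (rr_pos A).ne'
    exact_mod_cast this
  obtain ⟨s, hs, hs2⟩ : ∃ s : ℤ, s ^ 2 = 1 ∧ ov ψ 0 χ = s * rr A := by
    rcases sgn_of h2 with h3 | h3
    · exact ⟨1, by norm_num, by rw [h3]; simp⟩
    · exact ⟨-1, by norm_num, by rw [h3]; simp⟩
  have h3 : (((Fintype.card A : ℝ) - 2) * s : ℝ) = (rr A * P : ℝ) := by
    have h4 : (((Fintype.card A : ℂ) - 2) * s : ℂ) = rr A * (P + Q * Complex.I) := by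
      rw [hs2] at h1
      apply mul_left_cancel₀ hrne
      linear_combination h1
    have h5 := congrArg Complex.re h4
    simpa using h5
  apply isSquare_of_mul_sq (z := (Fintype.card A : ℤ) - 2) (by omega) (k := P)
  have hs3 : (s : ℝ) ^ 2 = 1 := by exact_mod_cast hs
  have h4 : (((Fintype.card A + 1 : ℕ) : ℤ) : ℝ) * (((Fintype.card A : ℤ) - 2 : ℤ) : ℝ) ^ 2 =
      (P : ℝ) ^ 2 := by
    have h5 := rr_sq A
    have h6 : ((Fintype.card A : ℝ) - 2) ^ 2 = rr A ^ 2 * (P : ℝ) ^ 2 := by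
      calc ((Fintype.card A : ℝ) - 2) ^ 2 = (((Fintype.card A : ℝ) - 2) * s) ^ 2 := by
            rw [mul_pow, hs3, mul_one]
        _ = rr A ^ 2 * (P : ℝ) ^ 2 := by rw [h3]; ring
    push_cast
    rw [h6]
    linear_combination (P : ℝ) ^ 2 * h5
  exact_mod_cast h4

end Pool.Agent.helper391_PS
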