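import Mathlib
import Pool.Agent.helper391_PS.Square

set_option autoImplicit false

/-! Only the orders 1, 2, 3, 8 are possible. -/

namespace Pool.Agent.helper391_PS

open Finset
open scoped ComplexConjugate Classical

theorem split_case {A : Type} [AddCommGroup A] [Fintype A] {ψ : A → ℂ} (h : Fid ψ) {l : ℂ}
    (hp : Par ψ l) {m c b : ℕ} (hc : 1 < c) (hb : 1 < b) (hodd : Odd b) (hcop : Nat.Coprime c b)
    (hcard : Fintype.card A = c * b) (hm : m ^ 2 = Fintype.card A + 1) : False := by
  obtain ⟨C, B, i1, i2, i3, i4, hC, hB, ⟨e⟩⟩ := decomp A c b hcop hcard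
  refine prod_case (C := C) (B := B) (by omega) (by omega) (by rwa [hB]) (by rwa [hC, hB])
    (m := m) (by rw [hm, hcard, hC, hB]) (fid_trans e h) (par_trans e hp)

theorem two_pow_square {k m : ℕ} (h : m ^ 2 = 2 ^ k + 1) (hd : 2 < 2 ^ k) : 2 ^ k = 8 := by
  have hm2 : 2 ≤ m := by
    by_contra hc
    have : m ≤ 1 := by omega
    interval_cases m <;> omega
  obtain ⟨n, rfl⟩ : ∃ n, m = n + 1 := ⟨m - 1, by omega⟩
  have h1 : n * (n + 2) = 2 ^ k := by
    have : (n + 1) ^ 2 = n * (n + 2) + 1 := by ring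
    omega
  obtain ⟨i, -, hi⟩ := (Nat.dvd_prime_pow Nat.prime_two).1 (Dvd.intro _ h1)
  obtain ⟨j, -, hj⟩ := (Nat.dvd_prime_pow Nat.prime_two).1 (Dvd.intro_left _ h1)
  have hij : 2 ^ j = 2 ^ i + 2 := by omega
  have hi1 : i ≤ 1 := by
    by_contra hc
    have h2 : 4 ∣ 2 ^ i := by
      have : (2 : ℕ) ^ 2 ∣ 2 ^ i := pow_dvd_pow 2 (by omega)
      simpa using this
    have h3 : 2 ^ i < 2 ^ j := by omega
    have h4 : i < j := (Nat.pow_lt_pow_iff_right (by norm_num)).1 h3
    have h5 : 4 ∣ 2 ^ j := by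
      have : (2 : ℕ) ^ 2 ∣ 2 ^ j := pow_dvd_pow 2 (by omega)
      simpa using this
    omega
  interval_cases i
  · rw [pow_zero] at hi
    subst hi
    have h6 : j = 0 ∨ 1 ≤ j := by omega
    rcases h6 with rfl | h6
    · norm_num at hj
    · have : 2 ∣ 2 ^ j := dvd_pow_self 2 (by omega)
      omega
  · rw [pow_one] at hi
    subst hi
    omega

/-- the order of the group -/
theorem order_mem {A : Type} [AddCommGroup A] [Fintype A] {ψ : A → ℂ} (h : Fid ψ) {l : ℂ}
    (hp : Par ψ l) :
    Fintype.card A = 1 ∨ Fintype.card A = 2 ∨ Fintype.card A = 3 ∨ Fintype.card A = 8 := by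
  have hpos : 0 < Fintype.card A := Fintype.card_pos
  by_cases hd : Fintype.card A ≤ 2
  · omega
  obtain ⟨m, hm⟩ : ∃ m : ℕ, m ^ 2 = Fintype.card A + 1 := by
    by_cases hA : ∃ x : A, x + x ≠ 0
    · exact square_one h hp hA
    · push Not at hA
      exact square_two h hp hA (by omega)
  rcases Nat.even_or_odd (Fintype.card A) with he | ho
  · obtain ⟨k, b, hb, hkb⟩ := Nat.exists_eq_two_pow_mul_odd (n := Fintype.card A) (by omega)
    have hb0 : 0 < b := hb.pos
    by_cases hb1 : b = 1
    · rw [hb1, mul_one] at hkb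
      rw [hkb] at hm
      have := two_pow_square hm (by omega)
      omega
    · exfalso
      have hk : k ≠ 0 := by
        rintro rfl
        rw [pow_zero, one_mul] at hkb
        rw [hkb] at he
        exact (Nat.not_even_iff_odd.2 hb) he
      refine split_case h hp (c := 2 ^ k) (b := b) (Nat.one_lt_two_pow hk) (by omega) hb ?_ hkb hm
      exact Nat.Coprime.pow_left k (Nat.coprime_two_left.2 hb)
  · by_cases h3 : Fintype.card A = 3
    · omega
    exfalso
    have hme : Even m := by
      by_contra hc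
      rw [Nat.not_even_iff_odd] at hc
      have h1 : Odd (m ^ 2) := hc.pow
      rw [hm] at h1
      obtain ⟨r, hr⟩ := ho
      obtain ⟨s, hs⟩ := h1
      omega
    obtain ⟨r, hr⟩ := hme
    have hr2 : 2 ≤ r := by
      by_contra hc
      have : r ≤ 1 := by omega
      interval_cases r
      · subst hr; omega
      · subst hr; omega
    obtain ⟨n, hn⟩ : ∃ n, m = n + 1 := ⟨m - 1, by omega⟩
    have h1 : Fintype.card A = n * (n + 2) := by
      have : (n + 1) ^ 2 = n * (n + 2) + 1 := by ring
      rw [hn, this] at hm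
      omega
    have hno : Odd n := ⟨r - 1, by omega⟩
    refine split_case h hp (c := n) (b := n + 2) (by omega) (by omega)
      (hno.add_even even_two) ?_ h1 hm
    rw [Nat.coprime_self_add_right]
    exact Nat.coprime_two_right.2 hno

end Pool.Agent.helper391_PS
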