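import Mathlib

set_option autoImplicit false

/-! Real equations for the cyclic group of order eight. -/

namespace Pool.Agent.helper391_PS

theorem pair {X Y c : ℝ} (h1 : (X + Y) ^ 2 = c) (h2 : (X - Y) ^ 2 = c) :
    X * Y = 0 ∧ X ^ 2 + Y ^ 2 = c := by
  constructor
  · linear_combination (1 / 4) * h1 - (1 / 4) * h2
  · linear_combination (1 / 2) * h1 + (1 / 2) * h2

theorem core_one (p0 p1 p2 p3 p4 gr gi zr zi s : ℝ) (hs : s ^ 2 = 2) (hp1 : 0 ≤ p1)
    (hp3 : 0 ≤ p3) (E0 : p0 + p4 + 2 * p1 + 2 * p2 + 2 * p3 = 1)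
    (E1 : (p0 + p4 + 2 * p2 - 2 * p1 - 2 * p3) ^ 2 = 1 / 9) (E3 : (p1 - p3) ^ 2 = 1 / 18)
    (F0 : ((2 * gr + 2 * p2) + 4 * zr) ^ 2 = 1 / 9) (F4 : ((2 * gr + 2 * p2) - 4 * zr) ^ 2 = 1 / 9)
    (F1 : (2 * gi + 2 * s * zi) ^ 2 = 1 / 9) (F3 : (2 * gi - 2 * s * zi) ^ 2 = 1 / 9)
    (hz : zr ^ 2 + zi ^ 2 = p1 * p3)
    (U : (2 * zi + (p3 - p1)) ^ 2 ≤ 1 / 9) (U' : (2 * zi - (p3 - p1)) ^ 2 ≤ 1 / 9) : False := by
  have hP : p1 + p3 = 1 / 6 ∨ p1 + p3 = 1 / 3 := by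
    have h1 : (p1 + p3 - 1 / 6) * (p1 + p3 - 1 / 3) = 0 := by
      have h2 : p0 + p4 + 2 * p2 - 2 * p1 - 2 * p3 = 1 - 4 * (p1 + p3) := by linarith
      rw [h2] at E1
      linear_combination (1 / 16) * E1
    rcases mul_eq_zero.1 h1 with h | h
    · left; linarith
    · right; linarith
  have hpp : 0 ≤ p1 * p3 := mul_nonneg hp1 hp3
  have hP3 : p1 + p3 = 1 / 3 := by
    rcases hP with h | h
    · exfalso
      have : (p1 + p3) ^ 2 = (p1 - p3) ^ 2 + 4 * (p1 * p3) := by ring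
      rw [h, E3] at this
      linarith
    · exact h
  have hpp2 : p1 * p3 = 1 / 72 := by
    have : (p1 + p3) ^ 2 = (p1 - p3) ^ 2 + 4 * (p1 * p3) := by ring
    rw [hP3, E3] at this
    linarith
  obtain ⟨a1, a2⟩ := pair F0 F4
  obtain ⟨b1, b2⟩ := pair F1 F3
  have hs0 : s ≠ 0 := by
    rintro rfl
    norm_num at hs
  have hzi : zi ^ 2 = 1 / 72 := by
    rcases mul_eq_zero.1 b1 with h | h
    · have h3 : gi = 0 := by linarith
      rw [h3] at b2
      have h4 : (2 * (0 : ℝ)) ^ 2 + (2 * s * zi) ^ 2 = 4 * s ^ 2 * zi ^ 2 := by ring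
      rw [h4, hs] at b2
      linarith
    · have h3 : zi = 0 := by
        rcases mul_eq_zero.1 h with h4 | h4
        · exact absurd (by linarith) hs0
        · exact h4
      exfalso
      rw [h3] at hz
      have hzr : zr ^ 2 = 1 / 72 := by rw [← hpp2, ← hz]; ring
      rcases mul_eq_zero.1 a1 with h5 | h5
      · rw [h5] at a2
        have h7 : 16 * zr ^ 2 = 1 / 9 := by linear_combination a2
        linarith
      · have h6 : zr = 0 := by linarith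
        rw [h6] at hzr
        norm_num at hzr
  have h1 : (2 * zi + (p3 - p1)) * (2 * zi - (p3 - p1)) = 0 := by
    have : (2 * zi + (p3 - p1)) * (2 * zi - (p3 - p1)) = 4 * zi ^ 2 - (p1 - p3) ^ 2 := by ring
    rw [this, hzi, E3]; norm_num
  have h2 : (2 * zi + (p3 - p1)) ^ 2 + (2 * zi - (p3 - p1)) ^ 2 = 2 / 9 := by
    have : (2 * zi + (p3 - p1)) ^ 2 + (2 * zi - (p3 - p1)) ^ 2 =
      8 * zi ^ 2 + 2 * (p1 - p3) ^ 2 := by ring
    rw [this, hzi, E3]; norm_num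
  rcases mul_eq_zero.1 h1 with h | h
  · rw [h] at h2
    have h3 : (2 * zi - (p3 - p1)) ^ 2 = 2 / 9 := by linear_combination h2
    linarith
  · rw [h] at h2
    have h3 : (2 * zi + (p3 - p1)) ^ 2 = 2 / 9 := by linear_combination h2
    linarith

theorem core_two (p0 p1 p2 p3 p4 gr gi zr zi s Sr Si Dr Di : ℝ) (hs : s ^ 2 = 2)
    (E0 : p0 + p4 + 2 * p1 + 2 * p2 + 2 * p3 = 1)
    (E1 : (p0 + p4 + 2 * p2 - 2 * p1 - 2 * p3) ^ 2 = 1 / 9) (E3 : p1 = p3)
    (E4 : (p0 - p4) ^ 2 = 1 / 9)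
    (F0 : ((2 * gr + 2 * p2) + 4 * zr) ^ 2 = 1 / 9) (F4 : ((2 * gr + 2 * p2) - 4 * zr) ^ 2 = 1 / 9)
    (F2 : (2 * gr - 2 * p2) ^ 2 = 1 / 9)
    (F1 : (2 * gi + 2 * s * zi) ^ 2 = 1 / 9) (F3 : (2 * gi - 2 * s * zi) ^ 2 = 1 / 9)
    (hz : zr ^ 2 + zi ^ 2 = p1 * p3)
    (H0 : (2 * Sr + (2 * zr + p1 + p3)) ^ 2 = 1 / 9) (H4 : (2 * Sr - (2 * zr + p1 + p3)) ^ 2 = 1 / 9)
    (H2 : (2 * Si + (2 * zr - p1 - p3)) ^ 2 = 1 / 9) (H6 : (2 * Si - (2 * zr - p1 - p3)) ^ 2 = 1 / 9)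
    (H1 : ((2 * zi + (p3 - p1)) - s * (Dr - Di)) ^ 2 = 1 / 9)
    (H3 : ((2 * zi - (p3 - p1)) - s * (Dr + Di)) ^ 2 = 1 / 9)
    (hre : Sr * Dr + Si * Di = (p0 - p4) * p2) (him : Si * Dr - Sr * Di = -2 * gi * p2) :
    False := by
  subst E3
  have hP : p1 = 1 / 12 ∨ p1 = 1 / 6 := by
    have h1 : (p1 - 1 / 12) * (p1 - 1 / 6) = 0 := by
      have h2 : p0 + p4 + 2 * p2 - 2 * p1 - 2 * p1 = 1 - 8 * p1 := by linarith
      rw [h2] at E1
      linear_combination (1 / 64) * E1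
    rcases mul_eq_zero.1 h1 with h | h
    · left; linarith
    · right; linarith
  obtain ⟨a1, a2⟩ := pair F0 F4
  obtain ⟨b1, b2⟩ := pair F1 F3
  have hs0 : s ≠ 0 := by
    rintro rfl
    norm_num at hs
  have hzi : (zi = 0 ∧ gi ^ 2 = 1 / 36) ∨ zi ^ 2 = 1 / 72 := by
    rcases mul_eq_zero.1 b1 with h | h
    · right
      have h3 : gi = 0 := by linarith
      rw [h3] at b2
      have h4 : (2 * (0 : ℝ)) ^ 2 + (2 * s * zi) ^ 2 = 4 * s ^ 2 * zi ^ 2 := by ring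
      rw [h4, hs] at b2
      linarith
    · left
      have h3 : zi = 0 := by
        rcases mul_eq_zero.1 h with h4 | h4
        · exact absurd (by linarith) hs0
        · exact h4
      refine ⟨h3, ?_⟩
      rw [h3] at b2
      linear_combination (1 / 4) * b2
  have hzr : zr ^ 2 = 0 ∨ (zr ^ 2 = 1 / 144 ∧ gr + p2 = 0) := by
    rcases mul_eq_zero.1 a1 with h5 | h5
    · right
      rw [h5] at a2
      constructor
      · linear_combination (1 / 16) * a2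
      · linarith
    · left
      have h6 : zr = 0 := by linarith
      rw [h6]; norm_num
  have hq : p1 * p1 = 1 / 144 ∨ p1 * p1 = 1 / 36 := by
    rcases hP with h | h <;> rw [h]
    · left; norm_num
    · right; norm_num
  have hfin : zi = 0 ∧ gi ^ 2 = 1 / 36 ∧ zr ^ 2 = 1 / 144 ∧ gr + p2 = 0 ∧ p1 = 1 / 12 := by
    rcases hzi with ⟨h1, h2⟩ | h1
    · rcases hzr with h3 | ⟨h3, h4⟩
      · exfalso
        rw [h1, h3] at hz
        rcases hq with h | h <;> rw [h] at hz <;> norm_num at hz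
      · refine ⟨h1, h2, h3, h4, ?_⟩
        rcases hP with h | h
        · exact h
        · exfalso
          rw [h1, h3, h] at hz
          norm_num at hz
    · exfalso
      rcases hzr with h3 | ⟨h3, h4⟩
      · rw [h1, h3] at hz
        rcases hq with h | h <;> rw [h] at hz <;> norm_num at hz
      · rw [h1, h3] at hz
        rcases hq with h | h <;> rw [h] at hz <;> norm_num at hz
  obtain ⟨h1, h2, h3, h4, h5⟩ := hfin
  have hgr : gr = -p2 := by linarith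
  have hp2' : p2 ^ 2 = 1 / 144 := by
    rw [hgr] at F2
    linear_combination (1 / 16) * F2
  subst h1
  subst h5
  have hD : Dr * Di = 0 := by
    have e1 : s ^ 2 * (Dr - Di) ^ 2 = 1 / 9 := by linear_combination H1
    have e2 : s ^ 2 * (Dr + Di) ^ 2 = 1 / 9 := by linear_combination H3
    rw [hs] at e1 e2
    linear_combination (1 / 8) * e2 - (1 / 8) * e1
  have hS : Sr * Si = 0 := by
    obtain ⟨c1, c2⟩ := pair H0 H4
    obtain ⟨d1, d2⟩ := pair H2 H6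
    have h6 : (zr - 1 / 12) * (zr + 1 / 12) = 0 := by linear_combination h3
    rcases mul_eq_zero.1 h6 with h7 | h7
    · have h8 : zr = 1 / 12 := by linarith
      rw [h8] at c1
      have : Sr = 0 := by linarith
      rw [this, zero_mul]
    · have h8 : zr = -(1 / 12) := by linarith
      rw [h8] at d1
      have : Si = 0 := by linarith
      rw [this, mul_zero]
  have h6 : ((p0 - p4) * p2) * (-2 * gi * p2) = 0 := by
    rw [← hre, ← him]
    linear_combination (Dr ^ 2 - Di ^ 2) * hS - (Sr ^ 2 - Si ^ 2) * hD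
  have h7 : (((p0 - p4) * p2) * (-2 * gi * p2)) ^ 2 = 0 := by rw [h6]; norm_num
  have h8 : (((p0 - p4) * p2) * (-2 * gi * p2)) ^ 2 = 4 * (p0 - p4) ^ 2 * gi ^ 2 * (p2 ^ 2) ^ 2 := by
    ring
  rw [h8, E4, h2, hp2'] at h7
  norm_num at h7

end Pool.Agent.helper391_PS
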