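import Mathlib
import Pool.Agent.helper391_PS.Basic
import Pool.Agent.helper391_PS.Real8

set_option autoImplicit false

/-! The cyclic group of order eight has no parity-symmetric fiducial. -/

namespace Pool.Agent.helper391_PS

open Finset
open scoped ComplexConjugate Classical

/-- one half of the square root of two -/
noncomputable def r2 : ℝ := Real.sqrt 2 / 2

theorem r2_sq : r2 ^ 2 = 1 / 2 := by
  unfold r2
  rw [div_pow, Real.sq_sqrt (by norm_num)]; norm_num

/-- primitive eighth root of unity -/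
noncomputable def om : ℂ := ⟨r2, r2⟩

theorem om1 : om ^ 1 = ⟨r2, r2⟩ := by rw [pow_one]; rfl
theorem om2 : om ^ 2 = ⟨0, 1⟩ := by
  have := r2_sq
  rw [sq]
  apply Complex.ext
  · simp [om]
  · simp only [om, Complex.mul_im]; linear_combination 2 * this
theorem om3 : om ^ 3 = ⟨-r2, r2⟩ := by
  rw [pow_succ, om2]
  apply Complex.ext <;> simp [om]
theorem om4 : om ^ 4 = ⟨-1, 0⟩ := by
  rw [show om ^ 4 = om ^ 2 * om ^ 2 by ring, om2]
  apply Complex.ext <;> simp
theorem om5 : om ^ 5 = ⟨-r2, -r2⟩ := by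
  rw [pow_succ, om4]
  apply Complex.ext <;> simp [om]
theorem om6 : om ^ 6 = ⟨0, -1⟩ := by
  rw [show om ^ 6 = om ^ 4 * om ^ 2 by ring, om4, om2]
  apply Complex.ext <;> simp
theorem om7 : om ^ 7 = ⟨r2, -r2⟩ := by
  rw [show om ^ 7 = om ^ 4 * om ^ 3 by ring, om4, om3]
  apply Complex.ext <;> simp
theorem om8 : om ^ 8 = 1 := by
  rw [show om ^ 8 = om ^ 4 * om ^ 4 by ring, om4]
  apply Complex.ext <;> simp

theorem om8' (k : ℕ) : (om ^ k) ^ 8 = 1 := by
  rw [← pow_mul, mul_comm, pow_mul, om8, one_pow]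

theorem eq8 {ψ : ZMod 8 → ℂ} (h : Fid ψ) (a : ZMod 8) (k : ℕ) (hne : a ≠ 0 ∨ om ^ k ≠ 1) :
    ‖ψ 0 * conj (ψ (0 + a)) * om ^ ((k * 0) % 8) + ψ 1 * conj (ψ (1 + a)) * om ^ ((k * 1) % 8) +
      ψ 2 * conj (ψ (2 + a)) * om ^ ((k * 2) % 8) + ψ 3 * conj (ψ (3 + a)) * om ^ ((k * 3) % 8) +
      ψ 4 * conj (ψ (4 + a)) * om ^ ((k * 4) % 8) + ψ 5 * conj (ψ (5 + a)) * om ^ ((k * 5) % 8) +
      ψ 6 * conj (ψ (6 + a)) * om ^ ((k * 6) % 8) +
      ψ 7 * conj (ψ (7 + a)) * om ^ ((k * 7) % 8)‖ ^ 2 = 1 / 9 := by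
  have h1 := h.ang a (AddChar.zmodChar 8 (om8' k)) (by
    intro hc
    obtain ⟨h2, h3⟩ := Prod.mk.inj hc
    rcases hne with h4 | h4
    · exact h4 h2
    · apply h4
      have h5 := DFunLike.congr_fun h3 (1 : ZMod 8)
      rw [AddChar.zmodChar_apply] at h5
      have h6 : (1 : ZMod 8).val = 1 := rfl
      rw [h6, pow_one] at h5
      exact h5)
  have h2 : ov ψ a (AddChar.zmodChar 8 (om8' k)) =
    ψ 0 * conj (ψ (0 + a)) * om ^ ((k * 0) % 8) + ψ 1 * conj (ψ (1 + a)) * om ^ ((k * 1) % 8) +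
      ψ 2 * conj (ψ (2 + a)) * om ^ ((k * 2) % 8) + ψ 3 * conj (ψ (3 + a)) * om ^ ((k * 3) % 8) +
      ψ 4 * conj (ψ (4 + a)) * om ^ ((k * 4) % 8) + ψ 5 * conj (ψ (5 + a)) * om ^ ((k * 5) % 8) +
      ψ 6 * conj (ψ (6 + a)) * om ^ ((k * 6) % 8) +
      ψ 7 * conj (ψ (7 + a)) * om ^ ((k * 7) % 8) := by
    unfold ov
    have h3 : ∀ x : ZMod 8, (AddChar.zmodChar 8 (om8' k)) x = om ^ ((k * x.val) % 8) := by
      intro x
      rw [AddChar.zmodChar_apply, ← pow_mul, pow_eq_pow_mod _ om8]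
    simp only [h3]
    exact Fin.sum_univ_eight (fun x : ZMod 8 => ψ x * conj (ψ (x + a)) *
      om ^ ((k * x.val) % 8))
  rw [← h2, h1]
  norm_num [ZMod.card]

theorem ext_sq {w : ℂ} {X c d : ℝ} (hw : ‖w‖ ^ 2 = 1 / 9) (hre : w.re = c * X)
    (him : w.im = d * X) (hcd : c ^ 2 + d ^ 2 = 1) : X ^ 2 = 1 / 9 := by
  rw [← Complex.normSq_eq_norm_sq, Complex.normSq_apply, hre, him] at hw
  linear_combination hw - X ^ 2 * hcd

theorem om_ne {k : ℕ} (hk : 0 < k) (hk8 : k < 8) : om ^ k ≠ 1 := by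
  have hr : r2 ^ 2 = 1 / 2 := r2_sq
  have hr1 : r2 ≠ 1 := by
    intro hc
    rw [hc] at hr; norm_num at hr
  have hrm : -r2 ≠ 1 := by
    intro hc
    have : r2 = -1 := by linarith
    rw [this] at hr; norm_num at hr
  intro hc
  have h1 := congrArg Complex.re hc
  interval_cases k
  · rw [om1] at h1; exact hr1 h1
  · rw [om2] at h1; norm_num at h1
  · rw [om3] at h1; exact hrm h1
  · rw [om4] at h1; norm_num at h1
  · rw [om5] at h1; exact hrm h1
  · rw [om6] at h1; norm_num at h1
  · rw [om7] at h1; exact hr1 h1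

theorem vals {ψ : ZMod 8 → ℂ} {l : ℂ} (hp : Par ψ l) : ψ 0 = l * ψ 0 ∧ ψ 4 = l * ψ 4 ∧ ψ 7 = l * ψ 1 ∧
    ψ 6 = l * ψ 2 ∧ ψ 5 = l * ψ 3 :=
  ⟨hp 0, hp 4, hp 1, hp 2, hp 3⟩

set_option linter.unusedSimpArgs false

theorem z8_even {ψ : ZMod 8 → ℂ} (h : Fid ψ) (hp : Par ψ 1) : False := by
  obtain ⟨-, -, h7, h6, h5⟩ := vals hp
  rw [one_mul] at h7 h6 h5
  have hr := r2_sq
  have hs : (2 * r2) ^ 2 = 2 := by linear_combination 4 * hr
  have a02 : (0 : ZMod 8) + 2 = 2 := rfl
  have a12 : (1 : ZMod 8) + 2 = 3 := rfl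
  have a22 : (2 : ZMod 8) + 2 = 4 := rfl
  have a32 : (3 : ZMod 8) + 2 = 5 := rfl
  have a42 : (4 : ZMod 8) + 2 = 6 := rfl
  have a52 : (5 : ZMod 8) + 2 = 7 := rfl
  have a62 : (6 : ZMod 8) + 2 = 0 := rfl
  have a72 : (7 : ZMod 8) + 2 = 1 := rfl
  have a04 : (0 : ZMod 8) + 4 = 4 := rfl
  have a14 : (1 : ZMod 8) + 4 = 5 := rfl
  have a24 : (2 : ZMod 8) + 4 = 6 := rfl
  have a34 : (3 : ZMod 8) + 4 = 7 := rfl
  have a44 : (4 : ZMod 8) + 4 = 0 := rfl
  have a54 : (5 : ZMod 8) + 4 = 1 := rfl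
  have a64 : (6 : ZMod 8) + 4 = 2 := rfl
  have a74 : (7 : ZMod 8) + 4 = 3 := rfl
  have hu : ∑ x : ZMod 8, ‖ψ x‖ ^ 2 = 1 := h.unit
  set x0 := (ψ 0).re with hx0
  set x1 := (ψ 1).re with hx1
  set x2 := (ψ 2).re with hx2
  set x3 := (ψ 3).re with hx3
  set x4 := (ψ 4).re with hx4
  set y0 := (ψ 0).im with hy0
  set y1 := (ψ 1).im with hy1
  set y2 := (ψ 2).im with hy2
  set y3 := (ψ 3).im with hy3
  set y4 := (ψ 4).im with hy4
  have E0 : (x0 ^ 2 + y0 ^ 2) + (x4 ^ 2 + y4 ^ 2) + 2 * (x1 ^ 2 + y1 ^ 2) +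
      2 * (x2 ^ 2 + y2 ^ 2) + 2 * (x3 ^ 2 + y3 ^ 2) = 1 := by
    have h1 : ‖ψ 0‖ ^ 2 + ‖ψ 1‖ ^ 2 + ‖ψ 2‖ ^ 2 + ‖ψ 3‖ ^ 2 + ‖ψ 4‖ ^ 2 + ‖ψ 5‖ ^ 2 +
        ‖ψ 6‖ ^ 2 + ‖ψ 7‖ ^ 2 = 1 := by
      rw [← hu]; exact (Fin.sum_univ_eight (fun x : ZMod 8 => ‖ψ x‖ ^ 2)).symm
    rw [h7, h6, h5] at h1
    simp only [← Complex.normSq_eq_norm_sq, Complex.normSq_apply] at h1
    linear_combination h1
  have E1 : ((x0 ^ 2 + y0 ^ 2) + (x4 ^ 2 + y4 ^ 2) + 2 * (x2 ^ 2 + y2 ^ 2) -
      2 * (x1 ^ 2 + y1 ^ 2) - 2 * (x3 ^ 2 + y3 ^ 2)) ^ 2 = 1 / 9 := by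
    refine ext_sq (eq8 h 0 4 (Or.inr (om_ne (by norm_num) (by norm_num)))) (c := 1) (d := 0)
      ?_ ?_ (by norm_num)
    · simp only [add_zero, h7, h6, h5]
      simp only [add_zero, Nat.reduceMul, Nat.reduceMod, mul_zero, zero_mul, Nat.zero_mod,
        Nat.zero_mul, pow_zero, om1, om2, om3, om4, om5, om6, om7, Complex.add_re,
        Complex.mul_re, Complex.add_im, Complex.mul_im, Complex.conj_re, Complex.conj_im,
        Complex.one_re, Complex.one_im, Complex.neg_re, Complex.neg_im, Complex.zero_re,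
        Complex.zero_im, map_neg, map_zero]
      ring
    · simp only [add_zero, h7, h6, h5]
      simp only [add_zero, Nat.reduceMul, Nat.reduceMod, mul_zero, zero_mul, Nat.zero_mod,
        Nat.zero_mul, pow_zero, om1, om2, om3, om4, om5, om6, om7, Complex.add_re,
        Complex.mul_re, Complex.add_im, Complex.mul_im, Complex.conj_re, Complex.conj_im,
        Complex.one_re, Complex.one_im, Complex.neg_re, Complex.neg_im, Complex.zero_re,
        Complex.zero_im, map_neg, map_zero]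
      ring
  have E3 : (((x0 ^ 2 + y0 ^ 2) - (x4 ^ 2 + y4 ^ 2)) + (2 * r2) * ((x1 ^ 2 + y1 ^ 2) -
      (x3 ^ 2 + y3 ^ 2))) ^ 2 = 1 / 9 := by
    refine ext_sq (eq8 h 0 1 (Or.inr (om_ne (by norm_num) (by norm_num)))) (c := 1) (d := 0)
      ?_ ?_ (by norm_num)
    · simp only [add_zero, h7, h6, h5]
      simp only [add_zero, Nat.reduceMul, Nat.reduceMod, mul_zero, zero_mul, Nat.zero_mod,
        Nat.zero_mul, pow_zero, om1, om2, om3, om4, om5, om6, om7, Complex.add_re,
        Complex.mul_re, Complex.add_im, Complex.mul_im, Complex.conj_re, Complex.conj_im,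
        Complex.one_re, Complex.one_im, Complex.neg_re, Complex.neg_im, Complex.zero_re,
        Complex.zero_im, map_neg, map_zero]
      ring
    · simp only [add_zero, h7, h6, h5]
      simp only [add_zero, Nat.reduceMul, Nat.reduceMod, mul_zero, zero_mul, Nat.zero_mod,
        Nat.zero_mul, pow_zero, om1, om2, om3, om4, om5, om6, om7, Complex.add_re,
        Complex.mul_re, Complex.add_im, Complex.mul_im, Complex.conj_re, Complex.conj_im,
        Complex.one_re, Complex.one_im, Complex.neg_re, Complex.neg_im, Complex.zero_re,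
        Complex.zero_im, map_neg, map_zero]
      ring
  have E4 : (((x0 ^ 2 + y0 ^ 2) - (x4 ^ 2 + y4 ^ 2)) - (2 * r2) * ((x1 ^ 2 + y1 ^ 2) -
      (x3 ^ 2 + y3 ^ 2))) ^ 2 = 1 / 9 := by
    refine ext_sq (eq8 h 0 3 (Or.inr (om_ne (by norm_num) (by norm_num)))) (c := 1) (d := 0)
      ?_ ?_ (by norm_num)
    · simp only [add_zero, h7, h6, h5]
      simp only [add_zero, Nat.reduceMul, Nat.reduceMod, mul_zero, zero_mul, Nat.zero_mod,
        Nat.zero_mul, pow_zero, om1, om2, om3, om4, om5, om6, om7, Complex.add_re,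
        Complex.mul_re, Complex.add_im, Complex.mul_im, Complex.conj_re, Complex.conj_im,
        Complex.one_re, Complex.one_im, Complex.neg_re, Complex.neg_im, Complex.zero_re,
        Complex.zero_im, map_neg, map_zero]
      ring
    · simp only [add_zero, h7, h6, h5]
      simp only [add_zero, Nat.reduceMul, Nat.reduceMod, mul_zero, zero_mul, Nat.zero_mod,
        Nat.zero_mul, pow_zero, om1, om2, om3, om4, om5, om6, om7, Complex.add_re,
        Complex.mul_re, Complex.add_im, Complex.mul_im, Complex.conj_re, Complex.conj_im,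
        Complex.one_re, Complex.one_im, Complex.neg_re, Complex.neg_im, Complex.zero_re,
        Complex.zero_im, map_neg, map_zero]
      ring
  have F0 : ((2 * (x0 * x4 + y0 * y4) + 2 * (x2 ^ 2 + y2 ^ 2)) +
      4 * (x1 * x3 + y1 * y3)) ^ 2 = 1 / 9 := by
    refine ext_sq (eq8 h 4 0 (Or.inl (by decide))) (c := 1) (d := 0)
      ?_ ?_ (by norm_num)
    · simp only [a04, a14, a24, a34, a44, a54, a64, a74, h7, h6, h5]
      simp only [add_zero, Nat.reduceMul, Nat.reduceMod, mul_zero, zero_mul, Nat.zero_mod,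
        Nat.zero_mul, pow_zero, om1, om2, om3, om4, om5, om6, om7, Complex.add_re,
        Complex.mul_re, Complex.add_im, Complex.mul_im, Complex.conj_re, Complex.conj_im,
        Complex.one_re, Complex.one_im, Complex.neg_re, Complex.neg_im, Complex.zero_re,
        Complex.zero_im, map_neg, map_zero]
      ring
    · simp only [a04, a14, a24, a34, a44, a54, a64, a74, h7, h6, h5]
      simp only [add_zero, Nat.reduceMul, Nat.reduceMod, mul_zero, zero_mul, Nat.zero_mod,
        Nat.zero_mul, pow_zero, om1, om2, om3, om4, om5, om6, om7, Complex.add_re,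
        Complex.mul_re, Complex.add_im, Complex.mul_im, Complex.conj_re, Complex.conj_im,
        Complex.one_re, Complex.one_im, Complex.neg_re, Complex.neg_im, Complex.zero_re,
        Complex.zero_im, map_neg, map_zero]
      ring
  have F4 : ((2 * (x0 * x4 + y0 * y4) + 2 * (x2 ^ 2 + y2 ^ 2)) -
      4 * (x1 * x3 + y1 * y3)) ^ 2 = 1 / 9 := by
    refine ext_sq (eq8 h 4 4 (Or.inl (by decide))) (c := 1) (d := 0)
      ?_ ?_ (by norm_num)
    · simp only [a04, a14, a24, a34, a44, a54, a64, a74, h7, h6, h5]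
      simp only [add_zero, Nat.reduceMul, Nat.reduceMod, mul_zero, zero_mul, Nat.zero_mod,
        Nat.zero_mul, pow_zero, om1, om2, om3, om4, om5, om6, om7, Complex.add_re,
        Complex.mul_re, Complex.add_im, Complex.mul_im, Complex.conj_re, Complex.conj_im,
        Complex.one_re, Complex.one_im, Complex.neg_re, Complex.neg_im, Complex.zero_re,
        Complex.zero_im, map_neg, map_zero]
      ring
    · simp only [a04, a14, a24, a34, a44, a54, a64, a74, h7, h6, h5]
      simp only [add_zero, Nat.reduceMul, Nat.reduceMod, mul_zero, zero_mul, Nat.zero_mod,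
        Nat.zero_mul, pow_zero, om1, om2, om3, om4, om5, om6, om7, Complex.add_re,
        Complex.mul_re, Complex.add_im, Complex.mul_im, Complex.conj_re, Complex.conj_im,
        Complex.one_re, Complex.one_im, Complex.neg_re, Complex.neg_im, Complex.zero_re,
        Complex.zero_im, map_neg, map_zero]
      ring
  have F2 : (2 * (x0 * x4 + y0 * y4) - 2 * (x2 ^ 2 + y2 ^ 2)) ^ 2 = 1 / 9 := by
    refine ext_sq (eq8 h 4 2 (Or.inl (by decide))) (c := 1) (d := 0)
      ?_ ?_ (by norm_num)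
    · simp only [a04, a14, a24, a34, a44, a54, a64, a74, h7, h6, h5]
      simp only [add_zero, Nat.reduceMul, Nat.reduceMod, mul_zero, zero_mul, Nat.zero_mod,
        Nat.zero_mul, pow_zero, om1, om2, om3, om4, om5, om6, om7, Complex.add_re,
        Complex.mul_re, Complex.add_im, Complex.mul_im, Complex.conj_re, Complex.conj_im,
        Complex.one_re, Complex.one_im, Complex.neg_re, Complex.neg_im, Complex.zero_re,
        Complex.zero_im, map_neg, map_zero]
      ring
    · simp only [a04, a14, a24, a34, a44, a54, a64, a74, h7, h6, h5]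
      simp only [add_zero, Nat.reduceMul, Nat.reduceMod, mul_zero, zero_mul, Nat.zero_mod,
        Nat.zero_mul, pow_zero, om1, om2, om3, om4, om5, om6, om7, Complex.add_re,
        Complex.mul_re, Complex.add_im, Complex.mul_im, Complex.conj_re, Complex.conj_im,
        Complex.one_re, Complex.one_im, Complex.neg_re, Complex.neg_im, Complex.zero_re,
        Complex.zero_im, map_neg, map_zero]
      ring
  have F1 : (2 * (y0 * x4 - x0 * y4) + 2 * (2 * r2) * (y1 * x3 - x1 * y3)) ^ 2 = 1 / 9 := by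
    refine ext_sq (eq8 h 4 1 (Or.inl (by decide))) (c := 0) (d := 1)
      ?_ ?_ (by norm_num)
    · simp only [a04, a14, a24, a34, a44, a54, a64, a74, h7, h6, h5]
      simp only [add_zero, Nat.reduceMul, Nat.reduceMod, mul_zero, zero_mul, Nat.zero_mod,
        Nat.zero_mul, pow_zero, om1, om2, om3, om4, om5, om6, om7, Complex.add_re,
        Complex.mul_re, Complex.add_im, Complex.mul_im, Complex.conj_re, Complex.conj_im,
        Complex.one_re, Complex.one_im, Complex.neg_re, Complex.neg_im, Complex.zero_re,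
        Complex.zero_im, map_neg, map_zero]
      ring
    · simp only [a04, a14, a24, a34, a44, a54, a64, a74, h7, h6, h5]
      simp only [add_zero, Nat.reduceMul, Nat.reduceMod, mul_zero, zero_mul, Nat.zero_mod,
        Nat.zero_mul, pow_zero, om1, om2, om3, om4, om5, om6, om7, Complex.add_re,
        Complex.mul_re, Complex.add_im, Complex.mul_im, Complex.conj_re, Complex.conj_im,
        Complex.one_re, Complex.one_im, Complex.neg_re, Complex.neg_im, Complex.zero_re,
        Complex.zero_im, map_neg, map_zero]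
      ring
  have F3 : (2 * (y0 * x4 - x0 * y4) - 2 * (2 * r2) * (y1 * x3 - x1 * y3)) ^ 2 = 1 / 9 := by
    refine ext_sq (eq8 h 4 3 (Or.inl (by decide))) (c := 0) (d := 1)
      ?_ ?_ (by norm_num)
    · simp only [a04, a14, a24, a34, a44, a54, a64, a74, h7, h6, h5]
      simp only [add_zero, Nat.reduceMul, Nat.reduceMod, mul_zero, zero_mul, Nat.zero_mod,
        Nat.zero_mul, pow_zero, om1, om2, om3, om4, om5, om6, om7, Complex.add_re,
        Complex.mul_re, Complex.add_im, Complex.mul_im, Complex.conj_re, Complex.conj_im,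
        Complex.one_re, Complex.one_im, Complex.neg_re, Complex.neg_im, Complex.zero_re,
        Complex.zero_im, map_neg, map_zero]
      ring
    · simp only [a04, a14, a24, a34, a44, a54, a64, a74, h7, h6, h5]
      simp only [add_zero, Nat.reduceMul, Nat.reduceMod, mul_zero, zero_mul, Nat.zero_mod,
        Nat.zero_mul, pow_zero, om1, om2, om3, om4, om5, om6, om7, Complex.add_re,
        Complex.mul_re, Complex.add_im, Complex.mul_im, Complex.conj_re, Complex.conj_im,
        Complex.one_re, Complex.one_im, Complex.neg_re, Complex.neg_im, Complex.zero_re,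
        Complex.zero_im, map_neg, map_zero]
      ring
  have H0 : (2 * ((x0 + x4) * x2 + (y0 + y4) * y2) +
      (2 * (x1 * x3 + y1 * y3) + (x1 ^ 2 + y1 ^ 2) + (x3 ^ 2 + y3 ^ 2))) ^ 2 = 1 / 9 := by
    refine ext_sq (eq8 h 2 0 (Or.inl (by decide))) (c := 1) (d := 0)
      ?_ ?_ (by norm_num)
    · simp only [a02, a12, a22, a32, a42, a52, a62, a72, h7, h6, h5]
      simp only [add_zero, Nat.reduceMul, Nat.reduceMod, mul_zero, zero_mul, Nat.zero_mod,
        Nat.zero_mul, pow_zero, om1, om2, om3, om4, om5, om6, om7, Complex.add_re,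
        Complex.mul_re, Complex.add_im, Complex.mul_im, Complex.conj_re, Complex.conj_im,
        Complex.one_re, Complex.one_im, Complex.neg_re, Complex.neg_im, Complex.zero_re,
        Complex.zero_im, map_neg, map_zero]
      ring
    · simp only [a02, a12, a22, a32, a42, a52, a62, a72, h7, h6, h5]
      simp only [add_zero, Nat.reduceMul, Nat.reduceMod, mul_zero, zero_mul, Nat.zero_mod,
        Nat.zero_mul, pow_zero, om1, om2, om3, om4, om5, om6, om7, Complex.add_re,
        Complex.mul_re, Complex.add_im, Complex.mul_im, Complex.conj_re, Complex.conj_im,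
        Complex.one_re, Complex.one_im, Complex.neg_re, Complex.neg_im, Complex.zero_re,
        Complex.zero_im, map_neg, map_zero]
      ring
  have H4 : (2 * ((x0 + x4) * x2 + (y0 + y4) * y2) -
      (2 * (x1 * x3 + y1 * y3) + (x1 ^ 2 + y1 ^ 2) + (x3 ^ 2 + y3 ^ 2))) ^ 2 = 1 / 9 := by
    refine ext_sq (eq8 h 2 4 (Or.inl (by decide))) (c := 1) (d := 0)
      ?_ ?_ (by norm_num)
    · simp only [a02, a12, a22, a32, a42, a52, a62, a72, h7, h6, h5]
      simp only [add_zero, Nat.reduceMul, Nat.reduceMod, mul_zero, zero_mul, Nat.zero_mod,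
        Nat.zero_mul, pow_zero, om1, om2, om3, om4, om5, om6, om7, Complex.add_re,
        Complex.mul_re, Complex.add_im, Complex.mul_im, Complex.conj_re, Complex.conj_im,
        Complex.one_re, Complex.one_im, Complex.neg_re, Complex.neg_im, Complex.zero_re,
        Complex.zero_im, map_neg, map_zero]
      ring
    · simp only [a02, a12, a22, a32, a42, a52, a62, a72, h7, h6, h5]
      simp only [add_zero, Nat.reduceMul, Nat.reduceMod, mul_zero, zero_mul, Nat.zero_mod,
        Nat.zero_mul, pow_zero, om1, om2, om3, om4, om5, om6, om7, Complex.add_re,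
        Complex.mul_re, Complex.add_im, Complex.mul_im, Complex.conj_re, Complex.conj_im,
        Complex.one_re, Complex.one_im, Complex.neg_re, Complex.neg_im, Complex.zero_re,
        Complex.zero_im, map_neg, map_zero]
      ring
  have H2 : (2 * ((y0 + y4) * x2 - (x0 + x4) * y2) +
      (2 * (x1 * x3 + y1 * y3) - (x1 ^ 2 + y1 ^ 2) - (x3 ^ 2 + y3 ^ 2))) ^ 2 = 1 / 9 := by
    refine ext_sq (eq8 h 2 2 (Or.inl (by decide))) (c := 0) (d := 1)
      ?_ ?_ (by norm_num)
    · simp only [a02, a12, a22, a32, a42, a52, a62, a72, h7, h6, h5]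
      simp only [add_zero, Nat.reduceMul, Nat.reduceMod, mul_zero, zero_mul, Nat.zero_mod,
        Nat.zero_mul, pow_zero, om1, om2, om3, om4, om5, om6, om7, Complex.add_re,
        Complex.mul_re, Complex.add_im, Complex.mul_im, Complex.conj_re, Complex.conj_im,
        Complex.one_re, Complex.one_im, Complex.neg_re, Complex.neg_im, Complex.zero_re,
        Complex.zero_im, map_neg, map_zero]
      ring
    · simp only [a02, a12, a22, a32, a42, a52, a62, a72, h7, h6, h5]
      simp only [add_zero, Nat.reduceMul, Nat.reduceMod, mul_zero, zero_mul, Nat.zero_mod,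
        Nat.zero_mul, pow_zero, om1, om2, om3, om4, om5, om6, om7, Complex.add_re,
        Complex.mul_re, Complex.add_im, Complex.mul_im, Complex.conj_re, Complex.conj_im,
        Complex.one_re, Complex.one_im, Complex.neg_re, Complex.neg_im, Complex.zero_re,
        Complex.zero_im, map_neg, map_zero]
      ring
  have H6 : (2 * ((y0 + y4) * x2 - (x0 + x4) * y2) -
      (2 * (x1 * x3 + y1 * y3) - (x1 ^ 2 + y1 ^ 2) - (x3 ^ 2 + y3 ^ 2))) ^ 2 = 1 / 9 := by
    refine ext_sq (eq8 h 2 6 (Or.inl (by decide))) (c := 0) (d := 1)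
      ?_ ?_ (by norm_num)
    · simp only [a02, a12, a22, a32, a42, a52, a62, a72, h7, h6, h5]
      simp only [add_zero, Nat.reduceMul, Nat.reduceMod, mul_zero, zero_mul, Nat.zero_mod,
        Nat.zero_mul, pow_zero, om1, om2, om3, om4, om5, om6, om7, Complex.add_re,
        Complex.mul_re, Complex.add_im, Complex.mul_im, Complex.conj_re, Complex.conj_im,
        Complex.one_re, Complex.one_im, Complex.neg_re, Complex.neg_im, Complex.zero_re,
        Complex.zero_im, map_neg, map_zero]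
      ring
    · simp only [a02, a12, a22, a32, a42, a52, a62, a72, h7, h6, h5]
      simp only [add_zero, Nat.reduceMul, Nat.reduceMod, mul_zero, zero_mul, Nat.zero_mod,
        Nat.zero_mul, pow_zero, om1, om2, om3, om4, om5, om6, om7, Complex.add_re,
        Complex.mul_re, Complex.add_im, Complex.mul_im, Complex.conj_re, Complex.conj_im,
        Complex.one_re, Complex.one_im, Complex.neg_re, Complex.neg_im, Complex.zero_re,
        Complex.zero_im, map_neg, map_zero]
      ring
  have H1 : ((2 * (y1 * x3 - x1 * y3) + ((x3 ^ 2 + y3 ^ 2) - (x1 ^ 2 + y1 ^ 2))) -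
      (2 * r2) * (((x0 - x4) * x2 + (y0 - y4) * y2) - ((y0 - y4) * x2 - (x0 - x4) * y2))) ^ 2 = 1 / 9 := by
    refine ext_sq (eq8 h 2 1 (Or.inl (by decide))) (c := -r2) (d := r2)
      ?_ ?_ (by linear_combination 2 * hr)
    · simp only [a02, a12, a22, a32, a42, a52, a62, a72, h7, h6, h5]
      simp only [add_zero, Nat.reduceMul, Nat.reduceMod, mul_zero, zero_mul, Nat.zero_mod,
        Nat.zero_mul, pow_zero, om1, om2, om3, om4, om5, om6, om7, Complex.add_re,
        Complex.mul_re, Complex.add_im, Complex.mul_im, Complex.conj_re, Complex.conj_im,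
        Complex.one_re, Complex.one_im, Complex.neg_re, Complex.neg_im, Complex.zero_re,
        Complex.zero_im, map_neg, map_zero]
      linear_combination (-2 * (((x0 - x4) * x2 + (y0 - y4) * y2) - ((y0 - y4) * x2 - (x0 - x4) * y2))) * hr
    · simp only [a02, a12, a22, a32, a42, a52, a62, a72, h7, h6, h5]
      simp only [add_zero, Nat.reduceMul, Nat.reduceMod, mul_zero, zero_mul, Nat.zero_mod,
        Nat.zero_mul, pow_zero, om1, om2, om3, om4, om5, om6, om7, Complex.add_re,
        Complex.mul_re, Complex.add_im, Complex.mul_im, Complex.conj_re, Complex.conj_im,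
        Complex.one_re, Complex.one_im, Complex.neg_re, Complex.neg_im, Complex.zero_re,
        Complex.zero_im, map_neg, map_zero]
      linear_combination (2 * (((x0 - x4) * x2 + (y0 - y4) * y2) - ((y0 - y4) * x2 - (x0 - x4) * y2))) * hr
  have H3 : ((2 * (y1 * x3 - x1 * y3) - ((x3 ^ 2 + y3 ^ 2) - (x1 ^ 2 + y1 ^ 2))) -
      (2 * r2) * (((x0 - x4) * x2 + (y0 - y4) * y2) + ((y0 - y4) * x2 - (x0 - x4) * y2))) ^ 2 = 1 / 9 := by
    refine ext_sq (eq8 h 2 3 (Or.inl (by decide))) (c := -r2) (d := -r2)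
      ?_ ?_ (by linear_combination 2 * hr)
    · simp only [a02, a12, a22, a32, a42, a52, a62, a72, h7, h6, h5]
      simp only [add_zero, Nat.reduceMul, Nat.reduceMod, mul_zero, zero_mul, Nat.zero_mod,
        Nat.zero_mul, pow_zero, om1, om2, om3, om4, om5, om6, om7, Complex.add_re,
        Complex.mul_re, Complex.add_im, Complex.mul_im, Complex.conj_re, Complex.conj_im,
        Complex.one_re, Complex.one_im, Complex.neg_re, Complex.neg_im, Complex.zero_re,
        Complex.zero_im, map_neg, map_zero]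
      linear_combination (-2 * (((x0 - x4) * x2 + (y0 - y4) * y2) + ((y0 - y4) * x2 - (x0 - x4) * y2))) * hr
    · simp only [a02, a12, a22, a32, a42, a52, a62, a72, h7, h6, h5]
      simp only [add_zero, Nat.reduceMul, Nat.reduceMod, mul_zero, zero_mul, Nat.zero_mod,
        Nat.zero_mul, pow_zero, om1, om2, om3, om4, om5, om6, om7, Complex.add_re,
        Complex.mul_re, Complex.add_im, Complex.mul_im, Complex.conj_re, Complex.conj_im,
        Complex.one_re, Complex.one_im, Complex.neg_re, Complex.neg_im, Complex.zero_re,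
        Complex.zero_im, map_neg, map_zero]
      linear_combination (-2 * (((x0 - x4) * x2 + (y0 - y4) * y2) + ((y0 - y4) * x2 - (x0 - x4) * y2))) * hr
  have H5 : ((2 * (y1 * x3 - x1 * y3) + ((x3 ^ 2 + y3 ^ 2) - (x1 ^ 2 + y1 ^ 2))) +
      (2 * r2) * (((x0 - x4) * x2 + (y0 - y4) * y2) - ((y0 - y4) * x2 - (x0 - x4) * y2))) ^ 2 = 1 / 9 := by
    refine ext_sq (eq8 h 2 5 (Or.inl (by decide))) (c := r2) (d := -r2)
      ?_ ?_ (by linear_combination 2 * hr)
    · simp only [a02, a12, a22, a32, a42, a52, a62, a72, h7, h6, h5]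
      simp only [add_zero, Nat.reduceMul, Nat.reduceMod, mul_zero, zero_mul, Nat.zero_mod,
        Nat.zero_mul, pow_zero, om1, om2, om3, om4, om5, om6, om7, Complex.add_re,
        Complex.mul_re, Complex.add_im, Complex.mul_im, Complex.conj_re, Complex.conj_im,
        Complex.one_re, Complex.one_im, Complex.neg_re, Complex.neg_im, Complex.zero_re,
        Complex.zero_im, map_neg, map_zero]
      linear_combination (-2 * (((x0 - x4) * x2 + (y0 - y4) * y2) - ((y0 - y4) * x2 - (x0 - x4) * y2))) * hr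
    · simp only [a02, a12, a22, a32, a42, a52, a62, a72, h7, h6, h5]
      simp only [add_zero, Nat.reduceMul, Nat.reduceMod, mul_zero, zero_mul, Nat.zero_mod,
        Nat.zero_mul, pow_zero, om1, om2, om3, om4, om5, om6, om7, Complex.add_re,
        Complex.mul_re, Complex.add_im, Complex.mul_im, Complex.conj_re, Complex.conj_im,
        Complex.one_re, Complex.one_im, Complex.neg_re, Complex.neg_im, Complex.zero_re,
        Complex.zero_im, map_neg, map_zero]
      linear_combination (2 * (((x0 - x4) * x2 + (y0 - y4) * y2) - ((y0 - y4) * x2 - (x0 - x4) * y2))) * hr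
  have H7 : ((2 * (y1 * x3 - x1 * y3) - ((x3 ^ 2 + y3 ^ 2) - (x1 ^ 2 + y1 ^ 2))) +
      (2 * r2) * (((x0 - x4) * x2 + (y0 - y4) * y2) + ((y0 - y4) * x2 - (x0 - x4) * y2))) ^ 2 = 1 / 9 := by
    refine ext_sq (eq8 h 2 7 (Or.inl (by decide))) (c := r2) (d := r2)
      ?_ ?_ (by linear_combination 2 * hr)
    · simp only [a02, a12, a22, a32, a42, a52, a62, a72, h7, h6, h5]
      simp only [add_zero, Nat.reduceMul, Nat.reduceMod, mul_zero, zero_mul, Nat.zero_mod,
        Nat.zero_mul, pow_zero, om1, om2, om3, om4, om5, om6, om7, Complex.add_re,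
        Complex.mul_re, Complex.add_im, Complex.mul_im, Complex.conj_re, Complex.conj_im,
        Complex.one_re, Complex.one_im, Complex.neg_re, Complex.neg_im, Complex.zero_re,
        Complex.zero_im, map_neg, map_zero]
      linear_combination (-2 * (((x0 - x4) * x2 + (y0 - y4) * y2) + ((y0 - y4) * x2 - (x0 - x4) * y2))) * hr
    · simp only [a02, a12, a22, a32, a42, a52, a62, a72, h7, h6, h5]
      simp only [add_zero, Nat.reduceMul, Nat.reduceMod, mul_zero, zero_mul, Nat.zero_mod,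
        Nat.zero_mul, pow_zero, om1, om2, om3, om4, om5, om6, om7, Complex.add_re,
        Complex.mul_re, Complex.add_im, Complex.mul_im, Complex.conj_re, Complex.conj_im,
        Complex.one_re, Complex.one_im, Complex.neg_re, Complex.neg_im, Complex.zero_re,
        Complex.zero_im, map_neg, map_zero]
      linear_combination (-2 * (((x0 - x4) * x2 + (y0 - y4) * y2) + ((y0 - y4) * x2 - (x0 - x4) * y2))) * hr
  obtain ⟨c1, c2⟩ := pair E3 E4
  have hr0 : (2 * r2) ≠ 0 := by
    intro hc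
    rw [hc] at hs
    norm_num at hs
  rcases mul_eq_zero.1 c1 with h1 | h1
  · obtain ⟨-, u1⟩ := pair H5 H1
    obtain ⟨-, u2⟩ := pair H7 H3
    have e1 : ((x1 ^ 2 + y1 ^ 2) - (x3 ^ 2 + y3 ^ 2)) ^ 2 = 1 / 18 := by
      rw [h1] at c2
      linear_combination (1 / 2) * c2 - (1 / 2) * ((x1 ^ 2 + y1 ^ 2) - (x3 ^ 2 + y3 ^ 2)) ^ 2 * hs
    exact core_one (x0 ^ 2 + y0 ^ 2) (x1 ^ 2 + y1 ^ 2) (x2 ^ 2 + y2 ^ 2)
      (x3 ^ 2 + y3 ^ 2) (x4 ^ 2 + y4 ^ 2) (x0 * x4 + y0 * y4) (y0 * x4 - x0 * y4)
      (x1 * x3 + y1 * y3) (y1 * x3 - x1 * y3) (2 * r2) hs (by positivity) (by positivity) E0 E1 e1 F0 F4 F1 F3 (by ring)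
      (by rw [← u1]; exact le_add_of_nonneg_right (sq_nonneg _))
      (by rw [← u2]; exact le_add_of_nonneg_right (sq_nonneg _))
  · have e1 : (x1 ^ 2 + y1 ^ 2) = (x3 ^ 2 + y3 ^ 2) := by
      rcases mul_eq_zero.1 h1 with h2 | h2
      · exact absurd h2 hr0
      · linarith
    have e2 : ((x0 ^ 2 + y0 ^ 2) - (x4 ^ 2 + y4 ^ 2)) ^ 2 = 1 / 9 := by
      rw [h1] at c2
      linear_combination c2
    exact core_two (x0 ^ 2 + y0 ^ 2) (x1 ^ 2 + y1 ^ 2) (x2 ^ 2 + y2 ^ 2)
      (x3 ^ 2 + y3 ^ 2) (x4 ^ 2 + y4 ^ 2) (x0 * x4 + y0 * y4) (y0 * x4 - x0 * y4)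
      (x1 * x3 + y1 * y3) (y1 * x3 - x1 * y3) (2 * r2) ((x0 + x4) * x2 + (y0 + y4) * y2)
      ((y0 + y4) * x2 - (x0 + x4) * y2) ((x0 - x4) * x2 + (y0 - y4) * y2)
      ((y0 - y4) * x2 - (x0 - x4) * y2) hs E0 E1 e1 e2 F0 F4 F2 F1 F3 (by ring) H0 H4 H2 H6 H1 H3
      (by ring) (by ring)

theorem z8_odd {ψ : ZMod 8 → ℂ} (h : Fid ψ) (hp : Par ψ (-1)) : False := by
  obtain ⟨h0, h4, h7, h6, h5⟩ := vals hp
  rw [neg_one_mul] at h7 h6 h5 h0 h4
  rw [self_eq_neg] at h0 h4
  have hr := r2_sq
  have hs : (2 * r2) ^ 2 = 2 := by linear_combination 4 * hr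
  have a02 : (0 : ZMod 8) + 2 = 2 := rfl
  have a12 : (1 : ZMod 8) + 2 = 3 := rfl
  have a22 : (2 : ZMod 8) + 2 = 4 := rfl
  have a32 : (3 : ZMod 8) + 2 = 5 := rfl
  have a42 : (4 : ZMod 8) + 2 = 6 := rfl
  have a52 : (5 : ZMod 8) + 2 = 7 := rfl
  have a62 : (6 : ZMod 8) + 2 = 0 := rfl
  have a72 : (7 : ZMod 8) + 2 = 1 := rfl
  have a04 : (0 : ZMod 8) + 4 = 4 := rfl
  have a14 : (1 : ZMod 8) + 4 = 5 := rfl
  have a24 : (2 : ZMod 8) + 4 = 6 := rfl
  have a34 : (3 : ZMod 8) + 4 = 7 := rfl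
  have a44 : (4 : ZMod 8) + 4 = 0 := rfl
  have a54 : (5 : ZMod 8) + 4 = 1 := rfl
  have a64 : (6 : ZMod 8) + 4 = 2 := rfl
  have a74 : (7 : ZMod 8) + 4 = 3 := rfl
  have hu : ∑ x : ZMod 8, ‖ψ x‖ ^ 2 = 1 := h.unit
  set x1 := (ψ 1).re with hx1
  set x2 := (ψ 2).re with hx2
  set x3 := (ψ 3).re with hx3
  set y1 := (ψ 1).im with hy1
  set y2 := (ψ 2).im with hy2
  set y3 := (ψ 3).im with hy3
  have E0 : (0 : ℝ) + 0 + 2 * (x1 ^ 2 + y1 ^ 2) +
      2 * (x2 ^ 2 + y2 ^ 2) + 2 * (x3 ^ 2 + y3 ^ 2) = 1 := by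
    have h1 : ‖ψ 0‖ ^ 2 + ‖ψ 1‖ ^ 2 + ‖ψ 2‖ ^ 2 + ‖ψ 3‖ ^ 2 + ‖ψ 4‖ ^ 2 + ‖ψ 5‖ ^ 2 +
        ‖ψ 6‖ ^ 2 + ‖ψ 7‖ ^ 2 = 1 := by
      rw [← hu]; exact (Fin.sum_univ_eight (fun x : ZMod 8 => ‖ψ x‖ ^ 2)).symm
    rw [h7, h6, h5, h0, h4] at h1
    simp only [← Complex.normSq_eq_norm_sq, Complex.normSq_apply, Complex.neg_re, Complex.neg_im,
      Complex.zero_re, Complex.zero_im] at h1
    linear_combination h1
  have E1 : ((0 : ℝ) + 0 + 2 * (x2 ^ 2 + y2 ^ 2) -
      2 * (x1 ^ 2 + y1 ^ 2) - 2 * (x3 ^ 2 + y3 ^ 2)) ^ 2 = 1 / 9 := by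
    refine ext_sq (eq8 h 0 4 (Or.inr (om_ne (by norm_num) (by norm_num)))) (c := 1) (d := 0)
      ?_ ?_ (by norm_num)
    · simp only [add_zero, h7, h6, h5, h0, h4]
      simp only [add_zero, Nat.reduceMul, Nat.reduceMod, mul_zero, zero_mul, Nat.zero_mod,
        Nat.zero_mul, pow_zero, om1, om2, om3, om4, om5, om6, om7, Complex.add_re,
        Complex.mul_re, Complex.add_im, Complex.mul_im, Complex.conj_re, Complex.conj_im,
        Complex.one_re, Complex.one_im, Complex.neg_re, Complex.neg_im, Complex.zero_re,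
        Complex.zero_im, map_neg, map_zero]
      ring
    · simp only [add_zero, h7, h6, h5, h0, h4]
      simp only [add_zero, Nat.reduceMul, Nat.reduceMod, mul_zero, zero_mul, Nat.zero_mod,
        Nat.zero_mul, pow_zero, om1, om2, om3, om4, om5, om6, om7, Complex.add_re,
        Complex.mul_re, Complex.add_im, Complex.mul_im, Complex.conj_re, Complex.conj_im,
        Complex.one_re, Complex.one_im, Complex.neg_re, Complex.neg_im, Complex.zero_re,
        Complex.zero_im, map_neg, map_zero]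
      ring
  have E3 : ((2 * r2) * ((x1 ^ 2 + y1 ^ 2) -
      (x3 ^ 2 + y3 ^ 2))) ^ 2 = 1 / 9 := by
    refine ext_sq (eq8 h 0 1 (Or.inr (om_ne (by norm_num) (by norm_num)))) (c := 1) (d := 0)
      ?_ ?_ (by norm_num)
    · simp only [add_zero, h7, h6, h5, h0, h4]
      simp only [add_zero, Nat.reduceMul, Nat.reduceMod, mul_zero, zero_mul, Nat.zero_mod,
        Nat.zero_mul, pow_zero, om1, om2, om3, om4, om5, om6, om7, Complex.add_re,
        Complex.mul_re, Complex.add_im, Complex.mul_im, Complex.conj_re, Complex.conj_im,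
        Complex.one_re, Complex.one_im, Complex.neg_re, Complex.neg_im, Complex.zero_re,
        Complex.zero_im, map_neg, map_zero]
      ring
    · simp only [add_zero, h7, h6, h5, h0, h4]
      simp only [add_zero, Nat.reduceMul, Nat.reduceMod, mul_zero, zero_mul, Nat.zero_mod,
        Nat.zero_mul, pow_zero, om1, om2, om3, om4, om5, om6, om7, Complex.add_re,
        Complex.mul_re, Complex.add_im, Complex.mul_im, Complex.conj_re, Complex.conj_im,
        Complex.one_re, Complex.one_im, Complex.neg_re, Complex.neg_im, Complex.zero_re,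
        Complex.zero_im, map_neg, map_zero]
      ring
  have F0 : ((2 * (0 : ℝ) + 2 * (x2 ^ 2 + y2 ^ 2)) +
      4 * (x1 * x3 + y1 * y3)) ^ 2 = 1 / 9 := by
    refine ext_sq (eq8 h 4 0 (Or.inl (by decide))) (c := -1) (d := 0)
      ?_ ?_ (by norm_num)
    · simp only [a04, a14, a24, a34, a44, a54, a64, a74, h7, h6, h5, h0, h4]
      simp only [add_zero, Nat.reduceMul, Nat.reduceMod, mul_zero, zero_mul, Nat.zero_mod,
        Nat.zero_mul, pow_zero, om1, om2, om3, om4, om5, om6, om7, Complex.add_re,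
        Complex.mul_re, Complex.add_im, Complex.mul_im, Complex.conj_re, Complex.conj_im,
        Complex.one_re, Complex.one_im, Complex.neg_re, Complex.neg_im, Complex.zero_re,
        Complex.zero_im, map_neg, map_zero]
      ring
    · simp only [a04, a14, a24, a34, a44, a54, a64, a74, h7, h6, h5, h0, h4]
      simp only [add_zero, Nat.reduceMul, Nat.reduceMod, mul_zero, zero_mul, Nat.zero_mod,
        Nat.zero_mul, pow_zero, om1, om2, om3, om4, om5, om6, om7, Complex.add_re,
        Complex.mul_re, Complex.add_im, Complex.mul_im, Complex.conj_re, Complex.conj_im,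
        Complex.one_re, Complex.one_im, Complex.neg_re, Complex.neg_im, Complex.zero_re,
        Complex.zero_im, map_neg, map_zero]
      ring
  have F4 : ((2 * (0 : ℝ) + 2 * (x2 ^ 2 + y2 ^ 2)) -
      4 * (x1 * x3 + y1 * y3)) ^ 2 = 1 / 9 := by
    refine ext_sq (eq8 h 4 4 (Or.inl (by decide))) (c := -1) (d := 0)
      ?_ ?_ (by norm_num)
    · simp only [a04, a14, a24, a34, a44, a54, a64, a74, h7, h6, h5, h0, h4]
      simp only [add_zero, Nat.reduceMul, Nat.reduceMod, mul_zero, zero_mul, Nat.zero_mod,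
        Nat.zero_mul, pow_zero, om1, om2, om3, om4, om5, om6, om7, Complex.add_re,
        Complex.mul_re, Complex.add_im, Complex.mul_im, Complex.conj_re, Complex.conj_im,
        Complex.one_re, Complex.one_im, Complex.neg_re, Complex.neg_im, Complex.zero_re,
        Complex.zero_im, map_neg, map_zero]
      ring
    · simp only [a04, a14, a24, a34, a44, a54, a64, a74, h7, h6, h5, h0, h4]
      simp only [add_zero, Nat.reduceMul, Nat.reduceMod, mul_zero, zero_mul, Nat.zero_mod,
        Nat.zero_mul, pow_zero, om1, om2, om3, om4, om5, om6, om7, Complex.add_re,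
        Complex.mul_re, Complex.add_im, Complex.mul_im, Complex.conj_re, Complex.conj_im,
        Complex.one_re, Complex.one_im, Complex.neg_re, Complex.neg_im, Complex.zero_re,
        Complex.zero_im, map_neg, map_zero]
      ring
  have F1 : (2 * (0 : ℝ) + 2 * (2 * r2) * (y1 * x3 - x1 * y3)) ^ 2 = 1 / 9 := by
    refine ext_sq (eq8 h 4 1 (Or.inl (by decide))) (c := 0) (d := -1)
      ?_ ?_ (by norm_num)
    · simp only [a04, a14, a24, a34, a44, a54, a64, a74, h7, h6, h5, h0, h4]
      simp only [add_zero, Nat.reduceMul, Nat.reduceMod, mul_zero, zero_mul, Nat.zero_mod,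
        Nat.zero_mul, pow_zero, om1, om2, om3, om4, om5, om6, om7, Complex.add_re,
        Complex.mul_re, Complex.add_im, Complex.mul_im, Complex.conj_re, Complex.conj_im,
        Complex.one_re, Complex.one_im, Complex.neg_re, Complex.neg_im, Complex.zero_re,
        Complex.zero_im, map_neg, map_zero]
      ring
    · simp only [a04, a14, a24, a34, a44, a54, a64, a74, h7, h6, h5, h0, h4]
      simp only [add_zero, Nat.reduceMul, Nat.reduceMod, mul_zero, zero_mul, Nat.zero_mod,
        Nat.zero_mul, pow_zero, om1, om2, om3, om4, om5, om6, om7, Complex.add_re,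
        Complex.mul_re, Complex.add_im, Complex.mul_im, Complex.conj_re, Complex.conj_im,
        Complex.one_re, Complex.one_im, Complex.neg_re, Complex.neg_im, Complex.zero_re,
        Complex.zero_im, map_neg, map_zero]
      ring
  have F3 : (2 * (0 : ℝ) - 2 * (2 * r2) * (y1 * x3 - x1 * y3)) ^ 2 = 1 / 9 := by
    refine ext_sq (eq8 h 4 3 (Or.inl (by decide))) (c := 0) (d := -1)
      ?_ ?_ (by norm_num)
    · simp only [a04, a14, a24, a34, a44, a54, a64, a74, h7, h6, h5, h0, h4]
      simp only [add_zero, Nat.reduceMul, Nat.reduceMod, mul_zero, zero_mul, Nat.zero_mod,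
        Nat.zero_mul, pow_zero, om1, om2, om3, om4, om5, om6, om7, Complex.add_re,
        Complex.mul_re, Complex.add_im, Complex.mul_im, Complex.conj_re, Complex.conj_im,
        Complex.one_re, Complex.one_im, Complex.neg_re, Complex.neg_im, Complex.zero_re,
        Complex.zero_im, map_neg, map_zero]
      ring
    · simp only [a04, a14, a24, a34, a44, a54, a64, a74, h7, h6, h5, h0, h4]
      simp only [add_zero, Nat.reduceMul, Nat.reduceMod, mul_zero, zero_mul, Nat.zero_mod,
        Nat.zero_mul, pow_zero, om1, om2, om3, om4, om5, om6, om7, Complex.add_re,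
        Complex.mul_re, Complex.add_im, Complex.mul_im, Complex.conj_re, Complex.conj_im,
        Complex.one_re, Complex.one_im, Complex.neg_re, Complex.neg_im, Complex.zero_re,
        Complex.zero_im, map_neg, map_zero]
      ring
  have H1 : (2 * (y1 * x3 - x1 * y3) - ((x3 ^ 2 + y3 ^ 2) - (x1 ^ 2 + y1 ^ 2))) ^ 2 = 1 / 9 := by
    refine ext_sq (eq8 h 2 1 (Or.inl (by decide))) (c := -r2) (d := r2)
      ?_ ?_ (by linear_combination 2 * hr)
    · simp only [a02, a12, a22, a32, a42, a52, a62, a72, h7, h6, h5, h0, h4]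
      simp only [add_zero, Nat.reduceMul, Nat.reduceMod, mul_zero, zero_mul, Nat.zero_mod,
        Nat.zero_mul, pow_zero, om1, om2, om3, om4, om5, om6, om7, Complex.add_re,
        Complex.mul_re, Complex.add_im, Complex.mul_im, Complex.conj_re, Complex.conj_im,
        Complex.one_re, Complex.one_im, Complex.neg_re, Complex.neg_im, Complex.zero_re,
        Complex.zero_im, map_neg, map_zero]
      ring
    · simp only [a02, a12, a22, a32, a42, a52, a62, a72, h7, h6, h5, h0, h4]
      simp only [add_zero, Nat.reduceMul, Nat.reduceMod, mul_zero, zero_mul, Nat.zero_mod,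
        Nat.zero_mul, pow_zero, om1, om2, om3, om4, om5, om6, om7, Complex.add_re,
        Complex.mul_re, Complex.add_im, Complex.mul_im, Complex.conj_re, Complex.conj_im,
        Complex.one_re, Complex.one_im, Complex.neg_re, Complex.neg_im, Complex.zero_re,
        Complex.zero_im, map_neg, map_zero]
      ring
  have H3 : (2 * (y1 * x3 - x1 * y3) + ((x3 ^ 2 + y3 ^ 2) - (x1 ^ 2 + y1 ^ 2))) ^ 2 = 1 / 9 := by
    refine ext_sq (eq8 h 2 3 (Or.inl (by decide))) (c := -r2) (d := -r2)
      ?_ ?_ (by linear_combination 2 * hr)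
    · simp only [a02, a12, a22, a32, a42, a52, a62, a72, h7, h6, h5, h0, h4]
      simp only [add_zero, Nat.reduceMul, Nat.reduceMod, mul_zero, zero_mul, Nat.zero_mod,
        Nat.zero_mul, pow_zero, om1, om2, om3, om4, om5, om6, om7, Complex.add_re,
        Complex.mul_re, Complex.add_im, Complex.mul_im, Complex.conj_re, Complex.conj_im,
        Complex.one_re, Complex.one_im, Complex.neg_re, Complex.neg_im, Complex.zero_re,
        Complex.zero_im, map_neg, map_zero]
      ring
    · simp only [a02, a12, a22, a32, a42, a52, a62, a72, h7, h6, h5, h0, h4]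
      simp only [add_zero, Nat.reduceMul, Nat.reduceMod, mul_zero, zero_mul, Nat.zero_mod,
        Nat.zero_mul, pow_zero, om1, om2, om3, om4, om5, om6, om7, Complex.add_re,
        Complex.mul_re, Complex.add_im, Complex.mul_im, Complex.conj_re, Complex.conj_im,
        Complex.one_re, Complex.one_im, Complex.neg_re, Complex.neg_im, Complex.zero_re,
        Complex.zero_im, map_neg, map_zero]
      ring
  have e1 : ((x1 ^ 2 + y1 ^ 2) - (x3 ^ 2 + y3 ^ 2)) ^ 2 = 1 / 18 := by
    linear_combination (1 / 2) * E3 - (1 / 2) * ((x1 ^ 2 + y1 ^ 2) - (x3 ^ 2 + y3 ^ 2)) ^ 2 * hs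
  exact core_one 0 (x1 ^ 2 + y1 ^ 2) (x2 ^ 2 + y2 ^ 2)
    (x3 ^ 2 + y3 ^ 2) 0 0 0
    (x1 * x3 + y1 * y3) (y1 * x3 - x1 * y3) (2 * r2) hs (by positivity) (by positivity) E0 E1 e1 F0 F4 F1 F3 (by ring)
    H3.le H1.le

theorem z8 {ψ : ZMod 8 → ℂ} (h : Fid ψ) {l : ℂ} (hp : Par ψ l) : False := by
  rcases par_sq h hp with rfl | rfl
  · exact z8_even h hp
  · exact z8_odd h hp

end Pool.Agent.helper391_PS
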