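import Mathlib
import Pool.Agent.helper391_PS.Z8

set_option autoImplicit false
set_option linter.unusedSimpArgs false

/-! The product of the cyclic groups of orders four and two has no parity-symmetric fiducial. -/

namespace Pool.Agent.helper391_PS

open Finset
open scoped ComplexConjugate Classical

theorem core42 (Ne Q C a1 a2 b1 b2 g1 g2 nu nw : ℝ) (E : Ne + 2 * Q = 1)
    (E1 : (Ne - 2 * Q) ^ 2 = 1 / 9) (E2 : (C + 2 * Q) ^ 2 = 1 / 9) (E3 : (C - 2 * Q) ^ 2 = 1 / 9)
    (A1 : (2 * a1) ^ 2 = 1 / 9) (A2 : (2 * a2) ^ 2 = 1 / 9)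
    (B1 : 2 * (b1 - b2) ^ 2 = 1 / 9) (B2 : 2 * (b1 + b2) ^ 2 = 1 / 9)
    (G1 : g1 ^ 2 = 1 / 9) (G2 : g2 ^ 2 = 1 / 9) (hu : nu = Ne + C) (hw : nw = Ne - C)
    (det : nu * nw * Q + 2 * ((g1 * a1 + g2 * a2) * b1 - (g2 * a1 - g1 * a2) * b2) -
      nu * (b1 ^ 2 + b2 ^ 2) - nw * (a1 ^ 2 + a2 ^ 2) - Q * (g1 ^ 2 + g2 ^ 2) = 0) : False := by
  obtain ⟨c1, c2⟩ := pair E2 E3
  have hQ : (Q - 1 / 6) * (Q - 1 / 3) = 0 := by
    have h2 : Ne - 2 * Q = 1 - 4 * Q := by linarith
    rw [h2] at E1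
    linear_combination (1 / 16) * E1
  have hQ6 : Q = 1 / 6 := by
    rcases mul_eq_zero.1 hQ with h | h
    · linarith
    · exfalso
      have h3 : Q = 1 / 3 := by linarith
      rw [h3] at c2
      have := sq_nonneg C
      linarith
  subst hQ6
  have hC : C = 0 := by
    rcases mul_eq_zero.1 c1 with h | h
    · exact h
    · norm_num at h
  subst hC
  have hNe : Ne = 2 / 3 := by linarith
  subst hNe
  have hb : b1 * b2 = 0 := by linear_combination (1 / 8) * B2 - (1 / 8) * B1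
  have hb2 : b1 ^ 2 + b2 ^ 2 = 1 / 18 := by linear_combination (1 / 4) * B2 + (1 / 4) * B1
  have ha1 : a1 ^ 2 = 1 / 36 := by linear_combination (1 / 4) * A1
  have ha2 : a2 ^ 2 = 1 / 36 := by linear_combination (1 / 4) * A2
  set X := g1 * a1 + g2 * a2 with hX
  set Y := g2 * a1 - g1 * a2 with hY
  have hXY : X * Y = 0 := by
    rw [hX, hY]
    linear_combination g1 * g2 * ha1 - g1 * g2 * ha2 - a1 * a2 * G1 + a1 * a2 * G2
  have hXY2 : X ^ 2 + Y ^ 2 = 1 / 81 := by
    have : X ^ 2 + Y ^ 2 = (g1 ^ 2 + g2 ^ 2) * (a1 ^ 2 + a2 ^ 2) := by rw [hX, hY]; ring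
    rw [this, G1, G2, ha1, ha2]; norm_num
  have hT : X * b1 - Y * b2 = 1 / 54 := by
    rw [hu, hw, hb2, ha1, ha2, G1, G2] at det
    linarith
  have hT2 : (X * b1 - Y * b2) ^ 2 = 1 / 2916 := by rw [hT]; norm_num
  rcases mul_eq_zero.1 hXY with h | h
  · rw [h] at hXY2 hT2
    rcases mul_eq_zero.1 hb with h1 | h1
    · rw [h1] at hb2 hT2
      have e1 : (0 * 0 - Y * b2) ^ 2 = (0 ^ 2 + Y ^ 2) * (0 ^ 2 + b2 ^ 2) := by ring
      rw [e1, hb2, hXY2] at hT2
      norm_num at hT2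
    · rw [h1] at hT2
      norm_num at hT2
  · rw [h] at hXY2 hT2
    rcases mul_eq_zero.1 hb with h1 | h1
    · rw [h1] at hT2
      norm_num at hT2
    · rw [h1] at hb2 hT2
      have e1 : (X * b1 - 0 * 0) ^ 2 = (X ^ 2 + 0 ^ 2) * (b1 ^ 2 + 0 ^ 2) := by ring
      rw [e1, hb2, hXY2] at hT2
      norm_num at hT2

theorem I4 (k : ℕ) : (Complex.I ^ k) ^ 4 = 1 := by
  rw [← pow_mul, mul_comm, pow_mul, Complex.I_pow_four, one_pow]

theorem eq42 {ψ : ZMod 4 × ZMod 2 → ℂ} (h : Fid ψ) (a : ZMod 4) (k : ℕ)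
    (hne : a ≠ 0 ∨ Complex.I ^ k ≠ 1) :
    ‖(ψ (0, 0) * conj (ψ (0 + a, 0)) + ψ (0, 1) * conj (ψ (0 + a, 1))) *
        Complex.I ^ ((k * 0) % 4) +
      (ψ (1, 0) * conj (ψ (1 + a, 0)) + ψ (1, 1) * conj (ψ (1 + a, 1))) *
        Complex.I ^ ((k * 1) % 4) +
      (ψ (2, 0) * conj (ψ (2 + a, 0)) + ψ (2, 1) * conj (ψ (2 + a, 1))) *
        Complex.I ^ ((k * 2) % 4) +
      (ψ (3, 0) * conj (ψ (3 + a, 0)) + ψ (3, 1) * conj (ψ (3 + a, 1))) *
        Complex.I ^ ((k * 3) % 4)‖ ^ 2 = 1 / 9 := by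
  have h1 := h.ang (a, 0) ((AddChar.zmodChar 4 (I4 k)).compAddMonoidHom
      (AddMonoidHom.fst (ZMod 4) (ZMod 2))) (by
    intro hc
    obtain ⟨h2, h3⟩ := Prod.mk.inj hc
    rcases hne with h4 | h4
    · exact h4 (congrArg Prod.fst h2)
    · apply h4
      have h5 := DFunLike.congr_fun h3 ((1, 0) : ZMod 4 × ZMod 2)
      rw [AddChar.compAddMonoidHom_apply] at h5
      simp only [AddMonoidHom.coe_fst] at h5
      rw [AddChar.zmodChar_apply] at h5
      have h6 : (1 : ZMod 4).val = 1 := rfl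
      rw [h6, pow_one] at h5
      exact h5)
  have h3 : ∀ q : ZMod 4 × ZMod 2, ((AddChar.zmodChar 4 (I4 k)).compAddMonoidHom
      (AddMonoidHom.fst (ZMod 4) (ZMod 2))) q = Complex.I ^ ((k * q.1.val) % 4) := by
    intro q
    rw [AddChar.compAddMonoidHom_apply]
    simp only [AddMonoidHom.coe_fst]
    rw [AddChar.zmodChar_apply, ← pow_mul, pow_eq_pow_mod _ Complex.I_pow_four]
  have h2 : ov ψ (a, 0) ((AddChar.zmodChar 4 (I4 k)).compAddMonoidHom
      (AddMonoidHom.fst (ZMod 4) (ZMod 2))) =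
    ∑ x : ZMod 4, (ψ (x, 0) * conj (ψ (x + a, 0)) + ψ (x, 1) * conj (ψ (x + a, 1))) *
      Complex.I ^ ((k * x.val) % 4) := by
    unfold ov
    rw [Fintype.sum_prod_type]
    refine Finset.sum_congr rfl fun x _ => ?_
    have h4 : ∀ f : ZMod 2 → ℂ, ∑ y : ZMod 2, f y = f 0 + f 1 := fun f => Fin.sum_univ_two f
    rw [h4, h3, h3]
    have e0 : ((x, 0) : ZMod 4 × ZMod 2) + (a, 0) = (x + a, 0) := by
      rw [Prod.mk_add_mk, add_zero]
    have e1 : ((x, 1) : ZMod 4 × ZMod 2) + (a, 0) = (x + a, 1) := by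
      rw [Prod.mk_add_mk, add_zero]
    rw [e0, e1]
    ring
  have h5 := Fin.sum_univ_four (fun x : ZMod 4 =>
    (ψ (x, 0) * conj (ψ (x + a, 0)) + ψ (x, 1) * conj (ψ (x + a, 1))) *
      Complex.I ^ ((k * x.val) % 4))
  have h6 := h2.trans h5
  rw [h6] at h1
  have hcard : ((Fintype.card (ZMod 4 × ZMod 2) : ℝ)) = 8 := by
    rw [Fintype.card_prod, ZMod.card, ZMod.card]; norm_num
  rw [hcard, show (1 : ℝ) / (8 + 1) = 1 / 9 by norm_num] at h1
  exact h1


theorem iI1 : Complex.I ^ 1 = ⟨0, 1⟩ := by rw [pow_one]; rfl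
theorem iI2 : Complex.I ^ 2 = ⟨-1, 0⟩ := by
  rw [Complex.I_sq]; apply Complex.ext <;> simp
theorem iI3 : Complex.I ^ 3 = ⟨0, -1⟩ := by
  rw [pow_succ, Complex.I_sq]; apply Complex.ext <;> simp

theorem I_ne {k : ℕ} (hk : 0 < k) (hk4 : k < 4) : Complex.I ^ k ≠ 1 := by
  intro hc
  have h1 := congrArg Complex.re hc
  interval_cases k
  · rw [iI1] at h1; norm_num at h1
  · rw [iI2] at h1; norm_num at h1
  · rw [iI3] at h1; norm_num at h1

theorem ext_sq2 {w : ℂ} {X Y : ℝ} (hw : ‖w‖ ^ 2 = 1 / 9) (hre : w.re = X)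
    (him : w.im = Y) : X ^ 2 + Y ^ 2 = 1 / 9 := by
  rw [← Complex.normSq_eq_norm_sq, Complex.normSq_apply, hre, him] at hw
  linear_combination hw

theorem vals42 {ψ : ZMod 4 × ZMod 2 → ℂ} {l : ℂ} (hp : Par ψ l) :
    ψ (0, 0) = l * ψ (0, 0) ∧ ψ (0, 1) = l * ψ (0, 1) ∧ ψ (2, 0) = l * ψ (2, 0) ∧
    ψ (2, 1) = l * ψ (2, 1) ∧ ψ (3, 0) = l * ψ (1, 0) ∧ ψ (3, 1) = l * ψ (1, 1) :=
  ⟨hp (0, 0), hp (0, 1), hp (2, 0), hp (2, 1), hp (1, 0), hp (1, 1)⟩

theorem unit42 {ψ : ZMod 4 × ZMod 2 → ℂ} (h : Fid ψ) :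
    (‖ψ (0, 0)‖ ^ 2 + ‖ψ (0, 1)‖ ^ 2) + (‖ψ (1, 0)‖ ^ 2 + ‖ψ (1, 1)‖ ^ 2) +
    (‖ψ (2, 0)‖ ^ 2 + ‖ψ (2, 1)‖ ^ 2) + (‖ψ (3, 0)‖ ^ 2 + ‖ψ (3, 1)‖ ^ 2) = 1 := by
  have hu := h.unit
  rw [Fintype.sum_prod_type] at hu
  have h4 : ∀ f : ZMod 2 → ℝ, ∑ y : ZMod 2, f y = f 0 + f 1 := fun f => Fin.sum_univ_two f
  simp only [h4] at hu
  have h5 : ∀ f : ZMod 4 → ℝ, ∑ y : ZMod 4, f y = f 0 + f 1 + f 2 + f 3 :=
    fun f => Fin.sum_univ_four f
  rw [h5] at hu
  exact hu

theorem z42_odd {ψ : ZMod 4 × ZMod 2 → ℂ} (h : Fid ψ) (hp : Par ψ (-1)) : False := by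
  obtain ⟨h00, h01, h20, h21, h30, h31⟩ := vals42 hp
  rw [neg_one_mul] at h00 h01 h20 h21 h30 h31
  rw [self_eq_neg] at h00 h01 h20 h21
  have E := unit42 h
  rw [h30, h31, h00, h01, h20, h21] at E
  simp only [← Complex.normSq_eq_norm_sq, Complex.normSq_apply, Complex.neg_re, Complex.neg_im,
    Complex.zero_re, Complex.zero_im] at E
  set q0r := (ψ (1, 0)).re with hq0r
  set q0i := (ψ (1, 0)).im with hq0i
  set q1r := (ψ (1, 1)).re with hq1r
  set q1i := (ψ (1, 1)).im with hq1i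
  have E1 : (2 * ((q0r ^ 2 + q0i ^ 2) + (q1r ^ 2 + q1i ^ 2))) ^ 2 = 1 / 9 := by
    refine ext_sq (eq42 h 0 2 (Or.inr (I_ne (by norm_num) (by norm_num)))) (c := -1) (d := 0)
      ?_ ?_ (by norm_num)
    · simp only [add_zero, h30, h31, h00, h01, h20, h21]
      simp only [add_zero, Nat.reduceMul, Nat.reduceMod, mul_zero, zero_mul, Nat.zero_mod,
        Nat.zero_mul, pow_zero, iI1, iI2, iI3, Complex.add_re, Complex.mul_re, Complex.add_im,
        Complex.mul_im, Complex.conj_re, Complex.conj_im, Complex.one_re, Complex.one_im,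
        Complex.neg_re, Complex.neg_im, Complex.zero_re, Complex.zero_im, map_neg, map_zero]
      ring
    · simp only [add_zero, h30, h31, h00, h01, h20, h21]
      simp only [add_zero, Nat.reduceMul, Nat.reduceMod, mul_zero, zero_mul, Nat.zero_mod,
        Nat.zero_mul, pow_zero, iI1, iI2, iI3, Complex.add_re, Complex.mul_re, Complex.add_im,
        Complex.mul_im, Complex.conj_re, Complex.conj_im, Complex.one_re, Complex.one_im,
        Complex.neg_re, Complex.neg_im, Complex.zero_re, Complex.zero_im, map_neg, map_zero]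
      ring
  have e : 2 * ((q0r ^ 2 + q0i ^ 2) + (q1r ^ 2 + q1i ^ 2)) = 1 := by linear_combination E
  rw [e] at E1
  norm_num at E1

theorem z42_even {ψ : ZMod 4 × ZMod 2 → ℂ} (h : Fid ψ) (hp : Par ψ 1) : False := by
  obtain ⟨-, -, -, -, h30, h31⟩ := vals42 hp
  rw [one_mul] at h30 h31
  have a01 : (0 : ZMod 4) + 1 = 1 := rfl
  have a11 : (1 : ZMod 4) + 1 = 2 := rfl
  have a21 : (2 : ZMod 4) + 1 = 3 := rfl
  have a31 : (3 : ZMod 4) + 1 = 0 := rfl
  have a02 : (0 : ZMod 4) + 2 = 2 := rfl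
  have a12 : (1 : ZMod 4) + 2 = 3 := rfl
  have a22 : (2 : ZMod 4) + 2 = 0 := rfl
  have a32 : (3 : ZMod 4) + 2 = 1 := rfl
  have E := unit42 h
  rw [h30, h31] at E
  simp only [← Complex.normSq_eq_norm_sq, Complex.normSq_apply] at E
  set p0r := (ψ (0, 0)).re with hp0r
  set p0i := (ψ (0, 0)).im with hp0i
  set p1r := (ψ (0, 1)).re with hp1r
  set p1i := (ψ (0, 1)).im with hp1i
  set q0r := (ψ (1, 0)).re with hq0r
  set q0i := (ψ (1, 0)).im with hq0i
  set q1r := (ψ (1, 1)).re with hq1r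
  set q1i := (ψ (1, 1)).im with hq1i
  set r0r := (ψ (2, 0)).re with hr0r
  set r0i := (ψ (2, 0)).im with hr0i
  set r1r := (ψ (2, 1)).re with hr1r
  set r1i := (ψ (2, 1)).im with hr1i
  have E1 : ((((p0r ^ 2 + p0i ^ 2) + (p1r ^ 2 + p1i ^ 2)) + ((r0r ^ 2 + r0i ^ 2) + (r1r ^ 2 + r1i ^ 2))) -
      2 * ((q0r ^ 2 + q0i ^ 2) + (q1r ^ 2 + q1i ^ 2))) ^ 2 = 1 / 9 := by
    refine ext_sq (eq42 h 0 2 (Or.inr (I_ne (by norm_num) (by norm_num)))) (c := 1) (d := 0)
      ?_ ?_ (by norm_num)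
    · simp only [add_zero, h30, h31]
      simp only [add_zero, Nat.reduceMul, Nat.reduceMod, mul_zero, zero_mul, Nat.zero_mod,
        Nat.zero_mul, pow_zero, iI1, iI2, iI3, Complex.add_re, Complex.mul_re, Complex.add_im,
        Complex.mul_im, Complex.conj_re, Complex.conj_im, Complex.one_re, Complex.one_im,
        Complex.neg_re, Complex.neg_im, Complex.zero_re, Complex.zero_im, map_neg, map_zero]
      ring
    · simp only [add_zero, h30, h31]
      simp only [add_zero, Nat.reduceMul, Nat.reduceMod, mul_zero, zero_mul, Nat.zero_mod,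
        Nat.zero_mul, pow_zero, iI1, iI2, iI3, Complex.add_re, Complex.mul_re, Complex.add_im,
        Complex.mul_im, Complex.conj_re, Complex.conj_im, Complex.one_re, Complex.one_im,
        Complex.neg_re, Complex.neg_im, Complex.zero_re, Complex.zero_im, map_neg, map_zero]
      ring
  have E2 : ((2 * ((p0r * r0r + p0i * r0i) + (p1r * r1r + p1i * r1i))) +
      2 * ((q0r ^ 2 + q0i ^ 2) + (q1r ^ 2 + q1i ^ 2))) ^ 2 = 1 / 9 := by
    refine ext_sq (eq42 h 2 0 (Or.inl (by decide))) (c := 1) (d := 0)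
      ?_ ?_ (by norm_num)
    · simp only [add_zero, a02, a12, a22, a32, h30, h31]
      simp only [add_zero, Nat.reduceMul, Nat.reduceMod, mul_zero, zero_mul, Nat.zero_mod,
        Nat.zero_mul, pow_zero, iI1, iI2, iI3, Complex.add_re, Complex.mul_re, Complex.add_im,
        Complex.mul_im, Complex.conj_re, Complex.conj_im, Complex.one_re, Complex.one_im,
        Complex.neg_re, Complex.neg_im, Complex.zero_re, Complex.zero_im, map_neg, map_zero]
      ring
    · simp only [add_zero, a02, a12, a22, a32, h30, h31]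
      simp only [add_zero, Nat.reduceMul, Nat.reduceMod, mul_zero, zero_mul, Nat.zero_mod,
        Nat.zero_mul, pow_zero, iI1, iI2, iI3, Complex.add_re, Complex.mul_re, Complex.add_im,
        Complex.mul_im, Complex.conj_re, Complex.conj_im, Complex.one_re, Complex.one_im,
        Complex.neg_re, Complex.neg_im, Complex.zero_re, Complex.zero_im, map_neg, map_zero]
      ring
  have E3 : ((2 * ((p0r * r0r + p0i * r0i) + (p1r * r1r + p1i * r1i))) -
      2 * ((q0r ^ 2 + q0i ^ 2) + (q1r ^ 2 + q1i ^ 2))) ^ 2 = 1 / 9 := by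
    refine ext_sq (eq42 h 2 2 (Or.inl (by decide))) (c := 1) (d := 0)
      ?_ ?_ (by norm_num)
    · simp only [add_zero, a02, a12, a22, a32, h30, h31]
      simp only [add_zero, Nat.reduceMul, Nat.reduceMod, mul_zero, zero_mul, Nat.zero_mod,
        Nat.zero_mul, pow_zero, iI1, iI2, iI3, Complex.add_re, Complex.mul_re, Complex.add_im,
        Complex.mul_im, Complex.conj_re, Complex.conj_im, Complex.one_re, Complex.one_im,
        Complex.neg_re, Complex.neg_im, Complex.zero_re, Complex.zero_im, map_neg, map_zero]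
      ring
    · simp only [add_zero, a02, a12, a22, a32, h30, h31]
      simp only [add_zero, Nat.reduceMul, Nat.reduceMod, mul_zero, zero_mul, Nat.zero_mod,
        Nat.zero_mul, pow_zero, iI1, iI2, iI3, Complex.add_re, Complex.mul_re, Complex.add_im,
        Complex.mul_im, Complex.conj_re, Complex.conj_im, Complex.one_re, Complex.one_im,
        Complex.neg_re, Complex.neg_im, Complex.zero_re, Complex.zero_im, map_neg, map_zero]
      ring
  have A1 : (2 * (((p0r + r0r) * q0r + (p0i + r0i) * q0i) + ((p1r + r1r) * q1r + (p1i + r1i) * q1i))) ^ 2 = 1 / 9 := by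
    refine ext_sq (eq42 h 1 0 (Or.inl (by decide))) (c := 1) (d := 0)
      ?_ ?_ (by norm_num)
    · simp only [add_zero, a01, a11, a21, a31, h30, h31]
      simp only [add_zero, Nat.reduceMul, Nat.reduceMod, mul_zero, zero_mul, Nat.zero_mod,
        Nat.zero_mul, pow_zero, iI1, iI2, iI3, Complex.add_re, Complex.mul_re, Complex.add_im,
        Complex.mul_im, Complex.conj_re, Complex.conj_im, Complex.one_re, Complex.one_im,
        Complex.neg_re, Complex.neg_im, Complex.zero_re, Complex.zero_im, map_neg, map_zero]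
      ring
    · simp only [add_zero, a01, a11, a21, a31, h30, h31]
      simp only [add_zero, Nat.reduceMul, Nat.reduceMod, mul_zero, zero_mul, Nat.zero_mod,
        Nat.zero_mul, pow_zero, iI1, iI2, iI3, Complex.add_re, Complex.mul_re, Complex.add_im,
        Complex.mul_im, Complex.conj_re, Complex.conj_im, Complex.one_re, Complex.one_im,
        Complex.neg_re, Complex.neg_im, Complex.zero_re, Complex.zero_im, map_neg, map_zero]
      ring
  have A2 : (2 * (((p0i + r0i) * q0r - (p0r + r0r) * q0i) + ((p1i + r1i) * q1r - (p1r + r1r) * q1i))) ^ 2 = 1 / 9 := by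
    refine ext_sq (eq42 h 1 2 (Or.inl (by decide))) (c := 0) (d := 1)
      ?_ ?_ (by norm_num)
    · simp only [add_zero, a01, a11, a21, a31, h30, h31]
      simp only [add_zero, Nat.reduceMul, Nat.reduceMod, mul_zero, zero_mul, Nat.zero_mod,
        Nat.zero_mul, pow_zero, iI1, iI2, iI3, Complex.add_re, Complex.mul_re, Complex.add_im,
        Complex.mul_im, Complex.conj_re, Complex.conj_im, Complex.one_re, Complex.one_im,
        Complex.neg_re, Complex.neg_im, Complex.zero_re, Complex.zero_im, map_neg, map_zero]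
      ring
    · simp only [add_zero, a01, a11, a21, a31, h30, h31]
      simp only [add_zero, Nat.reduceMul, Nat.reduceMod, mul_zero, zero_mul, Nat.zero_mod,
        Nat.zero_mul, pow_zero, iI1, iI2, iI3, Complex.add_re, Complex.mul_re, Complex.add_im,
        Complex.mul_im, Complex.conj_re, Complex.conj_im, Complex.one_re, Complex.one_im,
        Complex.neg_re, Complex.neg_im, Complex.zero_re, Complex.zero_im, map_neg, map_zero]
      ring
  have B1 : 2 * ((((p0r - r0r) * q0r + (p0i - r0i) * q0i) + ((p1r - r1r) * q1r + (p1i - r1i) * q1i)) -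
      (((p0i - r0i) * q0r - (p0r - r0r) * q0i) + ((p1i - r1i) * q1r - (p1r - r1r) * q1i))) ^ 2 = 1 / 9 := by
    have e := ext_sq2 (eq42 h 1 1 (Or.inl (by decide))) (X := (((p0r - r0r) * q0r + (p0i - r0i) * q0i) + ((p1r - r1r) * q1r + (p1i - r1i) * q1i)) - (((p0i - r0i) * q0r - (p0r - r0r) * q0i) + ((p1i - r1i) * q1r - (p1r - r1r) * q1i)))
      (Y := (((p0i - r0i) * q0r - (p0r - r0r) * q0i) + ((p1i - r1i) * q1r - (p1r - r1r) * q1i)) - (((p0r - r0r) * q0r + (p0i - r0i) * q0i) + ((p1r - r1r) * q1r + (p1i - r1i) * q1i)))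
      ?_ ?_
    · linear_combination e
    · simp only [add_zero, a01, a11, a21, a31, h30, h31]
      simp only [add_zero, Nat.reduceMul, Nat.reduceMod, mul_zero, zero_mul, Nat.zero_mod,
        Nat.zero_mul, pow_zero, iI1, iI2, iI3, Complex.add_re, Complex.mul_re, Complex.add_im,
        Complex.mul_im, Complex.conj_re, Complex.conj_im, Complex.one_re, Complex.one_im,
        Complex.neg_re, Complex.neg_im, Complex.zero_re, Complex.zero_im, map_neg, map_zero]
      ring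
    · simp only [add_zero, a01, a11, a21, a31, h30, h31]
      simp only [add_zero, Nat.reduceMul, Nat.reduceMod, mul_zero, zero_mul, Nat.zero_mod,
        Nat.zero_mul, pow_zero, iI1, iI2, iI3, Complex.add_re, Complex.mul_re, Complex.add_im,
        Complex.mul_im, Complex.conj_re, Complex.conj_im, Complex.one_re, Complex.one_im,
        Complex.neg_re, Complex.neg_im, Complex.zero_re, Complex.zero_im, map_neg, map_zero]
      ring
  have B2 : 2 * ((((p0r - r0r) * q0r + (p0i - r0i) * q0i) + ((p1r - r1r) * q1r + (p1i - r1i) * q1i)) +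
      (((p0i - r0i) * q0r - (p0r - r0r) * q0i) + ((p1i - r1i) * q1r - (p1r - r1r) * q1i))) ^ 2 = 1 / 9 := by
    have e := ext_sq2 (eq42 h 1 3 (Or.inl (by decide))) (X := (((p0r - r0r) * q0r + (p0i - r0i) * q0i) + ((p1r - r1r) * q1r + (p1i - r1i) * q1i)) + (((p0i - r0i) * q0r - (p0r - r0r) * q0i) + ((p1i - r1i) * q1r - (p1r - r1r) * q1i)))
      (Y := (((p0r - r0r) * q0r + (p0i - r0i) * q0i) + ((p1r - r1r) * q1r + (p1i - r1i) * q1i)) + (((p0i - r0i) * q0r - (p0r - r0r) * q0i) + ((p1i - r1i) * q1r - (p1r - r1r) * q1i)))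
      ?_ ?_
    · linear_combination e
    · simp only [add_zero, a01, a11, a21, a31, h30, h31]
      simp only [add_zero, Nat.reduceMul, Nat.reduceMod, mul_zero, zero_mul, Nat.zero_mod,
        Nat.zero_mul, pow_zero, iI1, iI2, iI3, Complex.add_re, Complex.mul_re, Complex.add_im,
        Complex.mul_im, Complex.conj_re, Complex.conj_im, Complex.one_re, Complex.one_im,
        Complex.neg_re, Complex.neg_im, Complex.zero_re, Complex.zero_im, map_neg, map_zero]
      ring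
    · simp only [add_zero, a01, a11, a21, a31, h30, h31]
      simp only [add_zero, Nat.reduceMul, Nat.reduceMod, mul_zero, zero_mul, Nat.zero_mod,
        Nat.zero_mul, pow_zero, iI1, iI2, iI3, Complex.add_re, Complex.mul_re, Complex.add_im,
        Complex.mul_im, Complex.conj_re, Complex.conj_im, Complex.one_re, Complex.one_im,
        Complex.neg_re, Complex.neg_im, Complex.zero_re, Complex.zero_im, map_neg, map_zero]
      ring
  have G1 : (((p0r + r0r) * (p0r - r0r) + (p0i + r0i) * (p0i - r0i)) + ((p1r + r1r) * (p1r - r1r) + (p1i + r1i) * (p1i - r1i))) ^ 2 = 1 / 9 := by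
    refine ext_sq (eq42 h 0 1 (Or.inr (I_ne (by norm_num) (by norm_num)))) (c := 1) (d := 0)
      ?_ ?_ (by norm_num)
    · simp only [add_zero, h30, h31]
      simp only [add_zero, Nat.reduceMul, Nat.reduceMod, mul_zero, zero_mul, Nat.zero_mod,
        Nat.zero_mul, pow_zero, iI1, iI2, iI3, Complex.add_re, Complex.mul_re, Complex.add_im,
        Complex.mul_im, Complex.conj_re, Complex.conj_im, Complex.one_re, Complex.one_im,
        Complex.neg_re, Complex.neg_im, Complex.zero_re, Complex.zero_im, map_neg, map_zero]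
      ring
    · simp only [add_zero, h30, h31]
      simp only [add_zero, Nat.reduceMul, Nat.reduceMod, mul_zero, zero_mul, Nat.zero_mod,
        Nat.zero_mul, pow_zero, iI1, iI2, iI3, Complex.add_re, Complex.mul_re, Complex.add_im,
        Complex.mul_im, Complex.conj_re, Complex.conj_im, Complex.one_re, Complex.one_im,
        Complex.neg_re, Complex.neg_im, Complex.zero_re, Complex.zero_im, map_neg, map_zero]
      ring
  have G2 : (((p0i + r0i) * (p0r - r0r) - (p0r + r0r) * (p0i - r0i)) + ((p1i + r1i) * (p1r - r1r) - (p1r + r1r) * (p1i - r1i))) ^ 2 = 1 / 9 := by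
    refine ext_sq (eq42 h 2 1 (Or.inl (by decide))) (c := 0) (d := -1)
      ?_ ?_ (by norm_num)
    · simp only [add_zero, a02, a12, a22, a32, h30, h31]
      simp only [add_zero, Nat.reduceMul, Nat.reduceMod, mul_zero, zero_mul, Nat.zero_mod,
        Nat.zero_mul, pow_zero, iI1, iI2, iI3, Complex.add_re, Complex.mul_re, Complex.add_im,
        Complex.mul_im, Complex.conj_re, Complex.conj_im, Complex.one_re, Complex.one_im,
        Complex.neg_re, Complex.neg_im, Complex.zero_re, Complex.zero_im, map_neg, map_zero]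
      ring
    · simp only [add_zero, a02, a12, a22, a32, h30, h31]
      simp only [add_zero, Nat.reduceMul, Nat.reduceMod, mul_zero, zero_mul, Nat.zero_mod,
        Nat.zero_mul, pow_zero, iI1, iI2, iI3, Complex.add_re, Complex.mul_re, Complex.add_im,
        Complex.mul_im, Complex.conj_re, Complex.conj_im, Complex.one_re, Complex.one_im,
        Complex.neg_re, Complex.neg_im, Complex.zero_re, Complex.zero_im, map_neg, map_zero]
      ring
  exact core42 (((p0r ^ 2 + p0i ^ 2) + (p1r ^ 2 + p1i ^ 2)) + ((r0r ^ 2 + r0i ^ 2) + (r1r ^ 2 + r1i ^ 2))) ((q0r ^ 2 + q0i ^ 2) + (q1r ^ 2 + q1i ^ 2)) (2 * ((p0r * r0r + p0i * r0i) + (p1r * r1r + p1i * r1i)))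
    (((p0r + r0r) * q0r + (p0i + r0i) * q0i) + ((p1r + r1r) * q1r + (p1i + r1i) * q1i))
    (((p0i + r0i) * q0r - (p0r + r0r) * q0i) + ((p1i + r1i) * q1r - (p1r + r1r) * q1i))
    (((p0r - r0r) * q0r + (p0i - r0i) * q0i) + ((p1r - r1r) * q1r + (p1i - r1i) * q1i))
    (((p0i - r0i) * q0r - (p0r - r0r) * q0i) + ((p1i - r1i) * q1r - (p1r - r1r) * q1i))
    (((p0r + r0r) * (p0r - r0r) + (p0i + r0i) * (p0i - r0i)) + ((p1r + r1r) * (p1r - r1r) + (p1i + r1i) * (p1i - r1i)))
    (((p0i + r0i) * (p0r - r0r) - (p0r + r0r) * (p0i - r0i)) + ((p1i + r1i) * (p1r - r1r) - (p1r + r1r) * (p1i - r1i)))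
    (((p0r + r0r) ^ 2 + (p0i + r0i) ^ 2) + ((p1r + r1r) ^ 2 + (p1i + r1i) ^ 2))
    (((p0r - r0r) ^ 2 + (p0i - r0i) ^ 2) + ((p1r - r1r) ^ 2 + (p1i - r1i) ^ 2))
    (by linear_combination E) E1 E2 E3 A1 A2 B1 B2 G1 G2 (by ring) (by ring) (by ring)

theorem z42 {ψ : ZMod 4 × ZMod 2 → ℂ} (h : Fid ψ) {l : ℂ} (hp : Par ψ l) : False := by
  rcases par_sq h hp with rfl | rfl
  · exact z42_even h hp
  · exact z42_odd h hp

end Pool.Agent.helper391_PS
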