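import Mathlib
import Pool.Agent.helper391_PS.Z42
import Pool.Agent.helper391_PS.Main

set_option autoImplicit false

/-! Abelian groups of order eight. -/

namespace Pool.Agent.helper391_PS

open Finset
open scoped Classical

theorem ord8 {A : Type} [AddCommGroup A] [Fintype A] (hA : Fintype.card A = 8)
    (h2 : ∃ x : A, x + x ≠ 0) :
    Nonempty (A ≃+ ZMod 8) ∨ Nonempty (A ≃+ ZMod 4 × ZMod 2) := by
  have hN : Nat.card A = 8 := by rw [Nat.card_eq_fintype_card, hA]
  by_cases hc : ∃ g : A, addOrderOf g = 8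
  · left
    obtain ⟨g, hg⟩ := hc
    have h3 : IsAddCyclic A := isAddCyclic_of_addOrderOf_eq_card g (by rw [hg, hN])
    have e := zmodAddCyclicAddEquiv h3
    rw [hN] at e
    exact ⟨e.symm⟩
  right
  push Not at hc
  have h4 : ∀ x : A, 4 • x = 0 := by
    intro x
    have h5 : addOrderOf x ∣ 2 ^ 3 := by
      have := addOrderOf_dvd_card (x := x)
      rw [hA] at this
      exact this
    obtain ⟨j, hj, hj2⟩ := (Nat.dvd_prime_pow Nat.prime_two).1 h5
    have h6 : j ≠ 3 := by
      rintro rfl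
      exact hc x hj2
    have h7 : addOrderOf x ∣ 4 := by
      rw [hj2]
      exact pow_dvd_pow 2 (by omega : j ≤ 2)
    exact addOrderOf_dvd_iff_nsmul_eq_zero.1 h7
  obtain ⟨g, hg⟩ := h2
  have hg4 : ∀ n : ℤ, n • g = 0 → (4 : ℤ) ∣ n := by
    intro n hn
    have h5 : (addOrderOf g : ℤ) ∣ n := addOrderOf_dvd_iff_zsmul_eq_zero.2 hn
    have h6 : addOrderOf g = 4 := by
      have h7 : addOrderOf g ∣ 2 ^ 2 := addOrderOf_dvd_iff_nsmul_eq_zero.2 (h4 g)
      obtain ⟨j, hj, hj2⟩ := (Nat.dvd_prime_pow Nat.prime_two).1 h7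
      have h8 : ¬ addOrderOf g ∣ 2 := by
        intro hd
        apply hg
        rw [← two_nsmul]
        exact addOrderOf_dvd_iff_nsmul_eq_zero.1 hd
      interval_cases j
      · rw [hj2] at h8; norm_num at h8
      · rw [hj2] at h8; norm_num at h8
      · rw [hj2]; norm_num
    rw [h6] at h5
    exact_mod_cast h5
  -- a complement of order two
  obtain ⟨k, hk, hk2⟩ : ∃ k : A, k ∉ AddSubgroup.zmultiples g ∧ k + k = 0 := by
    have hcardH : Nat.card (AddSubgroup.zmultiples g) ≤ 4 := by
      rw [Nat.card_zmultiples]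
      exact addOrderOf_le_of_nsmul_eq_zero (by norm_num) (h4 g)
    obtain ⟨k, hk⟩ : ∃ k : A, k ∉ AddSubgroup.zmultiples g := by
      by_contra hcon
      push Not at hcon
      have h5 : AddSubgroup.zmultiples g = ⊤ := by
        rw [eq_top_iff]; intro x _; exact hcon x
      rw [h5, AddSubgroup.card_top, hN] at hcardH
      omega
    have hidx : (AddSubgroup.zmultiples g).index = 2 := by
      have h5 := (AddSubgroup.zmultiples g).card_mul_index
      rw [hN] at h5
      have h6 : Nat.card (AddSubgroup.zmultiples g) = 4 := by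
        rw [Nat.card_zmultiples]
        apply Nat.le_antisymm (addOrderOf_le_of_nsmul_eq_zero (by norm_num) (h4 g))
        have h7 : ((4 : ℕ) : ℤ) ∣ (addOrderOf g : ℤ) := by
          apply hg4
          rw [natCast_zsmul]
          exact addOrderOf_nsmul_eq_zero g
        exact Nat.le_of_dvd (addOrderOf_pos g) (by exact_mod_cast h7)
      rw [h6] at h5
      omega
    have hkk : k + k ∈ AddSubgroup.zmultiples g := by
      exact AddSubgroup.add_self_mem_of_index_two hidx k
    obtain ⟨n, hn⟩ := AddSubgroup.mem_zmultiples_iff.1 hkk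
    have h5 : (2 * n) • g = 0 := by
      rw [mul_smul, hn]
      have := h4 k
      rw [← this]
      simp only [two_zsmul]
      rw [show (4 : ℕ) = 2 + 2 by norm_num, add_smul, two_nsmul]
    have h6 := hg4 _ h5
    obtain ⟨j, hj⟩ : ∃ j : ℤ, n = 2 * j := ⟨n / 2, by omega⟩
    refine ⟨k - j • g, ?_, ?_⟩
    · intro hmem
      apply hk
      have h7 : j • g ∈ AddSubgroup.zmultiples g := AddSubgroup.zsmul_mem_zmultiples g j
      have := AddSubgroup.add_mem _ hmem h7
      rwa [sub_add_cancel] at this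
    · have h7 : k - j • g + (k - j • g) = (k + k) - (2 * j) • g := by
        rw [mul_comm, mul_smul, two_zsmul, smul_add]
        abel
      rw [h7, ← hn, hj, sub_self]
  let f1 : ZMod 4 →+ A := ZMod.lift 4 ⟨zmultiplesHom A g, by
    rw [zmultiplesHom_apply, natCast_zsmul]; exact h4 g⟩
  let f2 : ZMod 2 →+ A := ZMod.lift 2 ⟨zmultiplesHom A k, by
    rw [zmultiplesHom_apply, natCast_zsmul, two_nsmul]; exact hk2⟩
  have hf1 : ∀ n : ℤ, f1 (n : ZMod 4) = n • g := fun n => by
    simp [f1]
  have hf2 : ∀ n : ℤ, f2 (n : ZMod 2) = n • k := fun n => by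
    simp [f2]
  have hinj : Function.Injective (f1.coprod f2) := by
    rw [injective_iff_map_eq_zero]
    rintro ⟨x, y⟩ hxy
    rw [AddMonoidHom.coprod_apply] at hxy
    obtain ⟨n, rfl⟩ := ZMod.intCast_surjective x
    simp only at hxy
    rw [hf1] at hxy
    have hy : y = 0 := by
      by_contra hy
      have hdec : ∀ y : ZMod 2, y ≠ 0 → y = ((1 : ℤ) : ZMod 2) := by decide
      have hy1 : y = ((1 : ℤ) : ZMod 2) := hdec y hy
      rw [hy1, hf2, one_smul] at hxy
      apply hk
      have h5 : k = (-n) • g := by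
        rw [neg_smul]; exact (neg_eq_of_add_eq_zero_right hxy).symm
      rw [h5]
      exact AddSubgroup.zsmul_mem_zmultiples g _
    subst hy
    rw [map_zero, add_zero] at hxy
    have h5 := hg4 n hxy
    have h6 : ((n : ℤ) : ZMod 4) = 0 := (ZMod.intCast_zmod_eq_zero_iff_dvd n 4).2 (by exact_mod_cast h5)
    rw [h6]; rfl
  have hbij : Function.Bijective (f1.coprod f2) := by
    rw [Fintype.bijective_iff_injective_and_card]
    refine ⟨hinj, ?_⟩
    rw [hA, Fintype.card_prod, ZMod.card, ZMod.card]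
  exact ⟨(AddEquiv.ofBijective _ hbij).symm⟩

/-- the possible groups -/
theorem main_ne {A : Type} [AddCommGroup A] [Fintype A] {ψ : A → ℂ} (h : Fid ψ) {l : ℂ}
    (hp : Par ψ l) :
    Fintype.card A = 1 ∨ Fintype.card A = 2 ∨ Fintype.card A = 3 ∨
      (Fintype.card A = 8 ∧ ∀ x : A, x + x = 0) := by
  rcases order_mem h hp with h1 | h1 | h1 | h1
  · exact Or.inl h1
  · exact Or.inr (Or.inl h1)
  · exact Or.inr (Or.inr (Or.inl h1))
  · refine Or.inr (Or.inr (Or.inr ⟨h1, ?_⟩))
    by_contra hc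
    push Not at hc
    rcases ord8 h1 hc with ⟨⟨e⟩⟩ | ⟨⟨e⟩⟩
    · exact z8 (fid_trans e h) (par_trans e hp)
    · exact z42 (fid_trans e h) (par_trans e hp)

end Pool.Agent.helper391_PS
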