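import Mathlib
import Pool.Agent.helper391_PS.Ord8

set_option autoImplicit false

/-! Displaced parity, and operators inverting all displacements. -/

namespace Pool.Agent.helper391_PS

open Finset
open scoped ComplexConjugate Classical

/-- an element which is killed by all characters of order two is divisible by two -/
theorem double_of {A : Type} [AddCommGroup A] [Finite A] (b : A)
    (h : ∀ χ : AddChar A ℂ, χ + χ = 0 → χ b = 1) : ∃ c : A, c + c = b := by
  by_contra hc
  let H : AddSubgroup A := (nsmulAddMonoidHom (α := A) 2).range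
  have hb : (QuotientAddGroup.mk b : A ⧸ H) ≠ 0 := by
    intro h1
    rw [QuotientAddGroup.eq_zero_iff] at h1
    obtain ⟨c, hc2⟩ := h1
    apply hc
    refine ⟨c, ?_⟩
    rw [← two_nsmul]
    exact hc2
  obtain ⟨χ, hχ⟩ := (AddChar.exists_apply_ne_zero (a := (QuotientAddGroup.mk b : A ⧸ H))).2 hb
  apply hχ
  have h1 := h (χ.compAddMonoidHom (QuotientAddGroup.mk' H)) (by
    ext x
    rw [AddChar.add_apply, AddChar.compAddMonoidHom_apply, ← AddChar.map_add_eq_mul,
      AddChar.zero_apply, ← map_add]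
    have h2 : (QuotientAddGroup.mk' H) (x + x) = 0 := by
      rw [QuotientAddGroup.mk'_apply, QuotientAddGroup.eq_zero_iff]
      exact ⟨x, by rw [nsmulAddMonoidHom_apply, two_nsmul]⟩
    rw [h2, AddChar.map_zero_eq_one])
  rw [AddChar.compAddMonoidHom_apply] at h1
  exact h1

variable {A : Type} [AddCommGroup A] [Fintype A]

/-- a character which is trivial on the elements of order two is divisible by two -/
theorem double_char (η : AddChar A ℂ) (h : ∀ a : A, a + a = 0 → η a = 1) :
    ∃ κ : AddChar A ℂ, κ + κ = η := by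
  apply double_of
  intro Ξ hΞ
  obtain ⟨a, rfl⟩ := AddChar.doubleDualEmb_bijective.2 Ξ
  rw [AddChar.doubleDualEmb_apply]
  apply h
  rw [← map_add] at hΞ
  exact AddChar.doubleDualEmb_eq_zero.1 hΞ

/-- displaced parity -/
def DPar (ψ : A → ℂ) (b : A) (η : AddChar A ℂ) (l : ℂ) : Prop :=
  ∀ x, ψ (b - x) = l * η x * ψ x

theorem dpar_norm {ψ : A → ℂ} (h : Fid ψ) {b : A} {η : AddChar A ℂ} {l : ℂ}
    (hp : DPar ψ b η l) : l * conj l = 1 := by
  obtain ⟨x, hx⟩ := exists_ne h
  have h1 : l ^ 2 * η b * ψ x = 1 * ψ x := by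
    have h2 := hp (b - x)
    rw [sub_sub_cancel, hp x] at h2
    have h3 : η (b - x) * η x = η b := by
      rw [← AddChar.map_add_eq_mul, sub_add_cancel]
    rw [one_mul, ← h3]
    linear_combination -h2
  have h4 := mul_right_cancel₀ hx h1
  have h5 : ‖l‖ ^ 2 = 1 := by
    have := congrArg norm h4
    rw [norm_mul, norm_pow, AddChar.norm_apply, mul_one, norm_one] at this
    exact this
  rw [Complex.mul_conj, Complex.normSq_eq_norm_sq, h5, Complex.ofReal_one]

theorem conj_ov_dpar {ψ : A → ℂ} (h : Fid ψ) {b : A} {η : AddChar A ℂ} {l : ℂ}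
    (hp : DPar ψ b η l) (a : A) (χ : AddChar A ℂ) :
    conj (ov ψ a χ) = η (-a) * χ (a - b) * ov ψ a χ := by
  unfold ov
  rw [map_sum, Finset.mul_sum, ← Equiv.sum_comp (Equiv.subLeft (b - a))]
  refine Finset.sum_congr rfl fun y _ => ?_
  simp only [Equiv.subLeft_apply, map_mul, Complex.conj_conj]
  rw [show b - a - y = b - (y + a) by abel, show b - (y + a) + a = b - y by abel, hp, hp,
    char_conj]
  simp only [map_mul]
  rw [char_conj, show -(b - (y + a)) = (a - b) + y by abel, AddChar.map_add_eq_mul,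
    show -(y + a) = -y + -a by abel, AddChar.map_add_eq_mul]
  have h1 : η y * η (-y) = 1 := by
    rw [← AddChar.map_add_eq_mul, add_neg_cancel, AddChar.map_zero_eq_one]
  have h2 := dpar_norm h hp
  linear_combination (conj (ψ (y + a)) * ψ y * η (-a) * χ (a - b) * χ y) *
    (η y * η (-y) * h2 + h1)

theorem ov_ne {ψ : A → ℂ} (h : Fid ψ) (a : A) (χ : AddChar A ℂ)
    (hne : (a, χ) ≠ ((0 : A), (0 : AddChar A ℂ))) : ov ψ a χ ≠ 0 := by
  intro hc
  have h1 := h.ang a χ hne
  rw [hc, norm_zero] at h1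
  have : (0 : ℝ) < 1 / ((Fintype.card A : ℝ) + 1) := by positivity
  rw [← h1] at this
  norm_num at this

theorem disp_double {ψ : A → ℂ} (h : Fid ψ) {b : A} {η : AddChar A ℂ} {l : ℂ}
    (hp : DPar ψ b η l) : (∃ c : A, c + c = b) ∧ ∃ κ : AddChar A ℂ, κ + κ = η := by
  constructor
  · apply double_of
    intro χ hχ
    by_cases hχ0 : χ = 0
    · rw [hχ0, AddChar.zero_apply]
    have hneg : -χ = χ := neg_eq_of_add_eq_zero_left hχ
    have hne : ((0 : A), χ) ≠ ((0 : A), (0 : AddChar A ℂ)) := fun hc => hχ0 (congrArg Prod.snd hc)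
    have h1 := conj_ov_dpar h hp 0 χ
    have h2 := conj_ov ψ 0 χ
    rw [neg_zero, hneg, AddChar.map_zero_eq_one, one_mul] at h2
    rw [h2, neg_zero, AddChar.map_zero_eq_one, one_mul, zero_sub] at h1
    have h3 : χ (-b) = 1 := by
      have h4 : (1 : ℂ) * ov ψ 0 χ = χ (-b) * ov ψ 0 χ := by rw [one_mul]; exact h1
      exact (mul_right_cancel₀ (ov_ne h 0 χ hne) h4).symm
    rw [← hneg, AddChar.neg_apply, h3]
  · apply double_char
    intro a ha
    by_cases ha0 : a = 0
    · rw [ha0, AddChar.map_zero_eq_one]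
    have hneg : -a = a := neg_eq_of_add_eq_zero_left ha
    have hne : (a, (0 : AddChar A ℂ)) ≠ ((0 : A), (0 : AddChar A ℂ)) :=
      fun hc => ha0 (congrArg Prod.fst hc)
    have h1 := conj_ov_dpar h hp a 0
    have h2 := conj_ov ψ a 0
    rw [neg_zero, hneg, AddChar.zero_apply, one_mul] at h2
    rw [h2, hneg, AddChar.zero_apply, mul_one] at h1
    have h4 : (1 : ℂ) * ov ψ a 0 = η a * ov ψ a 0 := by rw [one_mul]; exact h1
    exact (mul_right_cancel₀ (ov_ne h a 0 hne) h4).symm

theorem shift_par {ψ : A → ℂ} (h : Fid ψ) {c : A} {κ : AddChar A ℂ} {l : ℂ}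
    (hp : DPar ψ (c + c) (κ + κ) l) :
    Fid (fun x => κ x * ψ (x + c)) ∧ Par (fun x => κ x * ψ (x + c)) (l * (κ + κ) c) := by
  refine ⟨⟨?_, ?_⟩, ?_⟩
  · rw [← h.unit, ← Equiv.sum_comp (Equiv.addRight c) (fun x => ‖ψ x‖ ^ 2)]
    refine Finset.sum_congr rfl fun x _ => ?_
    rw [norm_mul, AddChar.norm_apply, one_mul]
    rfl
  · intro a χ hne
    have h1 : ov (fun x => κ x * ψ (x + c)) a χ = κ (-a) * χ (-c) * ov ψ a χ := by
      unfold ov
      rw [Finset.mul_sum, ← Equiv.sum_comp (Equiv.addRight c)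
        (fun x => κ (-a) * χ (-c) * (ψ x * conj (ψ (x + a)) * χ x))]
      refine Finset.sum_congr rfl fun x _ => ?_
      simp only [Equiv.coe_addRight, map_mul]
      rw [char_conj, show x + c + a = x + a + c by abel, show -(x + a) = -x + -a by abel,
        AddChar.map_add_eq_mul, AddChar.map_add_eq_mul χ]
      have e1 : κ x * κ (-x) = 1 := by
        rw [← AddChar.map_add_eq_mul, add_neg_cancel, AddChar.map_zero_eq_one]
      have e2 : χ (-c) * χ c = 1 := by
        rw [← AddChar.map_add_eq_mul, neg_add_cancel, AddChar.map_zero_eq_one]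
      linear_combination (ψ (x + c) * κ (-a) * conj (ψ (x + a + c)) * χ x) * (e1 - e2)
    rw [h1, norm_mul, norm_mul, AddChar.norm_apply, AddChar.norm_apply, one_mul, one_mul]
    exact h.ang a χ hne
  · intro x
    show κ (-x) * ψ (-x + c) = l * (κ + κ) c * (κ x * ψ (x + c))
    rw [show -x + c = c + c - (x + c) by abel, hp, AddChar.map_add_eq_mul (κ + κ),
      AddChar.add_apply]
    have e1 : κ x * κ (-x) = 1 := by
      rw [← AddChar.map_add_eq_mul, add_neg_cancel, AddChar.map_zero_eq_one]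
    linear_combination (l * (κ + κ) c * κ x * ψ (x + c)) * e1

/-- the possible groups, for displaced parity -/
theorem main_dpar {ψ : A → ℂ} (h : Fid ψ) {b : A} {η : AddChar A ℂ} {l : ℂ}
    (hp : DPar ψ b η l) :
    Fintype.card A = 1 ∨ Fintype.card A = 2 ∨ Fintype.card A = 3 ∨
      (Fintype.card A = 8 ∧ ∀ x : A, x + x = 0) := by
  obtain ⟨⟨c, rfl⟩, ⟨κ, rfl⟩⟩ := disp_double h hp
  obtain ⟨h1, h2⟩ := shift_par h hp
  exact main_ne h1 h2

end Pool.Agent.helper391_PS
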