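import Mathlib
import Pool.Agent.helper391_PS.Disp

set_option autoImplicit false

/-! Operators inverting all displacements are displaced parity operators. -/

namespace Pool.Agent.helper391_PS

open Finset
open scoped ComplexConjugate Classical

variable {A : Type} [AddCommGroup A] [Fintype A]

/-- displacement of a function -/
noncomputable def dis (a : A) (χ : AddChar A ℂ) (φ : A → ℂ) : A → ℂ := fun x => χ x * φ (x - a)

theorem oper (U : (A → ℂ) →ₗ[ℂ] (A → ℂ)) (hU : U ≠ 0)
    (h : ∀ (a : A) (χ : AddChar A ℂ), ∃ c : ℂ, ∀ φ, U (dis a χ φ) = c • dis (-a) (-χ) (U φ)) :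
    ∃ (b : A) (η : AddChar A ℂ) (k : ℂ), k ≠ 0 ∧ ∀ φ x, U φ x = k * η (b - x) * φ (b - x) := by
  set K : A → A → ℂ := fun x y => U (Pi.single y 1) x with hK
  have hsum : ∀ φ x, U φ x = ∑ y, φ y * K x y := by
    intro φ x
    have h1 : φ = ∑ y, φ y • (Pi.single y 1 : A → ℂ) := by
      ext z
      rw [Finset.sum_apply]
      simp [Pi.single_apply]
    conv_lhs => rw [h1]
    rw [map_sum, Finset.sum_apply]
    refine Finset.sum_congr rfl fun y _ => ?_
    rw [map_smul, Pi.smul_apply, smul_eq_mul]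
  obtain ⟨x0, y0, h0⟩ : ∃ x0 y0, K x0 y0 ≠ 0 := by
    by_contra hc
    push Not at hc
    apply hU
    ext φ x
    simp only [LinearMap.comp_apply]
    rw [hsum]
    simp [hc]
  -- support
  have hchar : ∀ χ : AddChar A ℂ, ∃ c : ℂ, ∀ x y, K x y ≠ 0 → c = χ (x + y) := by
    intro χ
    obtain ⟨c, hc⟩ := h 0 χ
    refine ⟨c, fun x y hxy => ?_⟩
    have h1 := congrFun (hc (Pi.single y 1)) x
    have h2 : dis 0 χ (Pi.single y 1 : A → ℂ) = χ y • (Pi.single y 1 : A → ℂ) := by
      ext z
      simp only [dis, sub_zero, Pi.smul_apply, smul_eq_mul]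
      by_cases hz : z = y
      · rw [hz]
      · rw [Pi.single_eq_of_ne hz, mul_zero, mul_zero]
    rw [h2, map_smul, Pi.smul_apply, smul_eq_mul, Pi.smul_apply, smul_eq_mul] at h1
    have h3 : dis (-0) (-χ) (U (Pi.single y 1)) x = χ (-x) * K x y := by
      simp only [dis, neg_zero, sub_zero, AddChar.neg_apply, hK]
    rw [h3] at h1
    have h4 : χ y * K x y = (c * χ (-x)) * K x y := by
      rw [mul_assoc]; exact h1
    have h5 := mul_right_cancel₀ hxy h4
    rw [AddChar.map_add_eq_mul, h5]
    have e1 : χ x * χ (-x) = 1 := by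
      rw [← AddChar.map_add_eq_mul, add_neg_cancel, AddChar.map_zero_eq_one]
    linear_combination (-c) * e1
  set b := x0 + y0 with hb
  have hsupp : ∀ x y, K x y ≠ 0 → x + y = b := by
    intro x y hxy
    by_contra hne
    obtain ⟨χ, hχ⟩ := (AddChar.exists_apply_ne_zero (a := x + y - b)).2 (sub_ne_zero.2 hne)
    apply hχ
    obtain ⟨c, hc⟩ := hchar χ
    have h1 : χ (x + y) = χ b := (hc x y hxy).symm.trans (hc x0 y0 h0)
    rw [AddChar.map_sub_eq_div, h1, div_self]
    intro h2
    have := AddChar.norm_apply χ b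
    rw [h2, norm_zero] at this
    norm_num at this
  set k : A → ℂ := fun y => K (b - y) y with hk
  have hU2 : ∀ φ x, U φ x = k (b - x) * φ (b - x) := by
    intro φ x
    rw [hsum, Finset.sum_eq_single (b - x)]
    · rw [hk]
      simp only [sub_sub_cancel]
      ring
    · intro y _ hy
      have : K x y = 0 := by
        by_contra hne
        apply hy
        rw [← hsupp x y hne]
        abel
      rw [this, mul_zero]
    · intro hc
      exact absurd (Finset.mem_univ _) hc
  have htr : ∀ a : A, ∃ c : ℂ, ∀ y, k (y + a) = c * k y := by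
    intro a
    obtain ⟨c, hc⟩ := h a 0
    refine ⟨c, fun y => ?_⟩
    have h1 := congrFun (hc (Pi.single y 1)) (b - (y + a))
    rw [hU2, sub_sub_cancel, Pi.smul_apply, smul_eq_mul] at h1
    have h2 : dis a 0 (Pi.single y 1 : A → ℂ) (y + a) = 1 := by
      simp [dis]
    have h3 : dis (-a) (-0) (U (Pi.single y 1)) (b - (y + a)) = k y := by
      simp only [dis, neg_zero, AddChar.zero_apply, one_mul]
      rw [hU2, show b - (b - (y + a) - -a) = y by abel, Pi.single_eq_same, mul_one]
    rw [h2, h3, mul_one] at h1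
    exact h1
  choose c hc using htr
  have hk0 : k y0 ≠ 0 := by
    have : k y0 = K x0 y0 := by
      rw [hk]; simp only
      rw [hb, add_sub_cancel_right]
    rw [this]; exact h0
  have hc0 : c 0 = 1 := by
    have h1 := hc 0 y0
    rw [add_zero] at h1
    exact (mul_right_cancel₀ hk0 (by rw [one_mul]; exact h1)).symm
  have hcadd : ∀ a a', c (a + a') = c a * c a' := by
    intro a a'
    have h1 := hc (a + a') y0
    rw [← add_assoc, hc a' (y0 + a), hc a y0] at h1
    apply mul_right_cancel₀ hk0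
    rw [← h1]; ring
  let η : AddChar A ℂ := ⟨c, hc0, hcadd⟩
  have hη : ∀ a, η a = c a := fun a => rfl
  refine ⟨b, η, k 0, ?_, ?_⟩
  · intro hz
    apply hk0
    have := hc y0 0
    rw [zero_add, hz, mul_zero] at this
    exact this
  · intro φ x
    rw [hU2, hη]
    have := hc (b - x) 0
    rw [zero_add] at this
    rw [this]; ring

/-- the possible groups, for symmetries inverting the displacements -/
theorem main_oper {ψ : A → ℂ} (hF : Fid ψ) (U : (A → ℂ) →ₗ[ℂ] (A → ℂ)) (hU : U ≠ 0)
    (h : ∀ (a : A) (χ : AddChar A ℂ), ∃ c : ℂ, ∀ φ, U (dis a χ φ) = c • dis (-a) (-χ) (U φ))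
    (l : ℂ) (hl : U ψ = l • ψ) :
    Fintype.card A = 1 ∨ Fintype.card A = 2 ∨ Fintype.card A = 3 ∨
      (Fintype.card A = 8 ∧ ∀ x : A, x + x = 0) := by
  obtain ⟨b, η, k, hk, hU2⟩ := oper U hU h
  refine main_dpar (ψ := ψ) (b := b) (η := η) (l := l / k * η (-b)) hF ?_
  intro x
  have h1 := congrFun hl x
  rw [hU2, Pi.smul_apply, smul_eq_mul] at h1
  have e1 : η (b - x) * (η (-b) * η x) = 1 := by
    rw [← AddChar.map_add_eq_mul, ← AddChar.map_add_eq_mul,
      show b - x + (-b + x) = 0 by abel, AddChar.map_zero_eq_one]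
  have h2 : l / k * k = l := div_mul_cancel₀ l hk
  calc ψ (b - x) = (η (b - x) * (η (-b) * η x)) * ψ (b - x) := by rw [e1, one_mul]
    _ = (k * η (b - x) * ψ (b - x)) * (η (-b) * η x) / k := by field_simp
    _ = l / k * η (-b) * η x * ψ x := by rw [h1]; ring

end Pool.Agent.helper391_PS
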