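import Mathlib
import Pool.Agent.helper391_PS.Oper

set_option autoImplicit false

/-! Symmetries inverting a direct factor of odd order. -/

namespace Pool.Agent.helper391_PS

open Finset
open scoped ComplexConjugate Classical

section
variable {B : Type} [AddCommGroup B] [Fintype B]

theorem odd_double (hodd : Odd (Fintype.card B)) {x : B} (h : x + x = 0) : x = 0 := by
  obtain ⟨r, hr⟩ := hodd
  have h1 : (Fintype.card B) • x = 0 := card_nsmul_eq_zero
  rw [hr, add_smul, one_smul, mul_comm, mul_smul, two_nsmul, h, smul_zero, zero_add] at h1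
  exact h1

theorem flat2 (hodd : Odd (Fintype.card B)) (hB : 1 < Fintype.card B) (K : B → B → ℂ) (μ : ℂ)
    (D : ℕ) (hD : 0 < D) (hμ : μ = 1 ∨ μ = -1) (hpar : ∀ x y, K (-x) y = μ * K x y)
    (h0 : ∑ x, K x x = 1)
    (hsq : ∀ (a : B) (χ : AddChar B ℂ), ¬ (a = 0 ∧ χ = 0) →
      (∑ x, K x (x + a) * χ x) ^ 2 * χ a * (D : ℂ) = 1) :
    ∃ m : ℕ, m ^ 2 = D ∧ Even m ∧ m ≤ Fintype.card B + 1 := by
  -- Fourier inversion
  have hinv : ∀ x a : B, (Fintype.card B : ℂ) * K x (x + a) =
      ∑ χ : AddChar B ℂ, (∑ y, K y (y + a) * χ y) * χ (-x) := by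
    intro x a
    have h1 : ∀ χ : AddChar B ℂ, (∑ y, K y (y + a) * χ y) * χ (-x) =
        ∑ y, K y (y + a) * χ (y - x) := by
      intro χ
      rw [Finset.sum_mul]
      refine Finset.sum_congr rfl fun y _ => ?_
      rw [mul_assoc, ← AddChar.map_add_eq_mul, sub_eq_add_neg]
    rw [Finset.sum_congr rfl fun χ _ => h1 χ, Finset.sum_comm]
    have h2 : ∀ y, ∑ χ : AddChar B ℂ, K y (y + a) * χ (y - x) =
        if y = x then (Fintype.card B : ℂ) * K x (x + a) else 0 := by
      intro y
      rw [← Finset.mul_sum, AddChar.sum_apply_eq_ite]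
      by_cases hy : y = x
      · subst hy
        simp [mul_comm]
      · rw [if_neg (by rwa [sub_eq_zero]), if_neg hy, mul_zero]
    rw [Finset.sum_congr rfl fun y _ => h2 y]
    simp
  set g : B → AddChar B ℂ → ℂ := fun a χ => ∑ x, K x (x + a) * χ x with hg
  have hg0 : g 0 0 = 1 := by
    rw [← h0]
    simp [hg]
  have hmain : ∀ η : AddChar B ℂ, (Fintype.card B : ℂ) * (μ * g 0 η) =
      ∑ x, ∑ χ : AddChar B ℂ, g (x + x) χ * χ x * η x := by
    intro η
    rw [hg]
    simp only [add_zero]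
    rw [Finset.mul_sum, Finset.mul_sum]
    refine Finset.sum_congr rfl fun x _ => ?_
    have h1 := hinv (-x) (x + x)
    rw [show -x + (x + x) = x by abel, hpar, neg_neg] at h1
    rw [← Finset.sum_mul, ← h1]
    ring
  have hDs : (Real.sqrt (D : ℝ)) ^ 2 = D := Real.sq_sqrt (Nat.cast_nonneg D)
  have hDpos : 0 < Real.sqrt (D : ℝ) := Real.sqrt_pos.2 (by exact_mod_cast hD)
  set R : ℝ := Real.sqrt (D : ℝ) with hR
  have hRC : (R : ℂ) ^ 2 = D := by exact_mod_cast hDs
  have hRne : (R : ℂ) ≠ 0 := by exact_mod_cast hDpos.ne'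
  have hterm : ∀ (x : B) (χ : AddChar B ℂ), ¬ (x = 0 ∧ χ = 0) →
      ((R : ℂ) * (g (x + x) χ * χ x) = 1 ∨ (R : ℂ) * (g (x + x) χ * χ x) = -1) := by
    intro x χ hne
    have h1 := hsq (x + x) χ (fun hc => hne ⟨odd_double hodd hc.1, hc.2⟩)
    apply mul_self_eq_one_iff.1
    have h2 : χ (x + x) = χ x ^ 2 := by rw [AddChar.map_add_eq_mul, sq]
    rw [h2, ← hRC] at h1
    show (R : ℂ) * (g (x + x) χ * χ x) * ((R : ℂ) * (g (x + x) χ * χ x)) = 1
    linear_combination h1
  have hex : ∀ (x : B) (χ : AddChar B ℂ), ∃ s : ℤ, s ^ 2 ≤ 1 ∧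
      (R : ℂ) * (g (x + x) χ * χ x) = s + (if x = 0 ∧ χ = 0 then (R : ℂ) else 0) ∧
      (x = 0 ∧ χ = 0 → s = 0) := by
    intro x χ
    by_cases hq : x = 0 ∧ χ = 0
    · refine ⟨0, by norm_num, ?_, fun _ => rfl⟩
      rw [if_pos hq, hq.1, hq.2, add_zero, hg0]
      simp
    · rcases hterm x χ hq with h | h
      · exact ⟨1, by norm_num, by rw [h, if_neg hq]; simp, fun hc => absurd hc hq⟩
      · exact ⟨-1, by norm_num, by rw [h, if_neg hq]; simp, fun hc => absurd hc hq⟩
  choose s hs1 hs2 hs3 using hex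
  have hcardχ : Fintype.card (AddChar B ℂ) = Fintype.card B := AddChar.card_eq
  obtain ⟨l, hl1, hl2⟩ : ∃ l : ℤ, (l = 1 ∨ l = -1) ∧ μ = l := by
    rcases hμ with h | h
    · exact ⟨1, Or.inl rfl, by rw [h]; simp⟩
    · exact ⟨-1, Or.inr rfl, by rw [h]; simp⟩
  set S : ℤ := ∑ x : B, ∑ χ : AddChar B ℂ, s x χ with hS
  have hSeq : (R : ℂ) * ((Fintype.card B : ℂ) * l - 1) = S := by
    have h1 := hmain 0
    rw [hg0, mul_one, hl2] at h1
    have h2 : (R : ℂ) * ((Fintype.card B : ℂ) * l) =
        ∑ x, ∑ χ : AddChar B ℂ, ((s x χ : ℂ) + (if x = 0 ∧ χ = 0 then (R : ℂ) else 0)) := by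
      rw [h1, Finset.mul_sum]
      refine Finset.sum_congr rfl fun x _ => ?_
      rw [Finset.mul_sum]
      refine Finset.sum_congr rfl fun χ _ => ?_
      rw [← hs2, AddChar.zero_apply, mul_one]
    simp only [Finset.sum_add_distrib] at h2
    have h3 : ∑ x : B, ∑ χ : AddChar B ℂ, (if x = 0 ∧ χ = 0 then (R : ℂ) else 0) = R := by
      have : ∀ x : B, ∑ χ : AddChar B ℂ, (if x = 0 ∧ χ = 0 then (R : ℂ) else 0) =
          if x = 0 then (R : ℂ) else 0 := by
        intro x
        by_cases hx : x = 0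
        · simp [hx]
        · simp [hx]
      rw [Finset.sum_congr rfl fun x _ => this x]
      simp
    rw [h3] at h2
    rw [hS]
    push_cast
    linear_combination h2
  have hz0 : (Fintype.card B : ℤ) * l - 1 ≠ 0 := by
    rcases hl1 with h | h <;> rw [h] <;> omega
  obtain ⟨m, hm⟩ : ∃ m : ℕ, m ^ 2 = D := by
    apply isSquare_of_mul_sq hz0 (k := S)
    have h1 : ((D : ℕ) : ℂ) * ((Fintype.card B : ℂ) * l - 1) ^ 2 = (S : ℂ) ^ 2 := by
      rw [← hSeq, ← hRC]; ring
    exact_mod_cast h1
  have hmR : (m : ℝ) = R := by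
    rw [hR, ← hm]
    push_cast
    rw [Real.sqrt_sq (Nat.cast_nonneg m)]
  refine ⟨m, hm, ?_, ?_⟩
  · -- parity
    obtain ⟨b0, hb0⟩ : ∃ b : B, b ≠ 0 := by
      have := Fintype.one_lt_card_iff_nontrivial.1 hB
      exact _root_.exists_ne (0 : B)
    obtain ⟨η, hη⟩ := (AddChar.exists_apply_ne_zero (a := b0)).2 hb0
    have hη0 : η ≠ 0 := by
      rintro rfl
      exact hη rfl
    have hsum0 : ∑ x, η x = 0 := (AddChar.sum_eq_zero_iff_ne_zero).2 hη0
    have hsodd : ∀ x χ, ∃ e : ℤ, s x χ = (1 - 2 * e) - (if x = 0 ∧ χ = 0 then 1 else 0) := by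
      intro x χ
      by_cases hq : x = 0 ∧ χ = 0
      · exact ⟨0, by rw [hs3 x χ hq, if_pos hq]; norm_num⟩
      · have h1 := hs2 x χ
        rw [if_neg hq, add_zero] at h1
        rcases hterm x χ hq with h | h
        · rw [h] at h1
          have h2 : s x χ = 1 := by exact_mod_cast h1.symm
          exact ⟨0, by rw [h2, if_neg hq]; norm_num⟩
        · rw [h] at h1
          have h2 : s x χ = -1 := by
            have : ((s x χ : ℤ) : ℂ) = ((-1 : ℤ) : ℂ) := by rw [← h1]; simp
            exact_mod_cast this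
          exact ⟨1, by rw [h2, if_neg hq]; norm_num⟩
    choose e he using hsodd
    obtain ⟨t, ht1, ht2⟩ : ∃ t : ℤ, (t = 1 ∨ t = -1) ∧ (R : ℂ) * g 0 η = t := by
      have h1 := hterm 0 η (fun hc => hη0 hc.2)
      rw [add_zero, AddChar.map_zero_eq_one, mul_one] at h1
      rcases h1 with h | h
      · exact ⟨1, Or.inl rfl, by rw [h]; simp⟩
      · exact ⟨-1, Or.inr rfl, by rw [h]; simp⟩
    have hmC : (R : ℂ) = m := by rw [← hmR]; simp
    have h1 := hmain η
    have h2 : (Fintype.card B : ℂ) * (l * t) =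
        ∑ x, ∑ χ : AddChar B ℂ, ((1 - 2 * (e x χ : ℂ)) * η x +
          (if x = 0 ∧ χ = 0 then ((m : ℂ) - 1) else 0)) := by
      calc (Fintype.card B : ℂ) * (l * t) =
          (R : ℂ) * ((Fintype.card B : ℂ) * (μ * g 0 η)) := by rw [← ht2, hl2]; ring
        _ = _ := by
          rw [h1, Finset.mul_sum]
          refine Finset.sum_congr rfl fun x _ => ?_
          rw [Finset.mul_sum]
          refine Finset.sum_congr rfl fun χ _ => ?_
          rw [← mul_assoc, hs2, he, hmC]
          by_cases hq : x = 0 ∧ χ = 0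
          · simp only [if_pos hq]
            rw [hq.1, AddChar.map_zero_eq_one]
            push_cast
            ring
          · simp only [if_neg hq]
            push_cast
            ring
    simp only [Finset.sum_add_distrib] at h2
    have h3 : ∑ x : B, ∑ χ : AddChar B ℂ, (if x = 0 ∧ χ = 0 then ((m : ℂ) - 1) else 0) =
        (m : ℂ) - 1 := by
      have : ∀ x : B, ∑ χ : AddChar B ℂ, (if x = 0 ∧ χ = 0 then ((m : ℂ) - 1) else 0) =
          if x = 0 then ((m : ℂ) - 1) else 0 := by
        intro x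
        by_cases hx : x = 0
        · simp [hx]
        · simp [hx]
      rw [Finset.sum_congr rfl fun x _ => this x]
      simp
    rw [h3] at h2
    have h4 : ∑ x, ∑ χ : AddChar B ℂ, (1 - 2 * (e x χ : ℂ)) * η x =
        2 * (-∑ x, ((∑ χ : AddChar B ℂ, e x χ : ℤ) : ℂ) * η x) := by
      have h5 : ∀ x, ∑ χ : AddChar B ℂ, (1 - 2 * (e x χ : ℂ)) * η x =
          (Fintype.card B : ℂ) * η x +
            2 * (-(((∑ χ : AddChar B ℂ, e x χ : ℤ) : ℂ) * η x)) := by
        intro x
        rw [← Finset.sum_mul, Finset.sum_sub_distrib, ← Finset.mul_sum]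
        have h2 : ∑ _χ : AddChar B ℂ, (1 : ℂ) = Fintype.card B := by
          rw [Finset.sum_const, Finset.card_univ, AddChar.card_eq, nsmul_eq_mul, mul_one]
        rw [h2]
        push_cast
        ring
      rw [Finset.sum_congr rfl fun x _ => h5 x, Finset.sum_add_distrib, ← Finset.mul_sum, hsum0,
        mul_zero, zero_add, ← Finset.mul_sum, Finset.sum_neg_distrib]
    rw [h4] at h2
    have hint : IsIntegral ℤ (-∑ x, ((∑ χ : AddChar B ℂ, e x χ : ℤ) : ℂ) * η x) := by
      apply IsIntegral.neg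
      apply IsIntegral.sum
      intro x _
      apply IsIntegral.mul
      · exact isIntegral_algebraMap (R := ℤ) (A := ℂ) (x := (∑ χ : AddChar B ℂ, e x χ : ℤ))
      · apply IsIntegral.of_pow (n := Fintype.card B) Fintype.card_pos
        rw [char_pow_card]
        exact isIntegral_one
    have h6 := two_dvd_of (b := (Fintype.card B : ℤ) * (l * t) - (m - 1)) hint (by
      push_cast at h2 ⊢
      linear_combination h2)
    obtain ⟨r, hr⟩ := hodd
    by_contra hc
    rw [Nat.not_even_iff_odd] at hc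
    obtain ⟨q, hq⟩ := hc
    rcases hl1 with h | h <;> rcases ht1 with h' | h' <;> rw [h, h', hr, hq] at h6 <;>
      push_cast at h6 <;> omega
  · -- bound
    have hSle : |S| ≤ (Fintype.card B : ℤ) ^ 2 - 1 := by
      have h1 : |S| ≤ ∑ x : B, ∑ χ : AddChar B ℂ, (if x = 0 ∧ χ = 0 then (0 : ℤ) else 1) := by
        rw [hS]
        refine (Finset.abs_sum_le_sum_abs _ _).trans (Finset.sum_le_sum fun x _ => ?_)
        refine (Finset.abs_sum_le_sum_abs _ _).trans (Finset.sum_le_sum fun χ _ => ?_)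
        by_cases hq : x = 0 ∧ χ = 0
        · rw [if_pos hq, hs3 x χ hq, abs_zero]
        · rw [if_neg hq]
          have := hs1 x χ
          exact (sq_le_one_iff_abs_le_one _).1 this
      have h2 : ∑ x : B, ∑ χ : AddChar B ℂ, (if x = 0 ∧ χ = 0 then (0 : ℤ) else 1) =
          (Fintype.card B : ℤ) ^ 2 - 1 := by
        have h3 : ∀ (x : B) (χ : AddChar B ℂ), (if x = 0 ∧ χ = 0 then (0 : ℤ) else 1) =
            1 - (if x = 0 ∧ χ = 0 then (1 : ℤ) else 0) := by
          intro x χ
          by_cases hq : x = 0 ∧ χ = 0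
          · rw [if_pos hq, if_pos hq]; norm_num
          · rw [if_neg hq, if_neg hq]; norm_num
        rw [Finset.sum_congr rfl fun x _ => Finset.sum_congr rfl fun χ _ => h3 x χ]
        simp only [Finset.sum_sub_distrib]
        have h4 : ∑ x : B, ∑ χ : AddChar B ℂ, (if x = 0 ∧ χ = 0 then (1 : ℤ) else 0) = 1 := by
          have : ∀ x : B, ∑ χ : AddChar B ℂ, (if x = 0 ∧ χ = 0 then (1 : ℤ) else 0) =
              if x = 0 then (1 : ℤ) else 0 := by
            intro x
            by_cases hx : x = 0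
            · simp [hx]
            · simp [hx]
          rw [Finset.sum_congr rfl fun x _ => this x]
          simp
        rw [h4]
        simp only [Finset.sum_const, Finset.card_univ, hcardχ, nsmul_eq_mul, mul_one]
        ring
      rw [h2] at h1
      exact h1
    have h1 : (m : ℤ) * |(Fintype.card B : ℤ) * l - 1| = |S| := by
      have h2 : (m : ℤ) * ((Fintype.card B : ℤ) * l - 1) = S := by
        have hmC : (R : ℂ) = m := by rw [← hmR]; simp
        rw [hmC] at hSeq
        exact_mod_cast hSeq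
      rw [← h2, abs_mul, Nat.abs_cast]
    rw [← h1] at hSle
    have hb1 : (1 : ℤ) < Fintype.card B := by exact_mod_cast hB
    have h3 : (m : ℤ) ≤ (Fintype.card B : ℤ) + 1 := by
      rcases hl1 with h | h
      · rw [h, mul_one, abs_of_pos (by linarith)] at hSle
        by_contra hc
        push Not at hc
        nlinarith
      · rw [h, show (Fintype.card B : ℤ) * -1 - 1 = -((Fintype.card B : ℤ) + 1) by ring, abs_neg,
          abs_of_pos (by linarith)] at hSle
        by_contra hc
        push Not at hc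
        nlinarith
    exact_mod_cast h3

end

/-- number theory for prime powers -/
theorem fac_num {p k c m : ℕ} (hp : p.Prime) (hp2 : p ≠ 2) (hk : 1 < p ^ k)
    (hm : m ^ 2 = c * p ^ k + 1) (hme : Even m) (hle : m ≤ p ^ k + 1) :
    c = p ^ k + 2 ∨ c + 2 = p ^ k := by
  have hm0 : m ≠ 0 := by
    rintro rfl
    simp at hm
  obtain ⟨n, rfl⟩ : ∃ n, m = n + 1 := ⟨m - 1, by omega⟩
  have hno : Odd n := by
    rcases Nat.even_or_odd n with h | h
    · exact absurd hme (Nat.not_even_iff_odd.2 h.add_one)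
    · exact h
  have hn0 : 0 < n := hno.pos
  have h1 : n * (n + 2) = c * p ^ k := by
    have : (n + 1) ^ 2 = n * (n + 2) + 1 := by ring
    omega
  have hcop : Nat.Coprime n (n + 2) := by
    rw [Nat.coprime_self_add_right]
    exact Nat.coprime_two_right.2 hno
  have h2 : p ^ k ∣ n * (n + 2) := by rw [h1]; exact Dvd.intro_left _ rfl
  have h3 : p ^ k ∣ n ∨ p ^ k ∣ n + 2 := by
    by_cases hpn : p ∣ n
    · left
      have h4 : Nat.Coprime (p ^ k) (n + 2) := by
        apply Nat.Coprime.pow_left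
        exact Nat.Coprime.coprime_dvd_left hpn hcop
      exact h4.dvd_of_dvd_mul_right h2
    · right
      have h4 : Nat.Coprime (p ^ k) n := by
        apply Nat.Coprime.pow_left
        exact (Nat.Prime.coprime_iff_not_dvd hp).2 hpn
      exact h4.dvd_of_dvd_mul_left h2
  rcases h3 with h | h
  · have h5 := Nat.le_of_dvd hn0 h
    have h6 : n = p ^ k := by omega
    left
    rw [← h6] at h1
    have h7 : n * (n + 2) = n * c := by rw [h1]; ring
    rw [← h6]
    exact (Nat.eq_of_mul_eq_mul_left hn0 h7).symm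
  · right
    have h5 : n + 2 = p ^ k := by
      obtain ⟨j, hj⟩ := h
      have hj0 : j ≠ 0 := by rintro rfl; omega
      obtain ⟨r, hr⟩ := (hp.odd_of_ne_two hp2).pow (n := k)
      have hj1 : j < 2 := by
        by_contra hc
        have : 2 ≤ j := by omega
        have h8 : p ^ k * 2 ≤ p ^ k * j := Nat.mul_le_mul_left _ this
        omega
      have : j = 1 := by omega
      rw [this, mul_one] at hj
      exact hj
    rw [← h5] at h1
    have h7 : n * (n + 2) = c * (n + 2) := h1
    have h8 := Nat.eq_of_mul_eq_mul_right (by omega) h7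
    omega

end Pool.Agent.helper391_PS
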