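import Mathlib
import Pool.Agent.helper391_PS.Fac

set_option autoImplicit false

/-! Symmetries inverting a direct factor of odd order, continued. -/

namespace Pool.Agent.helper391_PS

open Finset
open scoped ComplexConjugate Classical

section
variable {A : Type} [AddCommGroup A] [Fintype A]

theorem oper_gen (τ : A →+ A) (hτ : ∀ x, τ (τ x) = x) (U : (A → ℂ) →ₗ[ℂ] (A → ℂ)) (hU : U ≠ 0)
    (h : ∀ (a : A) (χ : AddChar A ℂ), ∃ c : ℂ, ∀ φ,
      U (dis a χ φ) = c • dis (τ a) (χ.compAddMonoidHom τ) (U φ)) :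
    ∃ (b : A) (η : AddChar A ℂ) (k : ℂ), k ≠ 0 ∧
      ∀ φ x, U φ x = k * η (τ x + b) * φ (τ x + b) := by
  set K : A → A → ℂ := fun x y => U (Pi.single y 1) x with hK
  have hsum : ∀ φ x, U φ x = ∑ y, φ y * K x y := by
    intro φ x
    have h1 : φ = ∑ y, φ y • (Pi.single y 1 : A → ℂ) := by
      ext z
      rw [Finset.sum_apply]
      simp [Pi.single_apply]
    conv_lhs => rw [h1]
    rw [map_sum, Finset.sum_apply]
    refine Finset.sum_congr rfl fun y _ => ?_
    rw [map_smul, Pi.smul_apply, smul_eq_mul]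
  obtain ⟨x0, y0, h0⟩ : ∃ x0 y0, K x0 y0 ≠ 0 := by
    by_contra hc
    push Not at hc
    apply hU
    ext φ x
    simp only [LinearMap.comp_apply]
    rw [hsum]
    simp [hc]
  -- support
  have hchar : ∀ χ : AddChar A ℂ, ∃ c : ℂ, ∀ x y, K x y ≠ 0 → c = χ (y - τ x) := by
    intro χ
    obtain ⟨c, hc⟩ := h 0 χ
    refine ⟨c, fun x y hxy => ?_⟩
    have h1 := congrFun (hc (Pi.single y 1)) x
    have h2 : dis 0 χ (Pi.single y 1 : A → ℂ) = χ y • (Pi.single y 1 : A → ℂ) := by
      ext z
      simp only [dis, sub_zero, Pi.smul_apply, smul_eq_mul]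
      by_cases hz : z = y
      · rw [hz]
      · rw [Pi.single_eq_of_ne hz, mul_zero, mul_zero]
    rw [h2, map_smul, Pi.smul_apply, smul_eq_mul, Pi.smul_apply, smul_eq_mul] at h1
    have h3 : dis (τ 0) (χ.compAddMonoidHom τ) (U (Pi.single y 1)) x = χ (τ x) * K x y := by
      simp only [dis, map_zero, sub_zero, AddChar.compAddMonoidHom_apply, hK]
    rw [h3] at h1
    have h4 : χ y * K x y = (c * χ (τ x)) * K x y := by
      rw [mul_assoc]; exact h1
    have h5 := mul_right_cancel₀ hxy h4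
    rw [sub_eq_add_neg, AddChar.map_add_eq_mul, h5]
    have e1 : χ (τ x) * χ (-τ x) = 1 := by
      rw [← AddChar.map_add_eq_mul, add_neg_cancel, AddChar.map_zero_eq_one]
    linear_combination (-c) * e1
  set b := y0 - τ x0 with hb
  have hsupp : ∀ x y, K x y ≠ 0 → y - τ x = b := by
    intro x y hxy
    by_contra hne
    obtain ⟨χ, hχ⟩ := (AddChar.exists_apply_ne_zero (a := y - τ x - b)).2 (sub_ne_zero.2 hne)
    apply hχ
    obtain ⟨c, hc⟩ := hchar χ
    have h1 : χ (y - τ x) = χ b := (hc x y hxy).symm.trans (hc x0 y0 h0)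
    rw [AddChar.map_sub_eq_div, h1, div_self]
    intro h2
    have := AddChar.norm_apply χ b
    rw [h2, norm_zero] at this
    norm_num at this
  set k : A → ℂ := fun y => K (τ (y - b)) y with hk
  have hU2 : ∀ φ x, U φ x = k (τ x + b) * φ (τ x + b) := by
    intro φ x
    rw [hsum, Finset.sum_eq_single (τ x + b)]
    · rw [hk]
      simp only [add_sub_cancel_right, hτ]
      ring
    · intro y _ hy
      have : K x y = 0 := by
        by_contra hne
        apply hy
        rw [← hsupp x y hne]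
        abel
      rw [this, mul_zero]
    · intro hc
      exact absurd (Finset.mem_univ _) hc
  have htr : ∀ a : A, ∃ c : ℂ, ∀ y, k (y + a) = c * k y := by
    intro a
    obtain ⟨c, hc⟩ := h a 0
    refine ⟨c, fun y => ?_⟩
    have h1 := congrFun (hc (Pi.single y 1)) (τ (y + a - b))
    rw [hU2, hτ, sub_add_cancel, Pi.smul_apply, smul_eq_mul] at h1
    have h2 : dis a 0 (Pi.single y 1 : A → ℂ) (y + a) = 1 := by
      simp [dis]
    have h3 : dis (τ a) ((0 : AddChar A ℂ).compAddMonoidHom τ) (U (Pi.single y 1))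
        (τ (y + a - b)) = k y := by
      simp only [dis, AddChar.compAddMonoidHom_apply, AddChar.zero_apply, one_mul]
      rw [hU2, map_sub, hτ, hτ, show y + a - b - a + b = y by abel, Pi.single_eq_same, mul_one]
    rw [h2, h3, mul_one] at h1
    exact h1
  choose c hc using htr
  have hk0 : k y0 ≠ 0 := by
    have : k y0 = K x0 y0 := by
      rw [hk]; simp only
      rw [hb, sub_sub_cancel, hτ]
    rw [this]; exact h0
  have hc0 : c 0 = 1 := by
    have h1 := hc 0 y0
    rw [add_zero] at h1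
    exact (mul_right_cancel₀ hk0 (by rw [one_mul]; exact h1)).symm
  have hcadd : ∀ a a', c (a + a') = c a * c a' := by
    intro a a'
    have h1 := hc (a + a') y0
    rw [← add_assoc, hc a' (y0 + a), hc a y0] at h1
    apply mul_right_cancel₀ hk0
    rw [← h1]; ring
  let η : AddChar A ℂ := ⟨c, hc0, hcadd⟩
  have hη : ∀ a, η a = c a := fun a => rfl
  refine ⟨b, η, k 0, ?_, ?_⟩
  · intro hz
    apply hk0
    have := hc y0 0
    rw [zero_add, hz, mul_zero] at this
    exact this
  · intro φ x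
    rw [hU2, hη]
    have := hc (τ x + b) 0
    rw [zero_add] at this
    rw [this]; ring

/-- generalised symmetry -/
def DT (ψ : A → ℂ) (τ : A →+ A) (b : A) (κ : AddChar A ℂ) (l : ℂ) : Prop :=
  ∀ x, ψ (τ x + b) = l * κ x * ψ x

/-- the bijection underlying a symmetry -/
def tauEquiv (τ : A →+ A) (hτ : ∀ x, τ (τ x) = x) (b : A) : A ≃ A :=
  ⟨fun x => τ x + b, fun y => τ (y - b), fun x => by simp [hτ], fun y => by simp [hτ]⟩

theorem dt_norm {ψ : A → ℂ} (h : Fid ψ) {τ : A →+ A} (hτ : ∀ x, τ (τ x) = x) {b : A}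
    {κ : AddChar A ℂ} {l : ℂ} (hp : DT ψ τ b κ l) : l * conj l = 1 := by
  have h1 : ‖l‖ ^ 2 = 1 := by
    have h2 := h.unit
    rw [← Equiv.sum_comp (tauEquiv τ hτ b)] at h2
    have h3 : ∀ x, ‖ψ (tauEquiv τ hτ b x)‖ ^ 2 = ‖l‖ ^ 2 * ‖ψ x‖ ^ 2 := by
      intro x
      show ‖ψ (τ x + b)‖ ^ 2 = _
      rw [hp x, norm_mul, norm_mul, AddChar.norm_apply, mul_one, mul_pow]
    rw [Finset.sum_congr rfl fun x _ => h3 x, ← Finset.mul_sum, h.unit, mul_one] at h2
    exact h2
  rw [Complex.mul_conj, Complex.normSq_eq_norm_sq, h1, Complex.ofReal_one]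

theorem ov_dt {ψ : A → ℂ} (h : Fid ψ) {τ : A →+ A} (hτ : ∀ x, τ (τ x) = x) {b : A}
    {κ : AddChar A ℂ} {l : ℂ} (hp : DT ψ τ b κ l) (a : A) (χ : AddChar A ℂ) :
    ov ψ a χ = κ (-τ a) * χ b * ov ψ (τ a) (χ.compAddMonoidHom τ) := by
  unfold ov
  rw [Finset.mul_sum, ← Equiv.sum_comp (tauEquiv τ hτ b)]
  refine Finset.sum_congr rfl fun x _ => ?_
  show ψ (τ x + b) * conj (ψ (τ x + b + a)) * χ (τ x + b) = _
  rw [show τ x + b + a = τ (x + τ a) + b by rw [map_add, hτ]; abel, hp, hp,
    AddChar.compAddMonoidHom_apply, AddChar.map_add_eq_mul χ]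
  simp only [map_mul]
  rw [char_conj, show -(x + τ a) = -x + -τ a by abel, AddChar.map_add_eq_mul]
  have h1 : κ x * κ (-x) = 1 := by
    rw [← AddChar.map_add_eq_mul, add_neg_cancel, AddChar.map_zero_eq_one]
  have h2 := dt_norm h hτ hp
  linear_combination (ψ x * conj (ψ (x + τ a)) * κ (-τ a) * χ (τ x) * χ b) *
    (κ x * κ (-x) * h2 + h1)

theorem shift_fid {ψ : A → ℂ} (h : Fid ψ) (c : A) (κ : AddChar A ℂ) :
    Fid (fun x => κ x * ψ (x + c)) := by
  refine ⟨?_, ?_⟩
  · rw [← h.unit, ← Equiv.sum_comp (Equiv.addRight c) (fun x => ‖ψ x‖ ^ 2)]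
    refine Finset.sum_congr rfl fun x _ => ?_
    rw [norm_mul, AddChar.norm_apply, one_mul]
    rfl
  · intro a χ hne
    have h1 : ov (fun x => κ x * ψ (x + c)) a χ = κ (-a) * χ (-c) * ov ψ a χ := by
      unfold ov
      rw [Finset.mul_sum, ← Equiv.sum_comp (Equiv.addRight c)
        (fun x => κ (-a) * χ (-c) * (ψ x * conj (ψ (x + a)) * χ x))]
      refine Finset.sum_congr rfl fun x _ => ?_
      simp only [Equiv.coe_addRight, map_mul]
      rw [char_conj, show x + c + a = x + a + c by abel, show -(x + a) = -x + -a by abel,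
        AddChar.map_add_eq_mul, AddChar.map_add_eq_mul χ]
      have e1 : κ x * κ (-x) = 1 := by
        rw [← AddChar.map_add_eq_mul, add_neg_cancel, AddChar.map_zero_eq_one]
      have e2 : χ (-c) * χ c = 1 := by
        rw [← AddChar.map_add_eq_mul, neg_add_cancel, AddChar.map_zero_eq_one]
      linear_combination (ψ (x + c) * κ (-a) * conj (ψ (x + a + c)) * χ x) * (e1 - e2)
    rw [h1, norm_mul, norm_mul, AddChar.norm_apply, AddChar.norm_apply, one_mul, one_mul]
    exact h.ang a χ hne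

end

section
variable {C B : Type} [AddCommGroup C] [Fintype C] [AddCommGroup B] [Fintype B]

/-- inversion of the second factor -/
def flipHom (C B : Type) [AddCommGroup C] [AddCommGroup B] : C × B →+ C × B :=
  (AddMonoidHom.id C).prodMap (negAddMonoidHom : B →+ B)

omit [Fintype C] [Fintype B] in
theorem flip_apply (x : C) (y : B) : flipHom C B (x, y) = (x, -y) := rfl

omit [Fintype C] [Fintype B] in
theorem flip_flip (x : C × B) : flipHom C B (flipHom C B x) = x := by
  obtain ⟨x, y⟩ := x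
  rw [flip_apply, flip_apply, neg_neg]

theorem partial_main (hodd : Odd (Fintype.card B)) (hB : 1 < Fintype.card B) {ψ : C × B → ℂ}
    (h : Fid ψ) {μ : ℂ} (hp : ∀ x y, ψ (x, -y) = μ * ψ (x, y)) :
    ∃ m : ℕ, m ^ 2 = Fintype.card C * Fintype.card B + 1 ∧ Even m ∧
      m ≤ Fintype.card B + 1 := by
  have hμ : μ = 1 ∨ μ = -1 := by
    obtain ⟨⟨x, y⟩, hx⟩ := exists_ne h
    have h1 : μ * μ * ψ (x, y) = 1 * ψ (x, y) := by
      rw [one_mul, mul_assoc, ← hp, ← hp, neg_neg]
    exact mul_self_eq_one_iff.1 (mul_right_cancel₀ hx h1)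
  have hμ2 : μ * conj μ = 1 := by
    rcases hμ with h1 | h1 <;> rw [h1] <;> simp
  have hcard : Fintype.card (C × B) = Fintype.card C * Fintype.card B := Fintype.card_prod C B
  have hov : ∀ (a : B) (χ : AddChar B ℂ),
      ov ψ (0, a) (χ.compAddMonoidHom (AddMonoidHom.snd C B)) =
        ∑ x, (∑ z : C, ψ (z, x) * conj (ψ (z, x + a))) * χ x := by
    intro a χ
    unfold ov
    rw [Fintype.sum_prod_type_right]
    refine Finset.sum_congr rfl fun x _ => ?_
    rw [Finset.sum_mul]
    refine Finset.sum_congr rfl fun z _ => ?_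
    simp [AddChar.compAddMonoidHom_apply]
  refine flat2 hodd hB (fun x y => ∑ z : C, ψ (z, x) * conj (ψ (z, y))) μ
    (Fintype.card C * Fintype.card B + 1) (Nat.succ_pos _) hμ ?_ ?_ ?_
  · intro x y
    rw [Finset.mul_sum]
    refine Finset.sum_congr rfl fun z _ => ?_
    rw [hp]; ring
  · have h1 := hov 0 0
    have h2 : ((0 : AddChar B ℂ).compAddMonoidHom (AddMonoidHom.snd C B)) = 0 := by
      ext x; simp [AddChar.compAddMonoidHom_apply]
    rw [h2, show ((0 : C), (0 : B)) = 0 from rfl, ov_zero h] at h1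
    rw [h1]
    simp
  · intro a χ hne
    set Χ := χ.compAddMonoidHom (AddMonoidHom.snd C B) with hX
    have hne2 : (((0 : C), a), Χ) ≠ ((0 : C × B), (0 : AddChar (C × B) ℂ)) := by
      intro hc
      apply hne
      obtain ⟨h1, h2⟩ := Prod.mk.inj hc
      refine ⟨congrArg Prod.snd h1, ?_⟩
      ext y
      have := DFunLike.congr_fun h2 ((0 : C), y)
      rw [hX, AddChar.compAddMonoidHom_apply] at this
      exact this
    have h1 := conj_ov ψ ((0 : C), a) Χ
    have h2 : ov ψ (-((0 : C), a)) (-Χ) = ov ψ ((0 : C), a) Χ := by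
      have h3 : -Χ = (-χ).compAddMonoidHom (AddMonoidHom.snd C B) := by
        ext x
        rw [AddChar.neg_apply, hX, AddChar.compAddMonoidHom_apply, AddChar.compAddMonoidHom_apply,
          AddChar.neg_apply, map_neg]
      rw [h3, hX, show -((0 : C), a) = ((0 : C), -a) by rw [Prod.neg_mk, neg_zero], hov, hov,
        ← Equiv.sum_comp (Equiv.neg B)]
      refine Finset.sum_congr rfl fun x _ => ?_
      simp only [Equiv.neg_apply]
      rw [AddChar.neg_apply, neg_neg]
      congr 1
      refine Finset.sum_congr rfl fun z _ => ?_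
      rw [show -x + -a = -(x + a) by abel, hp, hp, map_mul]
      linear_combination (ψ (z, x) * conj (ψ (z, x + a))) * hμ2
    rw [h2] at h1
    have h4 : ov ψ ((0 : C), a) Χ * conj (ov ψ ((0 : C), a) Χ) =
        ((‖ov ψ ((0 : C), a) Χ‖ ^ 2 : ℝ) : ℂ) := by
      rw [Complex.mul_conj, Complex.normSq_eq_norm_sq]
    rw [h.ang _ _ hne2, h1, hcard] at h4
    have h5 : Χ ((0 : C), a) = χ a := by
      rw [hX, AddChar.compAddMonoidHom_apply]; rfl
    rw [h5] at h4
    have h6 : ((Fintype.card C * Fintype.card B + 1 : ℕ) : ℂ) ≠ 0 :=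
      Nat.cast_ne_zero.2 (Nat.succ_ne_zero _)
    rw [← hov]
    calc ov ψ (0, a) Χ ^ 2 * χ a * ((Fintype.card C * Fintype.card B + 1 : ℕ) : ℂ) =
        (ov ψ (0, a) Χ * (χ a * ov ψ (0, a) Χ)) *
          ((Fintype.card C * Fintype.card B + 1 : ℕ) : ℂ) := by ring
      _ = 1 := by
        rw [h4]
        push_cast at h6 ⊢
        field_simp

theorem dt_main (hodd : Odd (Fintype.card B)) (hB : 1 < Fintype.card B) {ψ : C × B → ℂ}
    (h : Fid ψ) {b : C × B} {κ : AddChar (C × B) ℂ} {l : ℂ}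
    (hp : DT ψ (flipHom C B) b κ l) :
    ∃ m : ℕ, m ^ 2 = Fintype.card C * Fintype.card B + 1 ∧ Even m ∧
      m ≤ Fintype.card B + 1 := by
  obtain ⟨bC, bB⟩ := b
  have hbC : bC = 0 := by
    by_contra hne
    obtain ⟨χ, hχ⟩ := (AddChar.exists_apply_ne_zero (a := bC)).2 hne
    have h1 := ov_dt h flip_flip hp 0 (χ.compAddMonoidHom (AddMonoidHom.fst C B))
    have h2 : (χ.compAddMonoidHom (AddMonoidHom.fst C B)).compAddMonoidHom (flipHom C B) =
        χ.compAddMonoidHom (AddMonoidHom.fst C B) := by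
      ext x
      obtain ⟨x, y⟩ := x
      simp [AddChar.compAddMonoidHom_apply, flip_apply]
    rw [h2, map_zero, neg_zero, AddChar.map_zero_eq_one, one_mul] at h1
    have h3 : (χ.compAddMonoidHom (AddMonoidHom.fst C B)) (bC, bB) = χ bC := by
      simp [AddChar.compAddMonoidHom_apply]
    rw [h3] at h1
    have h4 : ov ψ 0 (χ.compAddMonoidHom (AddMonoidHom.fst C B)) ≠ 0 := by
      apply ov_ne h
      intro hc
      apply hχ
      have := DFunLike.congr_fun (congrArg Prod.snd hc) (bC, (0 : B))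
      simpa [AddChar.compAddMonoidHom_apply] using this
    apply hχ
    exact (mul_right_cancel₀ h4 (by rw [one_mul]; exact h1)).symm
  have hκC : ∀ a : C, κ (a, 0) = 1 := by
    intro a
    by_cases ha : a = 0
    · rw [ha]
      exact AddChar.map_zero_eq_one κ
    have h1 := ov_dt h flip_flip hp (-a, 0) 0
    have h2 : ((0 : AddChar (C × B) ℂ)).compAddMonoidHom (flipHom C B) = 0 := by
      ext x; simp [AddChar.compAddMonoidHom_apply]
    rw [h2, flip_apply, neg_zero, AddChar.zero_apply, mul_one, Prod.neg_mk, neg_neg,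
      neg_zero] at h1
    have h4 : ov ψ (-a, 0) 0 ≠ 0 := by
      apply ov_ne h
      intro hc
      apply ha
      have := congrArg (fun q => q.1.1) hc
      simpa using this
    exact (mul_right_cancel₀ h4 (by rw [one_mul]; exact h1)).symm
  subst hbC
  obtain ⟨r, hr⟩ := id hodd
  set c : B := (r + 1) • bB with hc
  have hcc : c + c = bB := by
    rw [← two_nsmul, hc, ← mul_smul, show 2 * (r + 1) = Fintype.card B + 1 by omega, add_smul,
      one_smul, card_nsmul_eq_zero, zero_add]
  clear_value c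
  set K : AddChar (C × B) ℂ := (r + 1) • κ with hK
  have hKC : ∀ a : C, K (a, 0) = 1 := by
    intro a
    rw [hK, AddChar.nsmul_apply, hκC, one_pow]
  have hKK : ∀ x, K x * K x = κ x := by
    rintro ⟨x, y⟩
    have h1 : κ (x, y) = κ (0, y) := by
      have : ((x, y) : C × B) = (x, 0) + (0, y) := by simp
      rw [this, AddChar.map_add_eq_mul, hκC, one_mul]
    rw [hK, AddChar.nsmul_apply, h1, ← pow_add, show r + 1 + (r + 1) = Fintype.card B + 1 by omega,
      pow_succ, ← AddChar.map_nsmul_eq_pow, Prod.smul_mk, card_nsmul_eq_zero, smul_zero]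
    have : κ ((0 : C), (0 : B)) = 1 := AddChar.map_zero_eq_one κ
    rw [this, one_mul]
  refine partial_main hodd hB (shift_fid h (0, c) K) (μ := l * κ (0, c)) ?_
  intro x y
  show K (x, -y) * ψ ((x, -y) + (0, c)) = l * κ (0, c) * (K (x, y) * ψ ((x, y) + (0, c)))
  have e1 : ((x, -y) : C × B) + (0, c) = flipHom C B ((x, y) + (0, c)) + (0, bB) := by
    rw [Prod.mk_add_mk, Prod.mk_add_mk, flip_apply, Prod.mk_add_mk, add_zero, add_zero, ← hcc]
    have e4 : -y + c = -(y + c) + (c + c) := by abel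
    exact congrArg (fun w => (x, w)) e4
  rw [e1, hp, AddChar.map_add_eq_mul κ]
  have e2 : K (x, -y) * κ (x, y) = K (x, y) := by
    rw [← hKK (x, y)]
    have e3 : K (x, -y) * K (x, y) = 1 := by
      rw [← AddChar.map_add_eq_mul, Prod.mk_add_mk, neg_add_cancel, hKC]
    linear_combination K (x, y) * e3
  linear_combination (l * κ (0, c) * ψ ((x, y) + (0, c))) * e2

/-- symmetries inverting the displacements of a direct factor of odd order and centralising those of
the complement -/
theorem fac_main (hodd : Odd (Fintype.card B)) (hB : 1 < Fintype.card B) {ψ : C × B → ℂ}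
    (hF : Fid ψ) (U : (C × B → ℂ) →ₗ[ℂ] (C × B → ℂ)) (hU : U ≠ 0)
    (h : ∀ (a : C × B) (χ : AddChar (C × B) ℂ), ∃ c : ℂ, ∀ φ,
      U (dis a χ φ) = c • dis (flipHom C B a) (χ.compAddMonoidHom (flipHom C B)) (U φ))
    (l : ℂ) (hl : U ψ = l • ψ) :
    ∃ m : ℕ, m ^ 2 = Fintype.card C * Fintype.card B + 1 ∧ Even m ∧
      m ≤ Fintype.card B + 1 := by
  obtain ⟨b, η, k, hk, hU2⟩ := oper_gen (flipHom C B) flip_flip U hU h
  refine dt_main (ψ := ψ) (b := b) (κ := -(η.compAddMonoidHom (flipHom C B)))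
    (l := l / k * η (-b)) hodd hB hF ?_
  intro x
  have h1 := congrFun hl x
  rw [hU2, Pi.smul_apply, smul_eq_mul] at h1
  have e0 : (-(η.compAddMonoidHom (flipHom C B))) x = η (-flipHom C B x) := by
    rw [AddChar.neg_apply, AddChar.compAddMonoidHom_apply, map_neg]
  have e1 : η (flipHom C B x + b) * (η (-b) * η (-flipHom C B x)) = 1 := by
    rw [← AddChar.map_add_eq_mul, ← AddChar.map_add_eq_mul,
      show flipHom C B x + b + (-b + -flipHom C B x) = 0 by abel, AddChar.map_zero_eq_one]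
  rw [e0]
  calc ψ (flipHom C B x + b) =
        (η (flipHom C B x + b) * (η (-b) * η (-flipHom C B x))) * ψ (flipHom C B x + b) := by
          rw [e1, one_mul]
    _ = (k * η (flipHom C B x + b) * ψ (flipHom C B x + b)) *
          (η (-b) * η (-flipHom C B x)) / k := by field_simp
    _ = l / k * η (-b) * η (-flipHom C B x) * ψ x := by rw [h1]; ring

end

end Pool.Agent.helper391_PS
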